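import Mathlib

set_option autoImplicit false

namespace Pool.Agent.H129Z.BM

open scoped ENNReal

universe u

/-- the Banach-Mazur distance `inf ‖T‖ ‖T⁻¹‖` over all isomorphisms `T` of `Y` onto `Z` -/
noncomputable def bm (Y Z : Type u) [NormedAddCommGroup Y] [NormedSpace ℝ Y]
    [NormedAddCommGroup Z] [NormedSpace ℝ Z] : ℝ≥0∞ :=
  ⨅ T : Y ≃L[ℝ] Z, ‖(T : Y →L[ℝ] Z)‖ₑ * ‖(T.symm : Z →L[ℝ] Y)‖ₑ

/-- `D(X)`: the supremum of the distances between two spaces isomorphic to `X` -/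
noncomputable def bmDiam (X : Type u) [NormedAddCommGroup X] [NormedSpace ℝ X] : ℝ≥0∞ :=
  ⨆ (Y : Type u) (_ : NormedAddCommGroup Y) (_ : NormedSpace ℝ Y) (_ : Nonempty (Y ≃L[ℝ] X))
    (Z : Type u) (_ : NormedAddCommGroup Z) (_ : NormedSpace ℝ Z) (_ : Nonempty (Z ≃L[ℝ] X)),
    bm Y Z

end Pool.Agent.H129Z.BM
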