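import Mathlib
import Pool.Agent.H129Z.BMDefs

/-!
The identity of `ℓ₁^n` does not factor cheaply through `C(K)` (Riesz products), so the
isomorphism class of `C(K)` has infinite Banach-Mazur diameter.
-/

set_option autoImplicit false

namespace Pool.Agent.H129Z.BM

open scoped ENNReal
open Finset

universe u

/-- a sign -/
def sg (e : Bool) : ℝ := if e then 1 else -1

theorem riesz_sum {n : ℕ} (b : Fin n → ℝ) (j : Fin n) :
    ∑ ε : Fin n → Bool, sg (ε j) * (∏ i, (1 + Complex.I * (sg (ε i) * b i : ℝ))).im =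
      2 ^ n * b j := by
  have h : ∑ ε : Fin n → Bool, (sg (ε j) : ℂ) * ∏ i, (1 + Complex.I * (sg (ε i) * b i : ℝ)) =
      2 ^ n * (Complex.I * b j) := by
    have e1 : ∀ ε : Fin n → Bool, (sg (ε j) : ℂ) * ∏ i, (1 + Complex.I * (sg (ε i) * b i : ℝ)) =
        ∏ i, ((if i = j then (sg (ε i) : ℂ) else 1) * (1 + Complex.I * (sg (ε i) * b i : ℝ))) := by
      intro ε
      rw [prod_mul_distrib, prod_ite_eq']
      simp
    simp only [e1]
    rw [← Fintype.piFinset_univ, ← prod_univ_sum (fun _ => (univ : Finset Bool))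
      (fun i e => (if i = j then (sg e : ℂ) else 1) * (1 + Complex.I * (sg e * b i : ℝ)))]
    have e2 : ∀ i : Fin n, ∑ e : Bool, (if i = j then (sg e : ℂ) else 1) *
        (1 + Complex.I * (sg e * b i : ℝ)) = 2 * (if i = j then Complex.I * b i else 1) := by
      intro i
      by_cases hi : i = j <;> simp [hi, sg] <;> ring
    simp only [e2]
    rw [prod_mul_distrib, prod_ite_eq']
    simp
  have := congrArg Complex.im h
  rw [Complex.im_sum] at this
  simp only [Complex.im_ofReal_mul] at this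
  rw [this, show (2 : ℂ) ^ n = ((2 ^ n : ℝ) : ℂ) by push_cast; rfl, Complex.im_ofReal_mul]
  simp

theorem riesz_norm {m : ℕ} (hm : 0 < m) (c : Fin (m ^ 2) → ℝ) (hc : ∀ i, |c i| ≤ 1 / m) :
    |(∏ i, (1 + Complex.I * (c i : ℝ))).im| ≤ 2 := by
  refine (Complex.abs_im_le_norm _).trans ?_
  have h1 : ∀ i, ‖(1 : ℂ) + Complex.I * (c i : ℝ)‖ ≤ Real.exp (1 / (2 * m ^ 2)) := by
    intro i
    refine abs_le_of_sq_le_sq' ?_ (Real.exp_pos _).le |>.2
    rw [Complex.sq_norm, Complex.normSq_apply, ← Real.exp_nat_mul]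
    have h2 : c i ^ 2 ≤ (1 / m) ^ 2 := sq_le_sq' (abs_le.1 (hc i)).1 (abs_le.1 (hc i)).2
    have h3 := Real.add_one_le_exp ((2 : ℕ) * (1 / (2 * (m : ℝ) ^ 2)))
    have h4 : ((2 : ℕ) : ℝ) * (1 / (2 * (m : ℝ) ^ 2)) = (1 / m) ^ 2 := by
      push_cast
      field_simp
    rw [h4] at h3 ⊢
    simp only [Complex.add_re, Complex.one_re, Complex.mul_re, Complex.I_re, Complex.ofReal_re,
      Complex.I_im, Complex.ofReal_im, Complex.add_im, Complex.one_im, Complex.mul_im]
    nlinarith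
  rw [norm_prod]
  refine (prod_le_prod (fun i _ => norm_nonneg _) (fun i _ => h1 i)).trans ?_
  rw [prod_const, card_univ, Fintype.card_fin, ← Real.exp_nat_mul]
  have h4 : ((m ^ 2 : ℕ) : ℝ) * (1 / (2 * (m : ℝ) ^ 2)) = 1 / 2 := by
    push_cast
    field_simp
  rw [h4]
  refine abs_le_of_sq_le_sq' ?_ (by norm_num) |>.2
  rw [← Real.exp_nat_mul]
  have := Real.exp_one_lt_d9
  norm_num
  linarith

variable {K : Type u} [TopologicalSpace K] [CompactSpace K]

theorem factor {m : ℕ} (hm : 0 < m) (A : PiLp 1 (fun _ : Fin (m ^ 2) => ℝ) →L[ℝ] C(K, ℝ))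
    (B : C(K, ℝ) →L[ℝ] PiLp 1 (fun _ : Fin (m ^ 2) => ℝ)) (h : ∀ x, B (A x) = x) :
    (m : ℝ) ≤ 2 * (‖A‖ * ‖B‖) := by
  classical
  have hm' : (0 : ℝ) < m := by exact_mod_cast hm
  let f : Fin (m ^ 2) → C(K, ℝ) := fun i => A (PiLp.single 1 i 1)
  have hf : ∀ i t, |f i t| ≤ ‖A‖ := fun i t => by
    refine ((f i).norm_coe_le_norm t).trans ((A.le_opNorm _).trans ?_)
    simp
  have hA : 0 < ‖A‖ := by
    refine (norm_pos_iff (a := A)).2 fun h0 => ?_
    have := h (PiLp.single 1 ⟨0, by positivity⟩ 1)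
    rw [h0] at this
    have := congrArg (fun v => v ⟨0, by positivity⟩) this
    simp at this
  let l : ℝ := 1 / (m * ‖A‖)
  have hl : 0 < l := by positivity
  let g : (Fin (m ^ 2) → Bool) → C(K, ℝ) := fun ε =>
    ⟨fun t => (∏ i, (1 + Complex.I * (sg (ε i) * (l * f i t) : ℝ))).im, by fun_prop⟩
  have hg : ∀ ε, ‖g ε‖ ≤ 2 := fun ε => by
    refine (ContinuousMap.norm_le _ (by norm_num)).2 fun t => riesz_norm hm _ fun i => ?_
    have h1 : |sg (ε i)| = 1 := by unfold sg; split_ifs <;> simp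
    rw [abs_mul, h1, one_mul, abs_mul, abs_of_pos hl]
    refine (mul_le_mul_of_nonneg_left (hf i t) hl.le).trans (le_of_eq ?_)
    simp only [l]
    field_simp
  have hsum : ∀ j, ∑ ε, sg (ε j) • g ε = (2 ^ (m ^ 2) * l) • f j := fun j => by
    ext t
    rw [ContinuousMap.sum_apply, ContinuousMap.smul_apply, smul_eq_mul, mul_assoc,
      ← riesz_sum (fun i => l * f i t) j]
    rfl
  have h1 : ∑ ε : Fin (m ^ 2) → Bool, ∑ j, sg (ε j) * B (g ε) j = m ^ 2 * (2 ^ (m ^ 2) * l) := by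
    rw [sum_comm]
    have : ∀ j, ∑ ε : Fin (m ^ 2) → Bool, sg (ε j) * B (g ε) j = 2 ^ (m ^ 2) * l := fun j => by
      have h2 := congrArg (fun v => B v j) (hsum j)
      simp only [map_sum, map_smul, f, h] at h2
      simpa using h2
    simp [this]
  have h2 : ∀ ε : Fin (m ^ 2) → Bool, ∑ j, sg (ε j) * B (g ε) j ≤ ‖B‖ * 2 := fun ε => by
    refine le_trans ?_ ((B.le_opNorm _).trans (mul_le_mul_of_nonneg_left (hg ε) (norm_nonneg _)))
    rw [PiLp.norm_eq_of_L1]
    refine sum_le_sum fun j _ => (le_abs_self _).trans ?_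
    have h1 : |sg (ε j)| = 1 := by unfold sg; split_ifs <;> simp
    rw [abs_mul, h1, one_mul, Real.norm_eq_abs]
  have h3 := sum_le_sum fun ε (_ : ε ∈ (univ : Finset (Fin (m ^ 2) → Bool))) => h2 ε
  rw [h1, sum_const, card_univ, Fintype.card_fun, Fintype.card_bool, Fintype.card_fin,
    nsmul_eq_mul] at h3
  push_cast at h3
  have h4 : (m : ℝ) ^ 2 * l ≤ ‖B‖ * 2 :=
    le_of_mul_le_mul_left (by linarith) (show (0 : ℝ) < 2 ^ (m ^ 2) by positivity)
  have h5 : (m : ℝ) ^ 2 * l = m / ‖A‖ := by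
    simp only [l]
    field_simp
  rw [h5, div_le_iff₀ hA] at h4
  linarith

theorem bm_ge {m : ℕ} (hm0 : 0 < m) {r : NNReal} (hm : 2 * (r : ℝ) < m) (Y : Type u)
    [NormedAddCommGroup Y] [NormedSpace ℝ Y] :
    (r : ℝ≥0∞) ≤ bm C(K, ℝ) (PiLp 1 (fun _ : Fin (m ^ 2) => ℝ) × Y) := by
  refine le_iInf fun T => ?_
  have h1 := factor hm0 (T.symm.toContinuousLinearMap.comp (ContinuousLinearMap.inl ℝ _ _))
    ((ContinuousLinearMap.fst ℝ _ _).comp T.toContinuousLinearMap) (fun x => by simp)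
  have h2 : ‖T.symm.toContinuousLinearMap.comp (ContinuousLinearMap.inl ℝ _ _)‖ ≤
      ‖T.symm.toContinuousLinearMap‖ :=
    (ContinuousLinearMap.opNorm_comp_le _ _).trans
      (mul_le_of_le_one_right (norm_nonneg _) (ContinuousLinearMap.norm_inl_le_one _ _ _))
  have h3 : ‖(ContinuousLinearMap.fst ℝ _ _).comp T.toContinuousLinearMap‖ ≤
      ‖T.toContinuousLinearMap‖ :=
    (ContinuousLinearMap.opNorm_comp_le _ _).trans
      (mul_le_of_le_one_left (norm_nonneg _) (ContinuousLinearMap.norm_fst_le _ _ _))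
  have h4 := mul_le_mul h2 h3 (norm_nonneg _) (norm_nonneg _)
  rw [← ofReal_norm_eq_enorm, ← ofReal_norm_eq_enorm, ← ENNReal.ofReal_mul (norm_nonneg _),
    ← ENNReal.ofReal_coe_nnreal]
  refine ENNReal.ofReal_le_ofReal ?_
  linarith

theorem main [T2Space K] [Infinite K] : bmDiam C(K, ℝ) = ⊤ := by
  refine ENNReal.eq_top_of_forall_nnreal_le fun r => ?_
  obtain ⟨m, hm⟩ := exists_nat_gt (2 * (r : ℝ))
  have hm0 : 0 < m := by
    have : (0 : ℝ) < m := lt_of_le_of_lt (by positivity) hm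
    exact_mod_cast this
  let e : Fin (m ^ 2) → K := fun i => Infinite.natEmbedding K i
  have he : Topology.IsClosedEmbedding e := continuous_of_discreteTopology.isClosedEmbedding
    ((Infinite.natEmbedding K).injective.comp Fin.val_injective)
  let R : C(K, ℝ) →L[ℝ] PiLp 1 (fun _ : Fin (m ^ 2) => ℝ) :=
    (PiLp.continuousLinearEquiv 1 ℝ (fun _ : Fin (m ^ 2) => ℝ)).symm.toContinuousLinearMap.comp
      (ContinuousLinearMap.pi fun i => ContinuousMap.evalCLM ℝ (e i))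
  have hR : R.range = ⊤ := by
    rw [LinearMap.range_eq_top]
    intro v
    obtain ⟨g, hg⟩ := ContinuousMap.exists_extension he
      (⟨fun i => v i, continuous_of_discreteTopology⟩ : C(Fin (m ^ 2), ℝ))
    refine ⟨g, ?_⟩
    ext i
    exact DFunLike.congr_fun hg i
  obtain ⟨S, hS⟩ := R.exists_rightInverse_of_surjective hR
  let φ := ContinuousLinearEquiv.equivOfRightInverse R S (fun x => DFunLike.congr_fun hS x)
  refine le_trans ?_ (le_iSup₂_of_le C(K, ℝ) inferInstance (le_iSup₂_of_le inferInstance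
    ⟨ContinuousLinearEquiv.refl ℝ _⟩ (le_iSup₂_of_le
      (PiLp 1 (fun _ : Fin (m ^ 2) => ℝ) × R.ker) inferInstance
      (le_iSup₂_of_le inferInstance ⟨φ.symm⟩ le_rfl))))
  exact bm_ge hm0 hm _

end Pool.Agent.H129Z.BM
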