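import Mathlib

set_option autoImplicit false

namespace Pool.Agent.H129Z.Eng

universe u

/-- `IsProd B n x`: the element `x` is a product of `n` elements of `B`, with some arrangement of
parentheses. -/
inductive IsProd {A : Type u} [Mul A] (B : Set A) : ℕ → A → Prop
  | one (x : A) : x ∈ B → IsProd B 1 x
  | mul (i j : ℕ) (x y : A) : IsProd B i x → IsProd B j y → IsProd B (i + j) (x * y)

/-- `B` is nilpotent: for some `N ≥ 1` every product of `N` elements of `B` vanishes. -/
def IsNilp {A : Type u} [Mul A] [Zero A] (B : Set A) : Prop :=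
  ∃ N : ℕ, 1 ≤ N ∧ ∀ x : A, IsProd B N x → x = 0

end Pool.Agent.H129Z.Eng
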