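import Mathlib
import Pool.Agent.H129Z.EngDefs

/-!
A two-generated anticommutative 3-Engel algebra in characteristic 3 that is not nilpotent.
It is built on three copies of the ring of Hurwitz series.
-/

set_option autoImplicit false

namespace Pool.Agent.H129Z.Eng

universe u

variable {F : Type u} [Field F]

/-- the shift -/
def sh (f : ℕ → F) : ℕ → F := fun n => f (n + 1)

/-- the coefficients of the Hurwitz product -/
def hm : ℕ → (ℕ → F) → (ℕ → F) → F
  | 0, f, g => f 0 * g 0
  | n + 1, f, g => hm n (sh f) g + hm n f (sh g)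

theorem hm_comm (n : ℕ) : ∀ f g : ℕ → F, hm n f g = hm n g f := by
  induction n with
  | zero => intro f g; exact mul_comm _ _
  | succ n ih => intro f g; simp only [hm]; rw [ih (sh f), ih f, add_comm]

theorem hm_add (n : ℕ) : ∀ f g k : ℕ → F, hm n f (g + k) = hm n f g + hm n f k := by
  induction n with
  | zero => intro f g k; exact mul_add _ _ _
  | succ n ih =>
    intro f g k
    simp only [hm]
    rw [ih, show sh (g + k) = sh g + sh k from rfl, ih]
    ring

theorem hm_smul (c : F) (n : ℕ) : ∀ f g : ℕ → F, hm n f (c • g) = c * hm n f g := by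
  induction n with
  | zero => intro f g; simp only [hm, Pi.smul_apply, smul_eq_mul]; ring
  | succ n ih =>
    intro f g
    simp only [hm]
    rw [ih, show sh (c • g) = c • sh g from rfl, ih]
    ring

theorem hm_zero (n : ℕ) (f : ℕ → F) : hm n f 0 = 0 := by
  have := hm_smul 0 n f 0
  rwa [zero_smul, zero_mul] at this

theorem hm_one (n : ℕ) : ∀ f : ℕ → F, hm n f (Pi.single 0 1) = f n := by
  induction n with
  | zero => intro f; simp [hm]
  | succ n ih =>
    intro f
    simp only [hm]
    have : sh (Pi.single 0 1 : ℕ → F) = 0 := by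
      funext k
      simp [sh]
    rw [ih, this, hm_zero, add_zero]
    rfl

theorem hm_assoc (n : ℕ) : ∀ f g k : ℕ → F,
    hm n (fun i => hm i f g) k = hm n f (fun i => hm i g k) := by
  induction n with
  | zero => intro f g k; exact mul_assoc _ _ _
  | succ n ih =>
    intro f g k
    simp only [hm]
    have e : ∀ f g : ℕ → F, sh (fun i => hm i f g) =
      (fun i => hm i (sh f) g) + fun i => hm i f (sh g) := fun _ _ => rfl
    rw [e, e, hm_add, hm_comm n (_ + _), hm_add, hm_comm n k, hm_comm n k, ih, ih, ih]
    ring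

/-- Hurwitz series -/
def Hur (F : Type u) : Type u := ℕ → F

instance : AddCommGroup (Hur F) := inferInstanceAs (AddCommGroup (ℕ → F))
instance : Module F (Hur F) := inferInstanceAs (Module F (ℕ → F))

instance : CommRing (Hur F) :=
  { (inferInstance : AddCommGroup (Hur F)) with
    mul := fun f g n => hm n f g
    one := (Pi.single 0 1 : ℕ → F)
    mul_comm := fun f g => funext fun n => hm_comm n f g
    mul_assoc := fun f g k => funext fun n => hm_assoc n f g k
    left_distrib := fun f g k => funext fun n => hm_add n f g k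
    right_distrib := fun f g k => funext fun n =>
      (hm_comm n _ _).trans ((hm_add n k f g).trans
        (congrArg₂ (· + ·) (hm_comm n k f) (hm_comm n k g)))
    zero_mul := fun f => funext fun n => (hm_comm n _ _).trans (hm_zero n f)
    mul_zero := fun f => funext fun n => hm_zero n f
    one_mul := fun f => funext fun n => (hm_comm n _ _).trans (hm_one n f)
    mul_one := fun f => funext fun n => hm_one n f }

theorem mul_smul' (c : F) (f g : Hur F) : f * (c • g) = c • (f * g) :=
  funext fun n => hm_smul c n f g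

theorem smul_mul' (c : F) (f g : Hur F) : (c • f) * g = c • (f * g) := by
  rw [mul_comm, mul_smul', mul_comm]

/-- differentiation -/
def D : Hur F →+ Hur F where
  toFun := sh
  map_zero' := rfl
  map_add' _ _ := rfl

/-- the constant term -/
def ev : Hur F →+* F where
  toFun f := f 0
  map_zero' := rfl
  map_add' _ _ := rfl
  map_one' := by change (Pi.single 0 1 : ℕ → F) 0 = 1; simp
  map_mul' _ _ := rfl

/-- integration -/
def P : Hur F →ₗ[F] Hur F where
  toFun f := fun n => Nat.casesOn n 0 f
  map_add' f g := by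
    funext n
    cases n
    · exact (add_zero _).symm
    · rfl
  map_smul' c f := by
    funext n
    cases n
    · exact (mul_zero c).symm
    · rfl

theorem D_mul (f g : Hur F) : D (f * g) = D f * g + f * D g := rfl

theorem D_P (f : Hur F) : D (P f) = f := rfl

theorem ev_P (f : Hur F) : ev (P f) = 0 := rfl

theorem eq_zero (f : Hur F) (h1 : D f = 0) (h2 : ev f = 0) : f = 0 := by
  funext n
  cases n with
  | zero => exact h2
  | succ n => exact congrFun h1 n

/-- the algebra -/
def Alg (F : Type u) : Type u := Hur F × Hur F × Hur F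

instance : AddCommGroup (Alg F) := inferInstanceAs (AddCommGroup (Hur F × Hur F × Hur F))
instance : Module F (Alg F) := inferInstanceAs (Module F (Hur F × Hur F × Hur F))

/-- the product -/
def amul (x y : Hur F × Hur F × Hur F) : Hur F × Hur F × Hur F :=
  (P x.2.2 * y.1 - P y.2.2 * x.1, P x.2.2 * y.2.1 - P y.2.2 * x.2.1,
    P x.2.2 * y.2.2 - P y.2.2 * x.2.2 + (y.1 * x.2.1 - y.2.1 * x.1))

theorem amul_add (x y z : Hur F × Hur F × Hur F) : amul x (y + z) = amul x y + amul x z := by
  refine Prod.ext ?_ (Prod.ext ?_ ?_) <;> simp only [amul, Prod.fst_add, Prod.snd_add, map_add] <;>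
    ring

theorem add_amul (x y z : Hur F × Hur F × Hur F) : amul (x + y) z = amul x z + amul y z := by
  refine Prod.ext ?_ (Prod.ext ?_ ?_) <;> simp only [amul, Prod.fst_add, Prod.snd_add, map_add] <;>
    ring

theorem amul_smul (c : F) (x y : Hur F × Hur F × Hur F) : amul x (c • y) = c • amul x y := by
  refine Prod.ext ?_ (Prod.ext ?_ ?_) <;>
    simp only [amul, Prod.smul_fst, Prod.smul_snd, map_smul, mul_smul', smul_mul', smul_sub,
      smul_add]

theorem smul_amul (c : F) (x y : Hur F × Hur F × Hur F) : amul (c • x) y = c • amul x y := by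
  refine Prod.ext ?_ (Prod.ext ?_ ?_) <;>
    simp only [amul, Prod.smul_fst, Prod.smul_snd, map_smul, mul_smul', smul_mul', smul_sub,
      smul_add]

instance : NonUnitalNonAssocRing (Alg F) :=
  { (inferInstance : AddCommGroup (Alg F)) with
    mul := amul
    left_distrib := amul_add
    right_distrib := add_amul
    zero_mul := fun x => by
      have := smul_amul (0 : F) 0 x
      rwa [zero_smul, zero_smul] at this
    mul_zero := fun x => by
      have := amul_smul (0 : F) x 0
      rwa [zero_smul, zero_smul] at this }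

instance : IsScalarTower F (Alg F) (Alg F) := ⟨fun c x y => smul_amul c x y⟩
instance : SMulCommClass F (Alg F) (Alg F) := ⟨fun c x y => (amul_smul c x y).symm⟩

theorem amul_self (x : Hur F × Hur F × Hur F) : amul x x = 0 := by
  refine Prod.ext ?_ (Prod.ext ?_ ?_) <;> simp only [amul, Prod.fst_zero, Prod.snd_zero] <;> ring

theorem engel [CharP F 3] (x y : Hur F × Hur F × Hur F) : amul (amul (amul x y) y) y = 0 := by
  have h3 : (3 : Hur F) = 0 := by
    have : (3 : F) = 0 := CharP.cast_eq_zero F 3
    calc (3 : Hur F) = (1 + 1 + 1 : F) • (1 : Hur F) := by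
          rw [add_smul, add_smul, one_smul]
          norm_num
      _ = 0 := by rw [show (1 + 1 + 1 : F) = 3 by norm_num, this, zero_smul]
  obtain ⟨f, g, h⟩ := x
  obtain ⟨p, q, k⟩ := y
  have hK : P k * P k * P k = 0 := by
    refine eq_zero _ ?_ (by simp only [map_mul, ev_P, mul_zero])
    simp only [D_mul, D_P]
    linear_combination (P k * P k * k) * h3
  set h1 := P h * k - P k * h + (p * g - q * f) with hh1
  set h2 := P h1 * k - P k * h1 + (p * (P h * q - P k * g) - q * (P h * p - P k * f)) with hh2
  have key : P h2 - P k * P h1 + P k * P k * P h = 0 := by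
    refine eq_zero _ ?_ (by simp only [map_add, map_sub, map_mul, ev_P]; ring)
    simp only [map_add, map_sub, D_mul, D_P]
    rw [hh2]
    rw [hh1]
    linear_combination (P k * P k * h - P k * (p * g - q * f)) * h3
  refine Prod.ext ?_ (Prod.ext ?_ ?_) <;> simp only [amul, Prod.fst_zero, Prod.snd_zero]
  · linear_combination p * key - f * hK
  · linear_combination q * key - g * hK
  · rw [← hh1, ← hh2]
    linear_combination k * key - P k * hh2 + P k * P k * hh1 - h * hK +
      (P k * P k * (p * g - q * f)) * h3

theorem main (F : Type u) [Field F] [CharP F 3] :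
    ∃ (A : Type u) (_ : NonUnitalNonAssocRing A) (_ : Module F A) (_ : IsScalarTower F A A)
      (_ : SMulCommClass F A A), (∀ x : A, x * x = 0) ∧ (∀ x y : A, x * y * y * y = 0) ∧
      ∃ a b : A, ¬ IsNilp (NonUnitalAlgebra.adjoin F {a, b} : Set A) := by
  let a : Alg F := ((1 : Hur F), (0 : Hur F), (0 : Hur F))
  let b : Alg F := ((0 : Hur F), (1 : Hur F), (0 : Hur F))
  refine ⟨Alg F, inferInstance, inferInstance, inferInstance, inferInstance, amul_self, engel,
    a, b, ?_⟩
  set B : Set (Alg F) := (NonUnitalAlgebra.adjoin F {a, b} : Set (Alg F))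
  have ha : IsProd B 1 a := IsProd.one _ (NonUnitalAlgebra.subset_adjoin F (by simp))
  have hb : IsProd B 1 b := IsProd.one _ (NonUnitalAlgebra.subset_adjoin F (by simp))
  have step : ∀ (n : ℕ) (h : Hur F), IsProd B n ((h, (0 : Hur F), (0 : Hur F)) : Alg F) →
      IsProd B (n + 1) (((0 : Hur F), (0 : Hur F), -h) : Alg F) := by
    intro n h hp
    have := IsProd.mul _ _ _ _ hp hb
    convert this using 1
    refine Prod.ext ?_ (Prod.ext ?_ ?_) <;>
      simp only [b, show ∀ x y : Alg F, x * y = amul x y from fun _ _ => rfl, amul, map_zero] <;>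
      ring
  have key : ∀ k : ℕ, ∃ h : Hur F, h k ≠ 0 ∧
      IsProd B (2 * k + 1) ((h, (0 : Hur F), (0 : Hur F)) : Alg F) := by
    intro k
    induction k with
    | zero => exact ⟨1, by change (Pi.single 0 1 : ℕ → F) 0 ≠ 0; simp, ha⟩
    | succ k ih =>
      obtain ⟨h, h0, hp⟩ := ih
      refine ⟨P (-h), neg_ne_zero.2 h0, ?_⟩
      have := IsProd.mul _ _ _ _ (step _ _ hp) ha
      rw [show 2 * (k + 1) + 1 = 2 * k + 1 + 1 + 1 by ring]
      convert this using 1
      refine Prod.ext ?_ (Prod.ext ?_ ?_) <;>
        simp only [a, show ∀ x y : Alg F, x * y = amul x y from fun _ _ => rfl, amul, map_zero] <;>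
        ring
  rintro ⟨N, hN, h⟩
  obtain ⟨k, rfl | rfl⟩ : ∃ k, N = 2 * k + 1 ∨ N = 2 * k + 1 + 1 := ⟨(N - 1) / 2, by omega⟩
  · obtain ⟨f, h0, hp⟩ := key k
    exact h0 (congrFun (congrArg Prod.fst (h _ hp)) k)
  · obtain ⟨f, h0, hp⟩ := key k
    exact neg_ne_zero.2 h0 (congrFun (congrArg (fun z => z.2.2) (h _ (step _ _ hp))) k)

end Pool.Agent.H129Z.Eng
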