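import Mathlib
import Pool.Agent.H293Z.MO.Sub

/-!
Products of two rough numbers of medium size in a short interval (task MED).
-/

set_option autoImplicit false

open Finset

namespace Pool.Agent.H129Z.Med

open Pool.Agent.H392Z.MO Pool.Agent.H293Z.MO

theorem sum_dvd (a b l : ℕ) (hl : 0 < l) (f : ℕ → ℝ) :
    ∑ d ∈ Ioc a b, (if l ∣ d then f d else 0) = ∑ k ∈ Ioc (a / l) (b / l), f (l * k) := by
  rw [← sum_filter]
  symm
  refine sum_bij (fun k _ => l * k) ?_ ?_ ?_ (fun _ _ => rfl)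
  · intro k hk
    rw [mem_Ioc] at hk
    rw [mem_filter, mem_Ioc]
    refine ⟨⟨?_, ?_⟩, dvd_mul_right _ _⟩
    · rw [mul_comm]; exact (Nat.div_lt_iff_lt_mul hl).1 hk.1
    · rw [mul_comm]; exact (Nat.le_div_iff_mul_le hl).1 hk.2
  · intro k _ k' _ h
    exact Nat.eq_of_mul_eq_mul_left hl h
  · intro d hd
    rw [mem_filter, mem_Ioc] at hd
    obtain ⟨⟨h1, h2⟩, k, rfl⟩ := hd
    refine ⟨k, mem_Ioc.2 ⟨?_, ?_⟩, rfl⟩
    · rw [Nat.div_lt_iff_lt_mul hl, mul_comm]; exact h1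
    · rw [Nat.le_div_iff_mul_le hl, mul_comm]; exact h2

/-- pairs of moduli -/
noncomputable def SS (z : ℝ) : Finset (ℕ × ℕ) := Icc 1 ⌊z⌋₊ ×ˢ Icc 1 ⌊z⌋₊

/-- the sieve majorant -/
noncomputable def maj (ρ : ℕ → ℝ) (z : ℝ) (m : ℕ) : ℝ :=
  ∑ p ∈ SS z, ρ p.1 * ρ p.2 * (if Nat.lcm p.1 p.2 ∣ m then 1 else 0)

theorem maj_eq (ρ : ℕ → ℝ) (z : ℝ) (m : ℕ) :
    maj ρ z m = (∑ a ∈ Icc 1 ⌊z⌋₊, if a ∣ m then ρ a else 0) ^ 2 := by
  rw [sq, sum_mul_sum, maj, SS, sum_product]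
  refine sum_congr rfl fun a _ => sum_congr rfl fun b _ => ?_
  by_cases ha : a ∣ m <;> by_cases hb : b ∣ m <;> simp [ha, hb, Nat.lcm_dvd_iff]

theorem maj_nonneg (ρ : ℕ → ℝ) (z : ℝ) (m : ℕ) : 0 ≤ maj ρ z m := by
  rw [maj_eq]; positivity

theorem maj_rough (ρ : ℕ → ℝ) (h1 : ρ 1 = 1) {z : ℝ} (hz : 2 ≤ z) {m : ℕ} (hm : Rough z m) :
    maj ρ z m = 1 := by
  rw [maj_eq, sum_eq_single 1]
  · simp [h1]
  · intro a ha ha1
    rw [if_neg]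
    intro hd
    have hp := Nat.minFac_prime ha1
    have h2 := hm _ hp ((Nat.minFac_dvd a).trans hd)
    rw [mem_Icc] at ha
    have h3 : (a.minFac : ℝ) ≤ a := by exact_mod_cast Nat.minFac_le ha.1
    have h4 : (a : ℝ) ≤ z := (Nat.le_floor_iff (by linarith)).1 ha.2
    linarith
  · intro h
    exact absurd (mem_Icc.2 ⟨le_rfl, Nat.le_floor (by push_cast; linarith)⟩) h

/-- the counting function -/
noncomputable def NN (P₁ P₂ A B l₁ l₂ : ℕ) : ℝ :=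
  ∑ d ∈ Ioc P₁ P₂, ∑ k ∈ Ioc (A / d) (B / d),
    (if l₁ ∣ d then 1 else 0) * (if l₂ ∣ k then (1 : ℝ) else 0)

open Classical in
theorem sieve (ρ ρ' : ℕ → ℝ) (h1 : ρ 1 = 1) (h1' : ρ' 1 = 1) {z₁ z₂ : ℝ} (hz₁ : 2 ≤ z₁)
    (hz₂ : 2 ≤ z₂) (P₁ P₂ A B : ℕ) :
    ∑ d ∈ (Ioc P₁ P₂).filter (Rough z₁),
      (((Ioc A B).filter (fun n => d ∣ n ∧ Rough z₂ (n / d))).card : ℝ) ≤
    ∑ p ∈ SS z₁, ∑ q ∈ SS z₂, ρ p.1 * ρ p.2 * (ρ' q.1 * ρ' q.2) *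
      NN P₁ P₂ A B (Nat.lcm p.1 p.2) (Nat.lcm q.1 q.2) := by
  have e : ∑ p ∈ SS z₁, ∑ q ∈ SS z₂, ρ p.1 * ρ p.2 * (ρ' q.1 * ρ' q.2) *
      NN P₁ P₂ A B (Nat.lcm p.1 p.2) (Nat.lcm q.1 q.2) =
      ∑ d ∈ Ioc P₁ P₂, ∑ k ∈ Ioc (A / d) (B / d), maj ρ z₁ d * maj ρ' z₂ k := by
    simp only [NN, maj, sum_mul_sum]
    simp only [mul_sum]
    symm
    rw [sum_congr rfl fun d _ => sum_comm, sum_comm]
    refine sum_congr rfl fun p _ => ?_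
    rw [sum_congr rfl fun d _ => sum_comm, sum_comm]
    refine sum_congr rfl fun q _ => sum_congr rfl fun d _ => sum_congr rfl fun k _ => ?_
    ring
  rw [e, sum_filter]
  refine sum_le_sum fun d hd => ?_
  have hd0 : 0 < d := lt_of_le_of_lt (Nat.zero_le _) (mem_Ioc.1 hd).1
  split_ifs with hr
  · rw [maj_rough ρ h1 hz₁ hr, card_filter]
    push_cast
    have := sum_dvd A B d hd0 (fun n => if Rough z₂ (n / d) then 1 else 0)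
    simp only [Nat.mul_div_cancel_left _ hd0] at this
    refine le_trans (le_of_eq (Eq.trans (sum_congr rfl fun n _ => ?_) this)) (sum_le_sum fun k _ => ?_)
    · by_cases h : d ∣ n <;> simp [h]
    · rw [one_mul]
      split_ifs with hk
      · exact (maj_rough ρ' h1' hz₂ hk).ge
      · exact maj_nonneg _ _ _
  · exact sum_nonneg fun k _ => mul_nonneg (maj_nonneg _ _ _) (maj_nonneg _ _ _)

theorem cast_div (a b : ℕ) : ((a / b : ℕ) : ℝ) = (a : ℝ) / b - Int.fract ((a : ℝ) / b) := by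
  rw [Int.self_sub_fract, ← Nat.floor_div_eq_div (K := ℝ), natCast_floor_eq_intCast_floor]
  positivity

theorem NN_eq (P₁ P₂ A B l₁ l₂ : ℕ) (hAB : A ≤ B) (h₁ : 0 < l₁) (h₂ : 0 < l₂) :
    NN P₁ P₂ A B l₁ l₂ = ((B : ℝ) - A) / (l₁ * l₂) * ∑ d ∈ Ioc (P₁ / l₁) (P₂ / l₁), (1 / d : ℝ)
      - ∑ d ∈ Ioc (P₁ / l₁) (P₂ / l₁), (Int.fract ((B : ℝ) / (l₁ * l₂) / d) - 1 / 2)
      + ∑ d ∈ Ioc (P₁ / l₁) (P₂ / l₁), (Int.fract ((A : ℝ) / (l₁ * l₂) / d) - 1 / 2) := by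
  have e1 : NN P₁ P₂ A B l₁ l₂ = ∑ d ∈ Ioc P₁ P₂,
      if l₁ ∣ d then (((B / d / l₂ : ℕ) : ℝ) - ((A / d / l₂ : ℕ) : ℝ)) else 0 := by
    refine sum_congr rfl fun d _ => ?_
    split_ifs with h
    · simp only [one_mul]
      rw [sum_dvd _ _ _ h₂ (fun _ => 1), sum_const, Nat.card_Ioc, nsmul_eq_mul, mul_one,
        Nat.cast_sub (Nat.div_le_div_right (Nat.div_le_div_right hAB))]
    · simp
  rw [e1, sum_dvd _ _ _ h₁, mul_sum, ← sum_sub_distrib, ← sum_add_distrib]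
  refine sum_congr rfl fun d _ => ?_
  rw [Nat.div_div_eq_div_mul, Nat.div_div_eq_div_mul, cast_div, cast_div]
  have e : ∀ t : ℝ, t / ((l₁ * d * l₂ : ℕ) : ℝ) = t / (l₁ * l₂) / d := fun t => by
    push_cast
    rw [div_div]
    congr 1
    ring
  rw [e, e]
  ring

theorem harm (K₁ : ℕ) (h : 0 < K₁) (K₂ : ℕ) (h2 : K₁ ≤ K₂) :
    |∑ d ∈ Ioc K₁ K₂, (1 / d : ℝ) - (Real.log K₂ - Real.log K₁)| ≤ 1 / K₁ - 1 / K₂ := by
  induction K₂, h2 using Nat.le_induction with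
  | base => simp
  | succ n hn ih =>
    rw [sum_Ioc_succ_top hn]
    have hn0 : (0 : ℝ) < n := by exact_mod_cast h.trans_le hn
    have a1 : Real.log ((n + 1) / n) ≤ (n + 1) / n - 1 := Real.log_le_sub_one_of_pos (by positivity)
    have a2 : Real.log (n / (n + 1)) ≤ n / (n + 1) - 1 := Real.log_le_sub_one_of_pos (by positivity)
    rw [Real.log_div (by positivity) (by positivity)] at a1 a2
    have e1 : ((n : ℝ) + 1) / n - 1 = 1 / n := by field_simp; ring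
    have e2 : (n : ℝ) / (n + 1) - 1 = -(1 / (n + 1)) := by field_simp; ring
    have e3 : (1 : ℝ) / (n + 1) ≤ 1 / n := one_div_le_one_div_of_le hn0 (by linarith)
    rw [abs_le] at ih ⊢
    push_cast
    constructor <;> linarith [ih.1, ih.2]

theorem log_floor {t : ℝ} {K : ℕ} (hK : 0 < K) (h1 : (K : ℝ) ≤ t) (h2 : t ≤ K + 1) :
    0 ≤ Real.log t - Real.log K ∧ Real.log t - Real.log K ≤ 1 / K := by
  have hK0 : (0 : ℝ) < K := by exact_mod_cast hK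
  refine ⟨sub_nonneg.2 (Real.log_le_log hK0 h1), ?_⟩
  rw [← Real.log_div (by linarith) hK0.ne']
  refine (Real.log_le_sub_one_of_pos (div_pos (by linarith) hK0)).trans ?_
  rw [div_sub_one hK0.ne']
  exact div_le_div_of_nonneg_right (by linarith) hK0.le

theorem rpow_up {y F s : ℝ} (hy : 1 ≤ y) (hF : 0 ≤ F) (hs : 0 ≤ s) {m k : ℕ} (h : F ≤ y ^ m)
    (hk : m * s ≤ k) : F ^ s ≤ y ^ k := by
  refine (Real.rpow_le_rpow hF h hs).trans ?_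
  rw [← Real.rpow_natCast, ← Real.rpow_mul (by linarith), ← Real.rpow_natCast]
  exact Real.rpow_le_rpow_of_exponent_le hy hk

theorem rpow_down {y F s : ℝ} (hy : 1 ≤ y) (hs : 0 ≤ s) {m k : ℕ} (h : y ^ m ≤ F)
    (hk : (k : ℝ) ≤ m * s) : y ^ k ≤ F ^ s := by
  refine le_trans ?_ (Real.rpow_le_rpow (by positivity) h hs)
  rw [← Real.rpow_natCast y m, ← Real.rpow_mul (by linarith), ← Real.rpow_natCast]
  exact Real.rpow_le_rpow_of_exponent_le hy hk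

theorem NN_est {C : ℝ} (hC : 0 < C)
    (hpsi : ∀ F : ℝ, 1 ≤ F → ∀ K₁ K₂ : ℕ, F ^ (45 / 100 : ℝ) ≤ K₁ → K₁ ≤ K₂ →
      (K₂ : ℝ) ≤ F ^ (55 / 100 : ℝ) →
      |∑ d ∈ Ioc K₁ K₂, (Int.fract (F / d) - 1 / 2)| ≤ C * F ^ (45 / 100 : ℝ))
    {y : ℝ} (hy : 2 ≤ y) {A B : ℕ} (hA : y ^ 999 ≤ A) (hAB : A ≤ B) (hB : (B : ℝ) ≤ y ^ 1001)
    (hBA : (B : ℝ) - A ≤ y ^ 501) {D₁ D₂ : ℝ} (hD₁ : y ^ 490 ≤ D₁) (hD : D₁ ≤ D₂)
    (hD₂ : D₂ ≤ y ^ 510) {l₁ l₂ : ℕ} (h₁ : 0 < l₁) (h₂ : 0 < l₂) (hl₁ : (l₁ : ℝ) ≤ y ^ 20)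
    (hl₂ : (l₂ : ℝ) ≤ y ^ 20) :
    |NN ⌊D₁⌋₊ ⌊D₂⌋₊ A B l₁ l₂ - ((B : ℝ) - A) * Real.log (D₂ / D₁) / (l₁ * l₂)| ≤
      (2 * C + 2) * y ^ 451 := by
  have hy1 : 1 ≤ y := by linarith
  have hy0 : 0 < y := by linarith
  have hl1 : (1 : ℝ) ≤ l₁ := by exact_mod_cast h₁
  have hl2 : (1 : ℝ) ≤ l₂ := by exact_mod_cast h₂
  have hAB' : (A : ℝ) ≤ B := by exact_mod_cast hAB
  have hD0 : 0 < D₁ := lt_of_lt_of_le (by positivity) hD₁
  have he1 : (1 : ℝ) ≤ l₁ * l₂ := one_le_mul_of_one_le_of_one_le hl1 hl2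
  have he2 : (l₁ : ℝ) * l₂ ≤ y ^ 40 := by
    calc (l₁ : ℝ) * l₂ ≤ y ^ 20 * y ^ 20 := mul_le_mul hl₁ hl₂ (by positivity) (by positivity)
      _ = y ^ 40 := by ring
  rw [NN_eq _ _ _ _ _ _ hAB h₁ h₂, ← Nat.floor_div_natCast, ← Nat.floor_div_natCast]
  set K₁ := ⌊D₁ / l₁⌋₊ with hK₁
  set K₂ := ⌊D₂ / l₁⌋₊ with hK₂
  have hq1 : y ^ 470 ≤ D₁ / l₁ := by
    rw [le_div_iff₀ (by linarith)]
    calc y ^ 470 * l₁ ≤ y ^ 470 * y ^ 20 := mul_le_mul_of_nonneg_left hl₁ (by positivity)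
      _ = y ^ 490 := by ring
      _ ≤ D₁ := hD₁
  have hq2 : D₁ / l₁ ≤ D₂ / l₁ := div_le_div_of_nonneg_right hD (by linarith)
  have hK12 : K₁ ≤ K₂ := Nat.floor_le_floor hq2
  have hK1a : (K₁ : ℝ) ≤ D₁ / l₁ := Nat.floor_le (by positivity)
  have hK1b : D₁ / l₁ ≤ K₁ + 1 := (Nat.lt_floor_add_one _).le
  have hK2a : (K₂ : ℝ) ≤ D₂ / l₁ := Nat.floor_le (le_trans (by positivity) hq2)
  have hK2b : D₂ / l₁ ≤ K₂ + 1 := (Nat.lt_floor_add_one _).le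
  have hp469 : 1 ≤ y ^ 469 := one_le_pow₀ hy1
  have hK1c : y ^ 469 ≤ K₁ := by
    have : 2 * y ^ 469 ≤ y ^ 470 := by
      rw [pow_succ y 469, mul_comm]
      exact mul_le_mul_of_nonneg_left hy (by positivity)
    linarith
  have hK1pos : 0 < K₁ := by
    have : (0 : ℝ) < K₁ := by linarith
    exact_mod_cast this
  have hK2c : (K₂ : ℝ) ≤ y ^ 510 := hK2a.trans ((div_le_self (by linarith) hl1).trans hD₂)
  have hps : ∀ t : ℝ, y ^ 999 ≤ t → t ≤ y ^ 1001 →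
      |∑ d ∈ Ioc K₁ K₂, (Int.fract (t / (l₁ * l₂) / d) - 1 / 2)| ≤ C * y ^ 451 := by
    intro t ht1 ht2
    have a1 : y ^ 959 ≤ t / (l₁ * l₂) := by
      rw [le_div_iff₀ (by linarith)]
      calc y ^ 959 * (l₁ * l₂) ≤ y ^ 959 * y ^ 40 := mul_le_mul_of_nonneg_left he2 (by positivity)
        _ = y ^ 999 := by ring
        _ ≤ t := ht1
    have a2 : t / (l₁ * l₂) ≤ y ^ 1001 :=
      (div_le_self (le_trans (by positivity) ht1) he1).trans ht2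
    have a3 : (t / (l₁ * l₂)) ^ (45 / 100 : ℝ) ≤ y ^ 451 :=
      rpow_up hy1 (le_trans (by positivity) a1) (by norm_num) a2 (by norm_num)
    have a4 : y ^ 510 ≤ (t / (l₁ * l₂)) ^ (55 / 100 : ℝ) :=
      rpow_down hy1 (by norm_num) a1 (by norm_num)
    refine (hpsi _ ((one_le_pow₀ hy1).trans a1) K₁ K₂
      (a3.trans ((pow_le_pow_right₀ hy1 (by norm_num)).trans hK1c)) hK12 (hK2c.trans a4)).trans ?_
    exact mul_le_mul_of_nonneg_left a3 hC.le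
  have b1 := hps A hA (hAB'.trans hB)
  have b2 := hps B (hA.trans hAB') hB
  have b3 : |∑ d ∈ Ioc K₁ K₂, (1 / d : ℝ) - Real.log (D₂ / D₁)| ≤ 2 / K₁ := by
    have c1 := harm K₁ hK1pos K₂ hK12
    have c2 := log_floor hK1pos hK1a hK1b
    have c3 := log_floor (hK1pos.trans_le hK12) hK2a hK2b
    have c4 : Real.log (D₂ / D₁) = Real.log (D₂ / l₁) - Real.log (D₁ / l₁) := by
      rw [Real.log_div (by linarith) (by linarith), Real.log_div (by linarith) (by linarith),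
        Real.log_div (by linarith) (by linarith)]
      ring
    have c5 : (0 : ℝ) ≤ 1 / K₂ := by positivity
    have c6 : (2 : ℝ) / K₁ = 1 / K₁ + 1 / K₁ := by ring
    have c7 : (0 : ℝ) ≤ 1 / K₁ := by positivity
    rw [abs_le] at c1 ⊢
    rw [c4, c6]
    constructor <;> linarith [c1.1, c1.2, c2.1, c2.2, c3.1, c3.2]
  have b4 : |((B : ℝ) - A) / (l₁ * l₂) * (∑ d ∈ Ioc K₁ K₂, (1 / d : ℝ) - Real.log (D₂ / D₁))| ≤
      2 * y ^ 451 := by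
    have c0 : (0 : ℝ) ≤ (B : ℝ) - A := by linarith
    rw [abs_mul, abs_of_nonneg (div_nonneg c0 (by linarith))]
    have c1 : ((B : ℝ) - A) / (l₁ * l₂) ≤ y ^ 501 := (div_le_self c0 he1).trans hBA
    have c2 : (2 : ℝ) / K₁ ≤ 2 / y ^ 469 :=
      div_le_div_of_nonneg_left (by norm_num) (by positivity) hK1c
    calc _ ≤ y ^ 501 * (2 / y ^ 469) := mul_le_mul c1 (b3.trans c2) (abs_nonneg _) (by positivity)
      _ = 2 * y ^ 32 := by field_simp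
      _ ≤ 2 * y ^ 451 := by gcongr <;> first | exact hy1 | norm_num
  rw [abs_le] at b1 b2 b4 ⊢
  have e : ((B : ℝ) - A) * Real.log (D₂ / D₁) / (l₁ * l₂) =
    ((B : ℝ) - A) / (l₁ * l₂) * Real.log (D₂ / D₁) := by ring
  rw [e]
  rw [mul_sub] at b4
  constructor <;> linarith [b1.1, b1.2, b2.1, b2.2, b4.1, b4.2]

theorem SS_spec {z y : ℝ} (hz : 2 ≤ z) (hzy : z ≤ y ^ 10) :
    ((SS z).card : ℝ) ≤ y ^ 20 ∧ ∀ p ∈ SS z, 0 < Nat.lcm p.1 p.2 ∧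
      (Nat.lcm p.1 p.2 : ℝ) ≤ y ^ 20 := by
  have h1 : (⌊z⌋₊ : ℝ) ≤ y ^ 10 := (Nat.floor_le (by linarith)).trans hzy
  have h2 : (⌊z⌋₊ : ℝ) * ⌊z⌋₊ ≤ y ^ 20 := by
    calc (⌊z⌋₊ : ℝ) * ⌊z⌋₊ ≤ y ^ 10 * y ^ 10 := mul_le_mul h1 h1 (by positivity) (by linarith)
      _ = y ^ 20 := by ring
  refine ⟨by simpa [SS] using h2, fun p hp => ?_⟩
  rw [SS, mem_product, mem_Icc, mem_Icc] at hp
  refine ⟨Nat.lcm_pos hp.1.1 hp.2.1, le_trans ?_ h2⟩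
  have : Nat.lcm p.1 p.2 ≤ ⌊z⌋₊ * ⌊z⌋₊ :=
    (Nat.le_of_dvd (Nat.mul_pos hp.1.1 hp.2.1) (Nat.lcm_dvd_mul _ _)).trans
      (Nat.mul_le_mul hp.1.2 hp.2.2)
  exact_mod_cast this

theorem med : S_MED := by
  classical
  rintro ⟨C, hC, hpsi⟩ ⟨Cs, hCs, hsel⟩
  refine ⟨2 * Cs ^ 2 + 100 * (2 * C + 2), 2 ^ 1000, by positivity, ?_⟩
  intro x hx H hH1 hH2 D₁ D₂ z₁ z₂ hD₁ hD hD₂ hz₁ hz₁' hz₂ hz₂'
  have hx0 : 0 < x := lt_of_lt_of_le (by positivity) hx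
  obtain ⟨y, hy, rfl⟩ : ∃ y : ℝ, 2 ≤ y ∧ x = y ^ 1000 := by
    refine ⟨x ^ ((1000 : ℕ) : ℝ)⁻¹, ?_, (Real.rpow_inv_natCast_pow hx0.le (by norm_num)).symm⟩
    have := Real.rpow_le_rpow (by positivity) hx (z := ((1000 : ℕ) : ℝ)⁻¹) (by positivity)
    rwa [Real.pow_rpow_inv_natCast (by norm_num) (by norm_num)] at this
  have hy1 : 1 ≤ y := by linarith
  have hy0 : 0 < y := by linarith
  have up : ∀ (s : ℝ) (k : ℕ), 0 ≤ s → ((1000 : ℕ) : ℝ) * s ≤ k → (y ^ 1000) ^ s ≤ y ^ k :=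
    fun s k hs hk => rpow_up hy1 hx0.le hs le_rfl hk
  have down : ∀ (s : ℝ) (k : ℕ), 0 ≤ s → (k : ℝ) ≤ (1000 : ℕ) * s → y ^ k ≤ (y ^ 1000) ^ s :=
    fun s k hs hk => rpow_down hy1 hs le_rfl hk
  replace hH1 : y ^ 499 ≤ H := (down _ 499 (by norm_num) (by norm_num)).trans hH1
  replace hH2 : H ≤ y ^ 500 := hH2.trans (up _ 500 (by norm_num) (by norm_num))
  replace hD₁ : y ^ 490 ≤ D₁ := (down _ 490 (by norm_num) (by norm_num)).trans hD₁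
  replace hD₂ : D₂ ≤ y ^ 510 := hD₂.trans (up _ 510 (by norm_num) (by norm_num))
  replace hz₁' : z₁ ≤ y ^ 10 := hz₁'.trans (up _ 10 (by norm_num) (by norm_num))
  replace hz₂' : z₂ ≤ y ^ 10 := hz₂'.trans (up _ 10 (by norm_num) (by norm_num))
  clear up down hx
  have dbl : ∀ k : ℕ, 2 * y ^ k ≤ y ^ (k + 1) := fun k => by
    rw [pow_succ, mul_comm]
    exact mul_le_mul_of_nonneg_left hy (by positivity)
  have hH0 : 1 ≤ H := (one_le_pow₀ hy1).trans hH1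
  set x := y ^ 1000 with hxy
  obtain ⟨A, hA⟩ : ∃ A : ℕ, ⌈x⌉₊ = A + 1 := Nat.exists_eq_add_one_of_ne_zero
    (Nat.ceil_pos.2 hx0).ne'
  obtain ⟨B, hB⟩ : ∃ B : ℕ, ⌈x + H⌉₊ = B + 1 := Nat.exists_eq_add_one_of_ne_zero
    (Nat.ceil_pos.2 (by linarith)).ne'
  have hI : Ival x H = Ioc A B := by
    rw [Ival, hA, hB]
    ext n
    simp only [mem_Ico, mem_Ioc]
    omega
  have hAB : A ≤ B := by
    have := Nat.ceil_le_ceil (show x ≤ x + H by linarith)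
    omega
  have hA1 : x ≤ A + 1 := by
    have := Nat.le_ceil x
    rw [hA] at this
    exact_mod_cast this
  have hB1 : (B : ℝ) ≤ x + H := by
    have := Nat.ceil_lt_add_one (show 0 ≤ x + H by linarith)
    rw [hB] at this
    push_cast at this
    linarith
  have hA2 : y ^ 999 ≤ A := by
    have a1 : 2 * y ^ 999 ≤ x := dbl 999
    have a2 : 1 ≤ y ^ 999 := one_le_pow₀ hy1
    linarith
  have hB2 : (B : ℝ) ≤ y ^ 1001 := by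
    have a1 : 2 * x ≤ y ^ 1001 := dbl 1000
    have a2 : y ^ 500 ≤ x := pow_le_pow_right₀ hy1 (by norm_num)
    linarith
  have hBA : (B : ℝ) - A ≤ 2 * H := by linarith
  have hBA0 : (0 : ℝ) ≤ (B : ℝ) - A := sub_nonneg.2 (by exact_mod_cast hAB)
  have hBA2 : (B : ℝ) - A ≤ y ^ 501 := by
    have a1 : 2 * y ^ 500 ≤ y ^ 501 := dbl 500
    linarith
  obtain ⟨ρ, hρ1, hρ2, hρ3⟩ := hsel z₁ hz₁
  obtain ⟨ρ', hρ1', hρ2', hρ3'⟩ := hsel z₂ hz₂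
  rw [hI]
  refine le_trans (le_of_eq ?_) ((sieve ρ ρ' hρ1 hρ1' hz₁ hz₂ ⌊D₁⌋₊ ⌊D₂⌋₊ A B).trans ?_)
  · congr
  obtain ⟨s1, s1'⟩ := SS_spec hz₁ hz₁'
  obtain ⟨s2, s2'⟩ := SS_spec hz₂ hz₂'
  set L := Real.log (D₂ / D₁) with hL
  have hD0 : 0 < D₁ := lt_of_lt_of_le (by positivity) hD₁
  have hL0 : 0 ≤ L := Real.log_nonneg ((one_le_div hD0).2 hD)
  set E := (2 * C + 2) * y ^ 451 with hE
  have hE0 : 0 ≤ E := by positivity
  have hterm : ∀ p ∈ SS z₁, ∀ q ∈ SS z₂, ρ p.1 * ρ p.2 * (ρ' q.1 * ρ' q.2) *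
      NN ⌊D₁⌋₊ ⌊D₂⌋₊ A B (Nat.lcm p.1 p.2) (Nat.lcm q.1 q.2) ≤
      ((B : ℝ) - A) * L * ((ρ p.1 * ρ p.2 / (Nat.lcm p.1 p.2 : ℝ)) *
        (ρ' q.1 * ρ' q.2 / (Nat.lcm q.1 q.2 : ℝ))) + E := by
    intro p hp q hq
    have h1 := NN_est hC hpsi hy hA2 hAB hB2 hBA2 hD₁ hD hD₂ (s1' p hp).1 (s2' q hq).1
      (s1' p hp).2 (s2' q hq).2
    have hw : |ρ p.1 * ρ p.2 * (ρ' q.1 * ρ' q.2)| ≤ 1 := by
      rw [abs_mul, abs_mul, abs_mul]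
      exact mul_le_one₀ (mul_le_one₀ (hρ2 _) (abs_nonneg _) (hρ2 _)) (by positivity)
        (mul_le_one₀ (hρ2' _) (abs_nonneg _) (hρ2' _))
    have h2 := (le_abs_self _).trans ((abs_mul _ _).le.trans
      (mul_le_mul hw h1 (abs_nonneg _) zero_le_one))
    rw [one_mul, mul_sub] at h2
    have e : ((B : ℝ) - A) * L * ((ρ p.1 * ρ p.2 / (Nat.lcm p.1 p.2 : ℝ)) *
        (ρ' q.1 * ρ' q.2 / (Nat.lcm q.1 q.2 : ℝ))) = ρ p.1 * ρ p.2 * (ρ' q.1 * ρ' q.2) *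
        (((B : ℝ) - A) * L / ((Nat.lcm p.1 p.2 : ℝ) * (Nat.lcm q.1 q.2 : ℝ))) := by ring
    rw [e]
    linarith
  refine (sum_le_sum fun p hp => sum_le_sum fun q hq => hterm p hp q hq).trans ?_
  simp only [sum_add_distrib, ← mul_sum, ← sum_mul, sum_const, nsmul_eq_mul]
  rw [← sum_product'] at hρ3 hρ3'
  have hl1 : 0 < Real.log z₁ := Real.log_pos (by linarith)
  have hl2 : 0 < Real.log z₂ := Real.log_pos (by linarith)
  have hlog : ∀ z : ℝ, 2 ≤ z → z ≤ y ^ 10 → Real.log z ≤ 10 * y := by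
    intro z h1 h2
    refine (Real.log_le_log (by linarith) h2).trans ?_
    rw [Real.log_pow]
    have := Real.log_le_sub_one_of_pos hy0
    push_cast
    linarith
  have m1 : (∑ p ∈ SS z₁, ρ p.1 * ρ p.2 / (Nat.lcm p.1 p.2 : ℝ)) *
      (∑ q ∈ SS z₂, ρ' q.1 * ρ' q.2 / (Nat.lcm q.1 q.2 : ℝ)) ≤
      Cs ^ 2 / (Real.log z₁ * Real.log z₂) := by
    refine (le_abs_self _).trans ((abs_mul _ _).le.trans ?_)
    refine (mul_le_mul hρ3 hρ3' (abs_nonneg _) (by positivity)).trans (le_of_eq ?_)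
    field_simp
  have m2 : ((B : ℝ) - A) * L * ((∑ p ∈ SS z₁, ρ p.1 * ρ p.2 / (Nat.lcm p.1 p.2 : ℝ)) *
      (∑ q ∈ SS z₂, ρ' q.1 * ρ' q.2 / (Nat.lcm q.1 q.2 : ℝ))) ≤
      2 * H * L * (Cs ^ 2 / (Real.log z₁ * Real.log z₂)) :=
    (mul_le_mul_of_nonneg_left m1 (mul_nonneg hBA0 hL0)).trans
      (mul_le_mul_of_nonneg_right (mul_le_mul_of_nonneg_right hBA hL0) (by positivity))
  have m3 : ((SS z₁).card : ℝ) * (((SS z₂).card : ℝ) * E) ≤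
      100 * (2 * C + 2) * H / (Real.log z₁ * Real.log z₂) := by
    rw [le_div_iff₀ (by positivity)]
    calc ((SS z₁).card : ℝ) * (((SS z₂).card : ℝ) * E) * (Real.log z₁ * Real.log z₂)
        ≤ y ^ 20 * (y ^ 20 * E) * (10 * y * (10 * y)) := by
          have := hlog _ hz₁ hz₁'
          have := hlog _ hz₂ hz₂'
          gcongr
      _ = 100 * (2 * C + 2) * y ^ 493 := by rw [hE]; ring
      _ ≤ 100 * (2 * C + 2) * H := by
          have : y ^ 493 ≤ H := (pow_le_pow_right₀ hy1 (by norm_num)).trans hH1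
          gcongr
  rw [mul_left_comm] at m3
  refine (add_le_add m2 m3).trans ?_
  rw [← mul_div_assoc, ← add_div]
  refine div_le_div_of_nonneg_right ?_ (by positivity)
  have t1 : 0 ≤ Cs ^ 2 * H := by positivity
  have t2 : 0 ≤ (2 * C + 2) * H * L := by positivity
  nlinarith

end Pool.Agent.H129Z.Med
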