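import Mathlib

/-!
A regular P-space with a point that is not in the closure of any discrete subset of its complement.

Let `I` be the well-ordered set of type `𝔠⁺`, and let `Y` be the set of countable subsets of `I`,
where basic neighbourhoods of `y` consist of the sets agreeing with `y` below a given level.
For every nowhere dense `D ⊆ Y` choose a level `δ(D)` of uncountable cofinality below which every
node has an extension missing `D`; let `U(D)` be the clopen set of points decided to miss `D` below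
level `δ(D)`.  Countably many sets `U(D)` always meet (treat them in the order of the levels), so
they generate a countably complete filter, which is used as the neighbourhood filter of a new point.
-/

set_option autoImplicit false

namespace Pool.Agent.H129Z.RemoteP

open Cardinal Set

/-- dependent choice along a well-order -/
theorem wf_choice {ι T : Type*} [LinearOrder ι] [WellFoundedLT ι] [Nonempty T]
    (Q : ι → T → Prop) (R : ι → T → ι → T → Prop)
    (h : ∀ (a : ι) (g : ι → T), (∀ b < a, Q b (g b)) → (∀ b < a, ∀ c < b, R c (g c) b (g b)) →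
      ∃ t, Q a t ∧ ∀ b < a, R b (g b) a t) :
    ∃ g : ι → T, (∀ a, Q a (g a)) ∧ ∀ a, ∀ b < a, R b (g b) a (g a) := by
  classical
  let F : ∀ a : ι, (∀ b, b < a → T) → T := fun a prev =>
    Classical.epsilon (fun t => Q a t ∧ ∀ b (hb : b < a), R b (prev b hb) a t)
  let g : ι → T := (wellFounded_lt (α := ι)).fix F
  have hg : ∀ a, g a = F a (fun b _ => g b) := fun a => (wellFounded_lt (α := ι)).fix_eq F a
  have key : ∀ a, Q a (g a) ∧ ∀ b < a, R b (g b) a (g a) := by
    intro a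
    induction a using WellFoundedLT.induction with
    | ind a ih =>
      have := h a g (fun b hb => (ih b hb).1) (fun b hb => (ih b hb).2)
      have h2 := Classical.epsilon_spec this
      rw [hg a]
      exact h2
  exact ⟨g, fun a => (key a).1, fun a => (key a).2⟩

theorem bdd_of_regular {c : Cardinal.{0}} (hc : c.IsRegular) (s : Set c.ord.ToType) (hs : #s < c) :
    ∃ x, ∀ y ∈ s, y < x := by
  have : ¬ IsCofinal s := fun h => by
    have h1 := Order.cof_le h
    rw [Ordinal.cof_toType, hc.cof_ord] at h1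
    exact absurd hs (not_lt.2 h1)
  exact not_isCofinal_iff.1 this

/-- the levels -/
abbrev I : Type := (Order.succ (𝔠 : Cardinal.{0})).ord.ToType

theorem bddI (s : Set I) (hs : #s ≤ 𝔠) : ∃ x, ∀ y ∈ s, y < x :=
  bdd_of_regular (isRegular_succ aleph0_le_continuum) s (Order.lt_succ_of_le hs)

theorem mk_IioI (x : I) : #(Iio x) ≤ 𝔠 := by
  have h := mk_Iio_lt x (by simp)
  rw [mk_ord_toType] at h
  exact Order.lt_succ_iff.1 h

theorem bddI_countable (s : Set I) (hs : s.Countable) : ∃ x, ∀ y ∈ s, y < x :=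
  bddI s ((le_aleph0_iff_set_countable.2 hs).trans aleph0_le_continuum)

instance : Nonempty I := by
  obtain ⟨x, _⟩ := bddI_countable ∅ countable_empty
  exact ⟨x⟩

/-- closure points of uncountable cofinality -/
theorem exists_closure (f : I → I) :
    ∃ δ : I, (∀ β < δ, ∃ η < δ, β ≤ η ∧ f η < δ) ∧
      ∀ s : Set I, s.Countable → (∀ i ∈ s, i < δ) → ∃ β < δ, ∀ i ∈ s, i ≤ β := by
  let W : Type := (ℵ₁ : Cardinal.{0}).ord.ToType
  have hW : #W ≤ 𝔠 := by
    rw [mk_ord_toType]; exact aleph_one_le_continuum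
  have hWb : ∀ s : Set W, s.Countable → ∃ x, ∀ y ∈ s, y < x := fun s hs =>
    bdd_of_regular isRegular_aleph_one s
      ((le_aleph0_iff_set_countable.2 hs).trans_lt aleph0_lt_aleph_one)
  obtain ⟨a, -, ha⟩ := wf_choice (ι := W) (T := I) (fun _ _ => True)
    (fun _ x _ y => x < y ∧ f x < y) (by
      intro ξ g _ _
      have h1 : #(↥(range g ∪ range (fun b => f (g b)))) ≤ 𝔠 := by
        refine (mk_union_le _ _).trans ?_
        refine (add_le_add (mk_range_le.trans hW) (mk_range_le.trans hW)).trans ?_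
        rw [continuum_add_self]
      obtain ⟨x, hx⟩ := bddI _ h1
      exact ⟨x, trivial, fun b _ => ⟨hx _ (Or.inl ⟨b, rfl⟩), hx _ (Or.inr ⟨b, rfl⟩)⟩⟩)
  have hne : {x : I | ∀ ξ, a ξ < x}.Nonempty := by
    obtain ⟨x, hx⟩ := bddI (range a) (mk_range_le.trans hW)
    exact ⟨x, fun ξ => hx _ ⟨ξ, rfl⟩⟩
  let δ := (wellFounded_lt (α := I)).min _ hne
  have hδ : ∀ ξ, a ξ < δ := (wellFounded_lt (α := I)).min_mem _ hne
  have hδ' : ∀ β < δ, ∃ ξ, β ≤ a ξ := by
    intro β hβ
    by_contra hcon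
    push Not at hcon
    exact (wellFounded_lt (α := I)).not_lt_min {x : I | ∀ ξ, a ξ < x} (x := β) hcon hβ
  refine ⟨δ, ?_, ?_⟩
  · intro β hβ
    obtain ⟨ξ, hξ⟩ := hδ' β hβ
    obtain ⟨ζ, hζ⟩ := hWb {ξ} (countable_singleton ξ)
    exact ⟨a ξ, hδ ξ, hξ, (ha ζ ξ (hζ ξ rfl)).2.trans (hδ ζ)⟩
  · intro s hs hsδ
    choose ξ hξ using fun i : s => hδ' i.1 (hsδ i.1 i.2)
    have : Countable s := hs.to_subtype
    obtain ⟨ζ, hζ⟩ := hWb (range ξ) (countable_range ξ)
    exact ⟨a ζ, hδ ζ, fun i hi => (hξ ⟨i, hi⟩).trans (ha ζ _ (hζ _ ⟨⟨i, hi⟩, rfl⟩)).1.le⟩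

/-- the points: countable sets of levels -/
abbrev Y : Type := {y : Set I // y.Countable}

instance : Nonempty Y := ⟨⟨∅, countable_empty⟩⟩

/-- agreement below a level -/
def agree (β : I) (y z : Y) : Prop := ∀ i < β, (i ∈ y.1 ↔ i ∈ z.1)

theorem agree.rfl' (β : I) (y : Y) : agree β y y := fun _ _ => Iff.rfl

theorem agree.symm' {β : I} {y z : Y} (h : agree β y z) : agree β z y := fun i hi => (h i hi).symm

theorem agree.trans' {β : I} {y z w : Y} (h : agree β y z) (h' : agree β z w) : agree β y w :=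
  fun i hi => (h i hi).trans (h' i hi)

theorem agree.mono {β γ : I} {y z : Y} (h : agree γ y z) (hβ : β ≤ γ) : agree β y z :=
  fun i hi => h i (hi.trans_le hβ)

/-- nowhere dense sets -/
def Nwd (D : Set Y) : Prop :=
  ∀ (y : Y) (β : I), ∃ (z : Y) (γ : I), agree β y z ∧ β ≤ γ ∧ ∀ w, agree γ z w → w ∉ D

/-- good levels -/
def Good (D : Set Y) (δ : I) : Prop :=
  (∀ (y : Y) (β : I), β < δ →
    ∃ (z : Y) (γ : I), agree β y z ∧ β ≤ γ ∧ γ < δ ∧ ∀ w, agree γ z w → w ∉ D) ∧
  ∀ s : Set I, s.Countable → (∀ i ∈ s, i < δ) → ∃ β < δ, ∀ i ∈ s, i ≤ β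

theorem exists_good {D : Set Y} (hD : Nwd D) : ∃ δ, Good D δ := by
  choose z γ hz using hD
  have hf : ∀ η : I, ∃ x, ∀ y : Y, y.1 ⊆ Iio η → γ y η < x := by
    intro η
    have h1 : #{y : Y // y.1 ⊆ Iio η} ≤ 𝔠 := by
      have h2 := mk_bounded_subset_le (Iio η) ℵ₀
      have h3 : max #(Iio η) ℵ₀ ^ ℵ₀ ≤ (𝔠 : Cardinal.{0}) := by
        refine (power_le_power_right (max_le (mk_IioI η) aleph0_le_continuum)).trans ?_
        rw [continuum_power_aleph0]
      refine le_trans ?_ (h2.trans h3)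
      refine mk_le_of_injective (f := fun y =>
        (⟨y.1.1, y.2, le_aleph0_iff_set_countable.2 y.1.2⟩ :
          {t : Set I // t ⊆ Iio η ∧ #t ≤ ℵ₀})) ?_
      intro y y' h
      have h' : y.1.1 = y'.1.1 := by simpa using h
      exact Subtype.ext (Subtype.ext h')
    obtain ⟨x, hx⟩ := bddI (range fun y : {y : Y // y.1 ⊆ Iio η} => γ y.1 η) (mk_range_le.trans h1)
    exact ⟨x, fun y hy => hx _ ⟨⟨y, hy⟩, rfl⟩⟩
  choose f hf using hf
  obtain ⟨δ, h1, h2⟩ := exists_closure f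
  refine ⟨δ, ?_, h2⟩
  intro y β hβ
  obtain ⟨η, -, hβη, hfη⟩ := h1 β hβ
  let y' : Y := ⟨y.1 ∩ Iio η, y.2.mono inter_subset_left⟩
  have hy' : agree η y y' := fun i hi => ⟨fun h => ⟨h, hi⟩, fun h => h.1⟩
  obtain ⟨a1, a2, a3⟩ := hz y' η
  exact ⟨z y' η, γ y' η, (hy'.trans' a1).mono hβη, hβη.trans a2,
    (hf η y' inter_subset_right).trans hfη, a3⟩

/-- the union of a coherent countable family of nodes -/
theorem exists_union {ι : Type} [LinearOrder ι] [Countable ι] (g : ι → Y × I) (J : Set ι)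
    (h : ∀ b ∈ J, ∀ c ∈ J, c < b → agree (g c).2 (g c).1 (g b).1) :
    ∃ y : Y, ∀ b ∈ J, agree (g b).2 (g b).1 y := by
  refine ⟨⟨⋃ b ∈ J, (g b).1.1 ∩ Iio (g b).2, ?_⟩, ?_⟩
  · exact (Set.to_countable J).biUnion fun b _ => (g b).1.2.mono inter_subset_left
  · intro b hb i hi
    simp only [mem_iUnion]
    constructor
    · intro h1
      exact ⟨b, hb, h1, hi⟩
    · rintro ⟨c, hc, h1, h2⟩
      rcases lt_trichotomy c b with hcb | rfl | hbc
      · exact (h b hb c hc hcb i h2).1 h1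
      · exact h1
      · exact (h c hc b hb hbc i hi).2 h1

/-- the clopen sets generating the remote filter -/
def U (D : Set Y) (δ : I) : Set Y := {y | ∃ γ < δ, ∀ w, agree γ y w → w ∉ D}

theorem U_congr {D : Set Y} {δ : I} {y z : Y} (h : agree δ y z) (hy : y ∈ U D δ) : z ∈ U D δ := by
  obtain ⟨γ, h1, h2⟩ := hy
  exact ⟨γ, h1, fun w hw => h2 w ((h.mono h1.le).trans' hw)⟩

theorem U_disj {D : Set Y} {δ : I} {y : Y} (hy : y ∈ U D δ) : y ∉ D := by
  obtain ⟨γ, _, h2⟩ := hy
  exact h2 y (agree.rfl' _ _)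

theorem exists_inter_aux {ι : Type} [LinearOrder ι] [WellFoundedLT ι] [Countable ι]
    (D : ι → Set Y) (δ : ι → I) (hm : Monotone δ) (hg : ∀ a, Good (D a) (δ a)) :
    ∃ y, ∀ a, y ∈ U (D a) (δ a) := by
  obtain ⟨g, h1, h2⟩ := wf_choice (ι := ι) (T := Y × I)
    (fun a t => t.2 < δ a ∧ ∀ w, agree t.2 t.1 w → w ∉ D a)
    (fun _ s _ t => agree s.2 s.1 t.1) (by
      intro a g hQ hR
      obtain ⟨y, hy⟩ := exists_union g (Iio a) (fun b hb c _ hcb => hR b hb c hcb)
      obtain ⟨β, hβ, hβ'⟩ := (hg a).2 ((fun b => (g b).2) '' Iio a)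
        ((Set.to_countable _).image _) (by
          rintro _ ⟨b, hb, rfl⟩
          exact (hQ b hb).1.trans_le (hm (le_of_lt hb)))
      obtain ⟨z, γ, a1, -, a3, a4⟩ := (hg a).1 y β hβ
      exact ⟨(z, γ), ⟨a3, a4⟩, fun b hb =>
        (hy b hb).trans' (a1.mono (hβ' _ ⟨b, hb, rfl⟩))⟩)
  obtain ⟨y, hy⟩ := exists_union g univ (fun b _ c _ hcb => h2 b c hcb)
  exact ⟨y, fun a => ⟨(g a).2, (h1 a).1, fun w hw => (h1 a).2 w ((hy a trivial).trans' hw)⟩⟩

theorem exists_inter {ι : Type} [Countable ι]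
    (D : ι → Set Y) (δ : ι → I) (hg : ∀ a, Good (D a) (δ a)) :
    ∃ y, ∀ a, y ∈ U (D a) (δ a) := by
  obtain ⟨e, he⟩ := exists_injective_nat ι
  let φ : ι → I ×ₗ ℕ := fun a => toLex (δ a, e a)
  have hφ : Function.Injective φ := fun a b h => he (congrArg (fun p => (ofLex p).2) h)
  let : LinearOrder ι := LinearOrder.lift' φ hφ
  have : WellFoundedLT ι := ⟨InvImage.wf φ wellFounded_lt⟩
  refine exists_inter_aux D δ ?_ hg
  intro a b hab
  have : φ a ≤ φ b := hab
  exact Prod.Lex.monotone_fst _ _ this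

/-- the chosen level -/
noncomputable def lev (D : Set Y) : I := Classical.epsilon (Good D)

theorem good_lev {D : Set Y} (hD : Nwd D) : Good D (lev D) :=
  Classical.epsilon_spec (exists_good hD)

/-- the basic sets of the filter -/
def V (S : Set (Set Y)) : Set Y := {z | ∀ D ∈ S, z ∈ U D (lev D)}

theorem V_nonempty {S : Set (Set Y)} (hS : S.Countable) (hS' : ∀ D ∈ S, Nwd D) :
    (V S).Nonempty := by
  have : Countable S := hS.to_subtype
  obtain ⟨y, hy⟩ := exists_inter (ι := S) (fun D => D.1) (fun D => lev D.1)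
    (fun D => good_lev (hS' D.1 D.2))
  exact ⟨y, fun D hD => hy ⟨D, hD⟩⟩

theorem V_decided {S : Set (Set Y)} (hS : S.Countable) :
    ∃ β, ∀ y z, agree β y z → y ∈ V S → z ∈ V S := by
  obtain ⟨β, hβ⟩ := bddI_countable (lev '' S) (hS.image _)
  exact ⟨β, fun y z h hy D hD => U_congr (h.mono (hβ _ ⟨D, hD, rfl⟩).le) (hy D hD)⟩

/-- a set whose points are isolated in it is nowhere dense -/
theorem nwd_of_isolated {D : Set Y}
    (h : ∀ d ∈ D, ∃ γ, ∀ w ∈ D, agree γ d w → w = d) : Nwd D := by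
  classical
  intro y β
  by_cases hex : ∃ d ∈ D, agree β y d
  · obtain ⟨d, hd, hyd⟩ := hex
    obtain ⟨γ, hγ⟩ := h d hd
    let η := max β γ
    obtain ⟨θ, hθ⟩ := bddI_countable {η} (countable_singleton η)
    have hηθ : η < θ := hθ η rfl
    let z : Y := ⟨{i | (i ≠ η ∧ i ∈ d.1) ∨ (i = η ∧ i ∉ d.1)}, by
      refine (d.2.insert η).mono ?_
      rintro i (⟨_, h2⟩ | ⟨h1, _⟩)
      · exact Or.inr h2
      · exact Or.inl h1⟩
    have hdz : agree η d z := by
      intro i hi
      have : i ≠ η := hi.ne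
      simp [z, this]
    refine ⟨z, θ, hyd.trans' (hdz.mono (le_max_left _ _)), (le_max_left _ _).trans hηθ.le, ?_⟩
    intro w hw hwD
    have h1 : w = d := hγ w hwD ((hdz.trans' (hw.mono hηθ.le)).mono (le_max_right _ _))
    have h2 := hw η hηθ
    rw [h1] at h2
    simp [z] at h2
  · push Not at hex
    exact ⟨y, β, agree.rfl' _ _, le_rfl, fun w hw hwD => hex w hwD hw⟩

theorem nwd_singleton (y : Y) : Nwd {y} :=
  nwd_of_isolated fun d hd => ⟨Classical.arbitrary I, fun w hw _ => by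
    rw [mem_singleton_iff] at hd hw
    rw [hd, hw]⟩

/-- the open sets of the space -/
def Op (W : Set (Option Y)) : Prop :=
  (∀ y, some y ∈ W → ∃ β, ∀ z, agree β y z → some z ∈ W) ∧
  (none ∈ W → ∃ S : Set (Set Y), S.Countable ∧ (∀ D ∈ S, Nwd D) ∧ ∀ z ∈ V S, some z ∈ W)

theorem Op_iInter {W : ℕ → Set (Option Y)} (h : ∀ n, Op (W n)) : Op (⋂ n, W n) := by
  constructor
  · intro y hy
    choose β hβ using fun n => (h n).1 y (mem_iInter.1 hy n)
    obtain ⟨x, hx⟩ := bddI_countable (range β) (countable_range β)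
    exact ⟨x, fun z hz => mem_iInter.2 fun n => hβ n z (hz.mono (hx _ ⟨n, rfl⟩).le)⟩
  · intro hp
    choose S h1 h2 h3 using fun n => (h n).2 (mem_iInter.1 hp n)
    refine ⟨⋃ n, S n, countable_iUnion h1, ?_, ?_⟩
    · intro D hD
      obtain ⟨n, hn⟩ := mem_iUnion.1 hD
      exact h2 n D hn
    · intro z hz
      exact mem_iInter.2 fun n => h3 n z fun D hD => hz D (mem_iUnion.2 ⟨n, hD⟩)

/-- the topology -/
@[reducible] def top : TopologicalSpace (Option Y) where
  IsOpen := Op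
  isOpen_univ := ⟨fun _ _ => ⟨Classical.arbitrary I, fun _ _ => trivial⟩,
    fun _ => ⟨∅, countable_empty, by simp, fun _ _ => trivial⟩⟩
  isOpen_inter := by
    intro s t hs ht
    have := Op_iInter (W := fun n => if n = 0 then s else t) (by
      intro n
      split_ifs
      · exact hs
      · exact ht)
    convert this using 1
    ext x
    simp only [mem_inter_iff, mem_iInter]
    constructor
    · rintro ⟨h1, h2⟩ n
      split_ifs
      · exact h1
      · exact h2
    · intro h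
      exact ⟨by simpa using h 0, by simpa using h 1⟩
  isOpen_sUnion := by
    intro s hs
    constructor
    · rintro y ⟨t, ht, hy⟩
      obtain ⟨β, hβ⟩ := (hs t ht).1 y hy
      exact ⟨β, fun z hz => ⟨t, ht, hβ z hz⟩⟩
    · rintro ⟨t, ht, hp⟩
      obtain ⟨S, h1, h2, h3⟩ := (hs t ht).2 hp
      exact ⟨S, h1, h2, fun z hz => ⟨t, ht, h3 z hz⟩⟩

/-- basic neighbourhood of the new point -/
def Np (S : Set (Set Y)) : Set (Option Y) := insert none (some '' V S)

theorem some_mem_Np {S : Set (Set Y)} {y : Y} : some y ∈ Np S ↔ y ∈ V S := by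
  simp [Np]

theorem Op_Np {S : Set (Set Y)} (hS : S.Countable) (hS' : ∀ D ∈ S, Nwd D) : Op (Np S) := by
  obtain ⟨β, hβ⟩ := V_decided hS
  exact ⟨fun y hy => ⟨β, fun z hz => some_mem_Np.2 (hβ y z hz (some_mem_Np.1 hy))⟩,
    fun _ => ⟨S, hS, hS', fun z hz => some_mem_Np.2 hz⟩⟩

theorem Op_compl_Np {S : Set (Set Y)} (hS : S.Countable) : Op (Np S)ᶜ := by
  obtain ⟨β, hβ⟩ := V_decided hS
  refine ⟨fun y hy => ⟨β, fun z hz hz' => hy ?_⟩, fun h => absurd (mem_insert _ _) h⟩
  exact some_mem_Np.2 (hβ z y hz.symm' (some_mem_Np.1 hz'))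

/-- basic neighbourhood of an old point -/
def Ny (y : Y) (β : I) : Set (Option Y) := some '' {z | agree β y z}

theorem some_mem_Ny {y z : Y} {β : I} : some z ∈ Ny y β ↔ agree β y z := by
  simp [Ny]

theorem none_notMem_Ny {y : Y} {β : I} : none ∉ Ny y β := by
  simp [Ny]

theorem Op_Ny (y : Y) (β : I) : Op (Ny y β) :=
  ⟨fun _ hz => ⟨β, fun _ hw => some_mem_Ny.2 ((some_mem_Ny.1 hz).trans' hw)⟩,
    fun h => absurd h none_notMem_Ny⟩

theorem Op_compl_Ny (y : Y) {β : I} (hβ : lev {y} ≤ β) : Op (Ny y β)ᶜ := by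
  constructor
  · intro z hz
    exact ⟨β, fun w hw hw' => hz (some_mem_Ny.2 ((some_mem_Ny.1 hw').trans' hw.symm'))⟩
  · intro _
    refine ⟨{{y}}, countable_singleton _, ?_, ?_⟩
    · intro D hD
      rw [mem_singleton_iff] at hD
      rw [hD]
      exact nwd_singleton y
    · intro z hz hz'
      have h1 : z ∈ U {y} (lev {y}) := hz _ rfl
      have h2 : y ∈ U {y} (lev {y}) := U_congr (((some_mem_Ny.1 hz').mono hβ).symm') h1
      exact U_disj h2 rfl

theorem clopen_base (x : Option Y) (W : Set (Option Y)) (hW : Op W) (hx : x ∈ W) :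
    ∃ N, Op N ∧ Op Nᶜ ∧ x ∈ N ∧ N ⊆ W := by
  cases x with
  | none =>
    obtain ⟨S, h1, h2, h3⟩ := hW.2 hx
    refine ⟨Np S, Op_Np h1 h2, Op_compl_Np h1, mem_insert _ _, ?_⟩
    rintro _ (rfl | ⟨z, hz, rfl⟩)
    · exact hx
    · exact h3 z hz
  | some y =>
    obtain ⟨β, hβ⟩ := hW.1 y hx
    refine ⟨Ny y (max β (lev {y})), Op_Ny _ _, Op_compl_Ny y (le_max_right _ _),
      some_mem_Ny.2 (agree.rfl' _ _), ?_⟩
    rintro _ ⟨z, hz, rfl⟩
    exact hβ z (agree.mono hz (le_max_left _ _))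

theorem t3 : @T3Space (Option Y) top := by
  let := top
  have : T0Space (Option Y) := by
    rw [t0Space_iff_exists_isOpen_xor_mem]
    have key : ∀ (y : Y) (x : Option Y), x ≠ some y → ∃ β, x ∉ Ny y β := by
      intro y x hx
      cases x with
      | none => exact ⟨Classical.arbitrary I, none_notMem_Ny⟩
      | some z =>
        have hne : z.1 ≠ y.1 := fun h => hx (congrArg some (Subtype.ext h))
        have : ∃ i, ¬ (i ∈ y.1 ↔ i ∈ z.1) := by
          by_contra hcon
          push Not at hcon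
          exact hne (Set.ext fun i => (hcon i).symm)
        obtain ⟨i, hi⟩ := this
        obtain ⟨θ, hθ⟩ := bddI_countable {i} (countable_singleton i)
        exact ⟨θ, fun h => hi (some_mem_Ny.1 h i (hθ i rfl))⟩
    intro x x' hxx'
    cases x with
    | none =>
      cases x' with
      | none => exact absurd rfl hxx'
      | some y =>
        obtain ⟨β, hβ⟩ := key y none hxx'
        exact ⟨Ny y β, Op_Ny y β, Or.inr ⟨some_mem_Ny.2 (agree.rfl' _ _), hβ⟩⟩
    | some y =>
      obtain ⟨β, hβ⟩ := key y x' hxx'.symm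
      exact ⟨Ny y β, Op_Ny y β, Or.inl ⟨some_mem_Ny.2 (agree.rfl' _ _), hβ⟩⟩
  have : RegularSpace (Option Y) := by
    refine RegularSpace.of_exists_mem_nhds_isClosed_subset ?_
    intro x s hs
    obtain ⟨W, hWs, hW, hx⟩ := mem_nhds_iff.1 hs
    obtain ⟨N, h1, h2, h3, h4⟩ := clopen_base x W hW hx
    exact ⟨N, IsOpen.mem_nhds h1 h3, ⟨h2⟩, h4.trans hWs⟩
  exact {}

theorem not_closed : ¬ @IsClosed (Option Y) top (range some) := by
  intro h
  have h1 : Op (range some)ᶜ := h.isOpen_compl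
  obtain ⟨S, a1, a2, a3⟩ := h1.2 (by simp)
  obtain ⟨z, hz⟩ := V_nonempty a1 a2
  exact a3 z hz ⟨z, rfl⟩

theorem remote (D : Set (Option Y)) (hD : D ⊆ range some)
    (hd : @DiscreteTopology D (@instTopologicalSpaceSubtype _ _ top)) :
    none ∉ @closure _ top D := by
  let := top
  have hiso : ∀ d ∈ some ⁻¹' D, ∃ γ, ∀ w ∈ some ⁻¹' D, agree γ d w → w = d := by
    intro d hdD
    have h1 : IsOpen ({⟨some d, hdD⟩} : Set D) := isOpen_discrete _
    obtain ⟨W, hW, hW'⟩ := isOpen_induced_iff.1 h1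
    have h2 : some d ∈ W := by
      have : (⟨some d, hdD⟩ : D) ∈ Subtype.val ⁻¹' W := by rw [hW']; rfl
      exact this
    obtain ⟨β, hβ⟩ := (show Op W from hW).1 d h2
    refine ⟨β, fun w hw hdw => ?_⟩
    have h3 : (⟨some w, hw⟩ : D) ∈ Subtype.val ⁻¹' W := hβ w hdw
    rw [hW'] at h3
    exact Option.some.inj (congrArg Subtype.val h3)
  have hn := nwd_of_isolated hiso
  intro hcl
  have hop : IsOpen (Np {some ⁻¹' D}) := Op_Np (countable_singleton _) (by
    intro E hE
    rw [mem_singleton_iff] at hE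
    rw [hE]
    exact hn)
  obtain ⟨x, hx, hxD⟩ := mem_closure_iff.1 hcl _ hop (mem_insert _ _)
  obtain ⟨y, rfl⟩ := hD hxD
  exact U_disj (some_mem_Np.1 hx _ rfl) hxD

end Pool.Agent.H129Z.RemoteP
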