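import Pool.Agent.H129Z.SubDefs

set_option autoImplicit false

namespace Pool.Agent.H129Z.Sub

open scoped RealInnerProductSpace
open Set Metric

variable {E : Type} [NormedAddCommGroup E] [InnerProductSpace ℝ E]

theorem ereal_le_of_forall {a b : EReal} (hb : b ≠ ⊥) (h : ∀ t : ℝ, b ≤ t → a ≤ t) : a ≤ b := by
  induction b with
  | bot => exact absurd rfl hb
  | coe t => exact h t le_rfl
  | top => exact le_top

theorem add_le_iff_coe {a : EReal} {s t : ℝ} : a + (s : EReal) ≤ t ↔ a ≤ ((t - s : ℝ) : EReal) := by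
  induction a with
  | bot => simp
  | coe a =>
    rw [← EReal.coe_add, EReal.coe_le_coe_iff, EReal.coe_le_coe_iff]
    constructor <;> intro h <;> linarith
  | top =>
    rw [EReal.top_add_coe]
    exact iff_of_false (not_le.2 (EReal.coe_lt_top _)) (not_le.2 (EReal.coe_lt_top _))

theorem mem_subdiff_iff {f : E → EReal} (hf : ∀ x, f x ≠ ⊥) {x u : E} :
    u ∈ subdiff f x ↔ ∀ (y : E) (t : ℝ), f y ≤ t → f x ≤ ((t - ⟪u, y - x⟫ : ℝ) : EReal) := by
  constructor
  · intro h y t hy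
    exact add_le_iff_coe.1 ((h y).trans hy)
  · intro h y
    exact ereal_le_of_forall (hf y) fun t ht => add_le_iff_coe.2 (h y t ht)

theorem exists_real {a : EReal} (h : a ≠ ⊥) {t : ℝ} (ht : a ≤ t) : ∃ s : ℝ, a = s := by
  induction a with
  | bot => exact absurd rfl h
  | coe s => exact ⟨s, rfl⟩
  | top => simp at ht

theorem ProperLscConvex.exists_epi {f : E → EReal} (hf : ProperLscConvex f) :
    ∃ (y : E) (t : ℝ), f y ≤ t := by
  obtain ⟨y, hy⟩ := hf.proper
  refine ⟨y, (f y).toReal, ?_⟩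
  rw [EReal.coe_toReal hy (hf.ne_bot y)]

theorem ProperLscConvex.real_of_subdiff {f : E → EReal} (hf : ProperLscConvex f) {x u : E}
    (h : u ∈ subdiff f x) : ∃ s : ℝ, f x = s := by
  obtain ⟨y, t, hy⟩ := hf.exists_epi
  exact exists_real (hf.ne_bot x) ((mem_subdiff_iff hf.ne_bot).1 h y t hy)

theorem ProperLscConvex.isClosed_epi {f : E → EReal} (hf : ProperLscConvex f) :
    IsClosed {p : E × ℝ | f p.1 ≤ (p.2 : EReal)} := by
  have h := hf.lsc.isClosed_epigraph
  have hc : Continuous (fun p : E × ℝ => (p.1, (p.2 : EReal))) :=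
    continuous_fst.prodMk (continuous_coe_real_ereal.comp continuous_snd)
  exact h.preimage hc

/-- the graph of a set-valued map -/
def graph (A : E → Set E) : Set (E × E) := {p | p.2 ∈ A p.1}

theorem ProperLscConvex.isClosed_graph {f : E → EReal} (hf : ProperLscConvex f) :
    IsClosed (graph (subdiff f)) := by
  have : graph (subdiff f) = ⋂ (y : E) (t : ℝ) (_ : f y ≤ t),
      (fun p : E × E => (p.1, t - ⟪p.2, y - p.1⟫)) ⁻¹' {p : E × ℝ | f p.1 ≤ (p.2 : EReal)} := by
    ext p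
    simp only [graph, mem_ofPred_eq, mem_iInter, mem_preimage]
    exact mem_subdiff_iff hf.ne_bot
  rw [this]
  refine isClosed_iInter fun y => isClosed_iInter fun t => isClosed_iInter fun _ => ?_
  exact hf.isClosed_epi.preimage (by fun_prop)

theorem MaxMonotoneOp.isClosed_graph {A : E → Set E} (hA : MaxMonotoneOp A) :
    IsClosed (graph A) := by
  have hm : MonotoneOp (fun x => {u | (x, u) ∈ closure (graph A)}) := by
    intro x y u v hu hv
    have hcl : IsClosed {q : (E × E) × (E × E) | 0 ≤ ⟪q.1.2 - q.2.2, q.1.1 - q.2.1⟫} :=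
      isClosed_le continuous_const (by fun_prop)
    have hsub : graph A ×ˢ graph A ⊆
        {q : (E × E) × (E × E) | 0 ≤ ⟪q.1.2 - q.2.2, q.1.1 - q.2.1⟫} :=
      fun q hq => hA.1 _ _ _ _ hq.1 hq.2
    have := closure_minimal hsub hcl
    rw [closure_prod_eq] at this
    exact this (a := ((x, u), (y, v))) ⟨hu, hv⟩
  refine isClosed_of_closure_subset fun p hp => ?_
  exact hA.2 _ hm (fun x u hu => subset_closure hu) p.1 hp

theorem fsigma_image [ProperSpace E] {Γ : Set (E × E)} (hΓ : IsClosed Γ) {π : E × E → E}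
    (hπ : Continuous π) : IsFsigma (π '' Γ) := by
  refine ⟨fun k => π '' (Γ ∩ closedBall 0 k), fun k => ?_, ?_⟩
  · exact (((isCompact_closedBall _ _).inter_left hΓ).image hπ).isClosed
  · rw [← image_iUnion, ← inter_iUnion, iUnion_closedBall_nat, inter_univ]

theorem fsigma_dom [ProperSpace E] {A : E → Set E} (h : IsClosed (graph A)) : IsFsigma (dom A) := by
  have : dom A = Prod.fst '' graph A := by
    ext x
    constructor
    · rintro ⟨u, hu⟩
      exact ⟨(x, u), hu, rfl⟩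
    · rintro ⟨p, hp, rfl⟩
      exact ⟨p.2, hp⟩
  rw [this]
  exact fsigma_image h continuous_fst

theorem fsigma_ran [ProperSpace E] {A : E → Set E} (h : IsClosed (graph A)) : IsFsigma (ran A) := by
  have : ran A = Prod.snd '' graph A := by
    ext u
    simp only [ran, mem_iUnion]
    constructor
    · rintro ⟨x, hu⟩
      exact ⟨(x, u), hu, rfl⟩
    · rintro ⟨p, hp, rfl⟩
      exact ⟨p.1, hp⟩
  rw [this]
  exact fsigma_image h continuous_snd

theorem ProperLscConvex.monotone {f : E → EReal} (hf : ProperLscConvex f) :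
    MonotoneOp (subdiff f) := by
  intro x y u v hu hv
  obtain ⟨a, ha⟩ := hf.real_of_subdiff hu
  obtain ⟨b, hb⟩ := hf.real_of_subdiff hv
  have h1 := hu y
  have h2 := hv x
  rw [ha, hb, ← EReal.coe_add, EReal.coe_le_coe_iff] at h1 h2
  have e1 : ⟪u - v, x - y⟫ = -⟪u, y - x⟫ - ⟪v, x - y⟫ := by
    rw [inner_sub_left, ← neg_sub y x, inner_neg_right u]
  linarith

/-- the proximal point exists -/
theorem ProperLscConvex.exists_prox [ProperSpace E] {f : E → EReal} (hf : ProperLscConvex f)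
    {x₀ u₀ : E} (h₀ : u₀ ∈ subdiff f x₀) (w : E) : ∃ z, w - z ∈ subdiff f z := by
  obtain ⟨a, ha⟩ := hf.real_of_subdiff h₀
  have hlow : ∀ (y : E) (t : ℝ), f y ≤ t → a + ⟪u₀, y - x₀⟫ ≤ t := by
    intro y t hy
    have := (h₀ y).trans hy
    rwa [ha, ← EReal.coe_add, EReal.coe_le_coe_iff] at this
  let H : E × ℝ → ℝ := fun p => p.2 + ‖p.1 - w‖ ^ 2 / 2
  have hH : Continuous H := by fun_prop
  let M : ℝ := H (x₀, a)
  let S : Set (E × ℝ) := {p : E × ℝ | f p.1 ≤ (p.2 : EReal)} ∩ {p | H p ≤ M}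
  have hSc : IsClosed S := hf.isClosed_epi.inter (isClosed_le hH continuous_const)
  have hmem : (x₀, a) ∈ S := ⟨by simp [ha], by simp [M]⟩
  have hSb : Bornology.IsBounded S := by
    let R : ℝ := 2 * ‖u₀‖ + 2 * |M - a + ‖u₀‖ * ‖w - x₀‖| + 2
    have hR : ∀ p ∈ S, ‖p.1 - w‖ ≤ R := by
      intro p hp
      have h1 := hlow p.1 p.2 hp.1
      have h2 : p.2 + ‖p.1 - w‖ ^ 2 / 2 ≤ M := hp.2
      have h3 : -(‖u₀‖ * ‖p.1 - x₀‖) ≤ ⟪u₀, p.1 - x₀⟫ :=
        (neg_le_neg (abs_real_inner_le_norm _ _)).trans (neg_abs_le _)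
      have h4 : ‖p.1 - x₀‖ ≤ ‖p.1 - w‖ + ‖w - x₀‖ := norm_sub_le_norm_sub_add_norm_sub _ _ _
      have h5 := mul_le_mul_of_nonneg_left h4 (norm_nonneg u₀)
      have h6 := le_abs_self (M - a + ‖u₀‖ * ‖w - x₀‖)
      have h7 := abs_nonneg (M - a + ‖u₀‖ * ‖w - x₀‖)
      have h8 := norm_nonneg u₀
      by_contra hcon
      push Not at hcon
      have h9 : 2 * ‖u₀‖ + 2 * |M - a + ‖u₀‖ * ‖w - x₀‖| + 2 < ‖p.1 - w‖ := hcon
      nlinarith
    refine ((isBounded_closedBall (x := w) (r := R)).prod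
      (isBounded_Icc (a - ‖u₀‖ * (R + ‖w - x₀‖)) M)).subset ?_
    intro p hp
    refine ⟨by simpa [dist_eq_norm] using hR p hp, ?_, ?_⟩
    · have h1 := hlow p.1 p.2 hp.1
      have h3 : -(‖u₀‖ * ‖p.1 - x₀‖) ≤ ⟪u₀, p.1 - x₀⟫ :=
        (neg_le_neg (abs_real_inner_le_norm _ _)).trans (neg_abs_le _)
      have h4 : ‖p.1 - x₀‖ ≤ R + ‖w - x₀‖ :=
        (norm_sub_le_norm_sub_add_norm_sub _ w _).trans (by linarith [hR p hp])
      have h5 := mul_le_mul_of_nonneg_left h4 (norm_nonneg u₀)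
      linarith
    · have h2 : p.2 + ‖p.1 - w‖ ^ 2 / 2 ≤ M := hp.2
      have := sq_nonneg ‖p.1 - w‖
      linarith
  have hSk : IsCompact S := isCompact_of_isClosed_isBounded hSc hSb
  obtain ⟨q, hq, hmin⟩ := hSk.exists_isMinOn ⟨_, hmem⟩ hH.continuousOn
  have hmin' : ∀ p : E × ℝ, f p.1 ≤ (p.2 : EReal) → H q ≤ H p := by
    intro p hp
    by_cases h : H p ≤ M
    · exact hmin ⟨hp, h⟩
    · exact (show H q ≤ M from hq.2).trans (le_of_lt (not_le.1 h))
  refine ⟨q.1, (mem_subdiff_iff hf.ne_bot).2 fun y t hy => hq.1.trans ?_⟩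
  rw [EReal.coe_le_coe_iff]
  have key : ∀ s : ℝ, 0 < s → s ≤ 1 →
      q.2 ≤ t - ⟪w - q.1, y - q.1⟫ + s * (‖y - q.1‖ ^ 2 / 2) := by
    intro s hs0 hs1
    have h1 := hf.convex hq.1 (show (y, t) ∈ {p : E × ℝ | f p.1 ≤ (p.2 : EReal)} from hy)
      (sub_nonneg.2 hs1) hs0.le (sub_add_cancel 1 s)
    have h2 := hmin' _ h1
    have e1 : ((1 - s) • q + s • (y, t)).1 - w = (q.1 - w) + s • (y - q.1) := by
      simp only [Prod.fst_add, Prod.smul_fst]
      module
    have e2 : ((1 - s) • q + s • (y, t)).2 = (1 - s) * q.2 + s * t := by simp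
    simp only [H] at h2
    rw [e1, e2, norm_add_sq_real, inner_smul_right, norm_smul, mul_pow, Real.norm_eq_abs,
      sq_abs] at h2
    have e3 : ⟪q.1 - w, y - q.1⟫ = -⟪w - q.1, y - q.1⟫ := by
      rw [← neg_sub w q.1, inner_neg_left]
    rw [e3] at h2
    have h3 : s * q.2 ≤ s * (t - ⟪w - q.1, y - q.1⟫ + s * (‖y - q.1‖ ^ 2 / 2)) := by nlinarith
    exact le_of_mul_le_mul_left h3 hs0
  refine le_of_forall_pos_le_add fun ε hε => ?_
  have hB : 0 ≤ ‖y - q.1‖ ^ 2 / 2 := by positivity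
  have h1 := key (min 1 (ε / (‖y - q.1‖ ^ 2 / 2 + 1))) (by positivity) (min_le_left _ _)
  have h2 : min 1 (ε / (‖y - q.1‖ ^ 2 / 2 + 1)) * (‖y - q.1‖ ^ 2 / 2) ≤ ε := by
    refine (mul_le_mul_of_nonneg_right (min_le_right _ _) hB).trans ?_
    rw [div_mul_eq_mul_div, div_le_iff₀ (by positivity)]
    nlinarith
  linarith

theorem ProperLscConvex.maxMonotone [ProperSpace E] {f : E → EReal} (hf : ProperLscConvex f)
    {x₀ u₀ : E} (h₀ : u₀ ∈ subdiff f x₀) : MaxMonotoneOp (subdiff f) := by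
  refine ⟨hf.monotone, fun B hB hsub x u hu => ?_⟩
  obtain ⟨z, hz⟩ := hf.exists_prox h₀ (x + u)
  have h1 := hB x z u _ hu (hsub z hz)
  have e : u - (x + u - z) = -(x - z) := by abel
  rw [e, inner_neg_left, real_inner_self_eq_norm_sq] at h1
  have h2 : ‖x - z‖ = 0 := by nlinarith [norm_nonneg (x - z)]
  have h3 : x = z := sub_eq_zero.1 (norm_eq_zero.1 h2)
  subst h3
  simpa using hz

/-- suprema of affine functions on a closed convex set -/
noncomputable def supF {J : Type} (D : Set E) (g : J → E) (b : J → ℝ) (y : E) : EReal := by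
  classical
  exact if y ∈ D then ⨆ j, ((⟪g j, y⟫ + b j : ℝ) : EReal) else ⊤

theorem supF_le_iff {J : Type} {D : Set E} {g : J → E} {b : J → ℝ} {y : E} {t : ℝ} :
    supF D g b y ≤ t ↔ y ∈ D ∧ ∀ j, ⟪g j, y⟫ + b j ≤ t := by
  unfold supF
  by_cases h : y ∈ D
  · simp only [h, if_true, iSup_le_iff, EReal.coe_le_coe_iff, true_and]
  · simp [h]

theorem supF_ne_bot {J : Type} [Nonempty J] {D : Set E} {g : J → E} {b : J → ℝ} (y : E) :
    supF D g b y ≠ ⊥ := by
  intro h
  obtain ⟨j⟩ := ‹Nonempty J›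
  have : supF D g b y ≤ ((⟪g j, y⟫ + b j - 1 : ℝ) : EReal) := by rw [h]; exact bot_le
  have := (supF_le_iff.1 this).2 j
  linarith

theorem supF_plc {J : Type} [Nonempty J] {D : Set E} (hD : IsClosed D) (hD' : Convex ℝ D)
    {g : J → E} {b : J → ℝ} {y₀ : E} {t₀ : ℝ} (h₀ : supF D g b y₀ ≤ t₀) :
    ProperLscConvex (supF D g b) := by
  refine ⟨supF_ne_bot, ⟨y₀, ne_top_of_le_ne_top (EReal.coe_ne_top _) h₀⟩, ?_, ?_⟩
  · rw [lowerSemicontinuous_iff_isClosed_preimage]
    intro t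
    induction t with
    | bot =>
      have : supF D g b ⁻¹' Iic ⊥ = ∅ := by
        ext y
        simp [supF_ne_bot y]
      rw [this]
      exact isClosed_empty
    | coe t =>
      have : supF D g b ⁻¹' Iic (t : EReal) = D ∩ ⋂ j, {y | ⟪g j, y⟫ + b j ≤ t} := by
        ext y
        simp only [mem_preimage, mem_Iic, mem_inter_iff, mem_iInter, mem_ofPred_eq]
        exact supF_le_iff
      rw [this]
      exact hD.inter (isClosed_iInter fun j => isClosed_le (by fun_prop) continuous_const)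
    | top => simp
  · intro p hp q hq s t hs ht hst
    have hp' := supF_le_iff.1 (show supF D g b p.1 ≤ (p.2 : EReal) from hp)
    have hq' := supF_le_iff.1 (show supF D g b q.1 ≤ (q.2 : EReal) from hq)
    refine supF_le_iff.2 ⟨hD' hp'.1 hq'.1 hs ht hst, fun j => ?_⟩
    simp only [Prod.fst_add, Prod.smul_fst, Prod.snd_add, Prod.smul_snd, smul_eq_mul,
      inner_add_right, inner_smul_right]
    have h1 := mul_le_mul_of_nonneg_left (hp'.2 j) hs
    have h2 := mul_le_mul_of_nonneg_left (hq'.2 j) ht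
    have h3 : b j = s * b j + t * b j := by rw [← add_mul, hst, one_mul]
    linarith

/-- the Fenchel conjugate inverts the subdifferential -/
theorem ProperLscConvex.exists_conj [ProperSpace E] {f : E → EReal} (hf : ProperLscConvex f)
    {x₀ u₀ : E} (h₀ : u₀ ∈ subdiff f x₀) :
    ∃ g : E → EReal, ProperLscConvex g ∧ ran (subdiff g) = dom (subdiff f) := by
  let J : Type := {p : E × ℝ // f p.1 ≤ (p.2 : EReal)}
  obtain ⟨y₁, t₁, h₁⟩ := hf.exists_epi
  have : Nonempty J := ⟨⟨(y₁, t₁), h₁⟩⟩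
  let g : E → EReal := supF univ (fun j : J => j.1.1) (fun j : J => -j.1.2)
  have hle : ∀ x u, u ∈ subdiff f x → ∀ a : ℝ, f x = a → g u ≤ ((⟪x, u⟫ - a : ℝ) : EReal) := by
    intro x u hu a ha
    refine supF_le_iff.2 ⟨trivial, fun j => ?_⟩
    have h2 := (mem_subdiff_iff hf.ne_bot).1 hu j.1.1 j.1.2 j.2
    rw [ha, EReal.coe_le_coe_iff, inner_sub_right, real_inner_comm, real_inner_comm x u] at h2
    linarith
  obtain ⟨a₀, ha₀⟩ := hf.real_of_subdiff h₀
  have hg : ProperLscConvex g := supF_plc isClosed_univ convex_univ (hle _ _ h₀ a₀ ha₀)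
  have hinv : ∀ x u, u ∈ subdiff f x → x ∈ subdiff g u := by
    intro x u hu
    obtain ⟨a, ha⟩ := hf.real_of_subdiff hu
    refine (mem_subdiff_iff hg.ne_bot).2 fun v t hv => (hle x u hu a ha).trans ?_
    have h2 := (supF_le_iff.1 hv).2 ⟨(x, a), ha.le⟩
    rw [EReal.coe_le_coe_iff, inner_sub_right]
    simp only at h2
    linarith
  refine ⟨g, hg, ?_⟩
  ext x
  simp only [ran, mem_iUnion]
  constructor
  · rintro ⟨u, hu⟩
    have hm : MonotoneOp (fun x => {u | x ∈ subdiff g u}) := by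
      intro x y u v hu hv
      rw [real_inner_comm]
      exact hg.monotone u v x y hu hv
    exact ⟨u, (hf.maxMonotone h₀).2 _ hm (fun x u hu => hinv x u hu) x hu⟩
  · rintro ⟨u, hu⟩
    exact ⟨u, hinv x u hu⟩

theorem MaxMonotoneOp.inv {A : E → Set E} (hA : MaxMonotoneOp A) :
    MaxMonotoneOp (fun u => {x | u ∈ A x}) := by
  constructor
  · intro u v x y hx hy
    rw [real_inner_comm]
    exact hA.1 x y u v hx hy
  · intro B hB hsub u x hx
    have hm : MonotoneOp (fun x => {u | x ∈ B u}) := by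
      intro x y u v hu hv
      rw [real_inner_comm]
      exact hB u v x y hu hv
    exact hA.2 _ hm (fun x u hu => hsub u hu) x hx

end Pool.Agent.H129Z.Sub
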