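import Mathlib

set_option autoImplicit false

namespace Pool.Agent.H129Z.Sub

open scoped RealInnerProductSpace

variable {E : Type} [NormedAddCommGroup E] [InnerProductSpace ℝ E]

/-- `f : E → (-∞, +∞]` is proper, lower semicontinuous and convex (its epigraph is convex). -/
structure ProperLscConvex (f : E → EReal) : Prop where
  ne_bot : ∀ x, f x ≠ ⊥
  proper : ∃ x, f x ≠ ⊤
  lsc : LowerSemicontinuous f
  convex : Convex ℝ {p : E × ℝ | f p.1 ≤ (p.2 : EReal)}

/-- the subdifferential `∂f(x) = {u : f(y) ≥ f(x) + ⟨u, y - x⟩ for all y}` -/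
def subdiff (f : E → EReal) (x : E) : Set E :=
  {u | ∀ y, f x + ((⟪u, y - x⟫ : ℝ) : EReal) ≤ f y}

/-- the domain of a set-valued map -/
def dom (A : E → Set E) : Set E := {x | (A x).Nonempty}

/-- the range of a set-valued map -/
def ran (A : E → Set E) : Set E := ⋃ x, A x

/-- monotone set-valued maps -/
def MonotoneOp (A : E → Set E) : Prop :=
  ∀ x y u v, u ∈ A x → v ∈ A y → 0 ≤ ⟪u - v, x - y⟫

/-- maximally monotone: monotone, and the graph is not properly contained in the graph of another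
monotone map -/
def MaxMonotoneOp (A : E → Set E) : Prop :=
  MonotoneOp A ∧ ∀ B : E → Set E, MonotoneOp B → (∀ x, A x ⊆ B x) → ∀ x, B x ⊆ A x

/-- `C` is an `F_σ` set: a countable union of closed sets -/
def IsFsigma (C : Set E) : Prop := ∃ F : ℕ → Set E, (∀ k, IsClosed (F k)) ∧ C = ⋃ k, F k

/-- `C` is nearly convex: `D ⊆ C ⊆ cl D` for some convex `D` -/
def NearlyConvex (C : Set E) : Prop := ∃ D : Set E, Convex ℝ D ∧ D ⊆ C ∧ C ⊆ closure D

end Pool.Agent.H129Z.Sub
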