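import Pool.Agent.H129Z.SubBasic

set_option autoImplicit false

namespace Pool.Agent.H129Z.Sub

open scoped RealInnerProductSpace
open Set Metric

variable {E : Type} [NormedAddCommGroup E] [InnerProductSpace ℝ E]

/-- a supremum of affine functions that is approached by functions of bounded slope has a
subgradient -/
theorem subdiff_of_bounded [ProperSpace E] {J : Type} [Nonempty J] {D : Set E} {g : J → E}
    {b : J → ℝ} {y : E} {φ R : ℝ} (hφ : supF D g b y ≤ φ)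
    (h : ∀ ε > 0, ∃ j, ‖g j‖ ≤ R ∧ φ - ε ≤ ⟪g j, y⟫ + b j) :
    (subdiff (supF D g b) y).Nonempty := by
  let S : ℕ → Set E := fun m => closedBall 0 R ∩
    ⋂ (w : E) (t : ℝ) (_ : supF D g b w ≤ t), {u | φ - 1 / (m + 1) ≤ t - ⟪u, w - y⟫}
  have hcl : ∀ m, IsClosed (S m) := fun m => isClosed_closedBall.inter
    (isClosed_iInter fun w => isClosed_iInter fun t => isClosed_iInter fun _ =>
      isClosed_le continuous_const (by fun_prop))
  have hne : ∀ m, (S m).Nonempty := by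
    intro m
    obtain ⟨j, h1, h2⟩ := h (1 / (m + 1)) (by positivity)
    refine ⟨g j, by simpa using h1, ?_⟩
    simp only [mem_iInter, mem_ofPred_eq]
    intro w t hw
    have := (supF_le_iff.1 hw).2 j
    rw [inner_sub_right]
    linarith
  have hanti : ∀ m, S (m + 1) ⊆ S m := by
    intro m u hu
    refine ⟨hu.1, ?_⟩
    have h2 := hu.2
    simp only [mem_iInter, mem_ofPred_eq] at h2 ⊢
    intro w t hw
    have h3 := h2 w t hw
    have h4 : (1 : ℝ) / (((m + 1 : ℕ) : ℝ) + 1) ≤ 1 / (m + 1) := by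
      apply one_div_le_one_div_of_le (by positivity)
      push_cast
      linarith
    linarith
  obtain ⟨u, hu⟩ := IsCompact.nonempty_iInter_of_sequence_nonempty_isCompact_isClosed S hanti hne
    ((isCompact_closedBall _ _).of_isClosed_subset (hcl 0) inter_subset_left) hcl
  refine ⟨u, (mem_subdiff_iff supF_ne_bot).2 fun w t hw => hφ.trans ?_⟩
  rw [EReal.coe_le_coe_iff]
  refine le_of_forall_pos_le_add fun ε hε => ?_
  obtain ⟨m, hm⟩ := exists_nat_one_div_lt hε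
  have h2 := (mem_iInter.1 hu m).2
  simp only [mem_iInter, mem_ofPred_eq] at h2
  have := h2 w t hw
  linarith

theorem exists_core [FiniteDimensional ℝ E] {D₀ : Set E} (hD : Convex ℝ D₀) (hne : D₀.Nonempty) :
    ∃ (c : E) (r : ℝ) (V : Submodule ℝ E), 0 < r ∧ (∀ x ∈ closure D₀, x - c ∈ V) ∧
      ∀ v ∈ V, ‖v‖ ≤ r → c + v ∈ D₀ := by
  obtain ⟨c, hc⟩ := hne.intrinsicInterior hD
  obtain ⟨y, hy, rfl⟩ := mem_intrinsicInterior.1 hc
  obtain ⟨r, hr, hball⟩ := Metric.mem_nhds_iff.1 (mem_interior_iff_mem_nhds.1 hy)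
  refine ⟨y, r / 2, (affineSpan ℝ D₀).direction, half_pos hr, ?_, ?_⟩
  · intro x hx
    have h1 : x ∈ affineSpan ℝ D₀ :=
      closure_minimal (subset_affineSpan ℝ D₀)
        (affineSpan ℝ D₀).closed_of_finiteDimensional hx
    exact AffineSubspace.vsub_mem_direction h1 y.2
  · intro v hv hvr
    have h1 : v + (y : E) ∈ affineSpan ℝ D₀ := AffineSubspace.vadd_mem_of_mem_direction hv y.2
    have h2 : (⟨v + y, h1⟩ : affineSpan ℝ D₀) ∈ ball y r := by
      rw [mem_ball, Subtype.dist_eq, dist_eq_norm]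
      simp only [add_sub_cancel_right]
      linarith
    have := hball h2
    rw [add_comm]
    exact this

theorem seg_mem {D₀ : Set E} (hD : Convex ℝ D₀) {c : E} {r : ℝ} {V : Submodule ℝ E} (hr : 0 < r)
    (h1 : ∀ x ∈ closure D₀, x - c ∈ V) (h2 : ∀ v ∈ V, ‖v‖ ≤ r → c + v ∈ D₀)
    {x : E} (hx : x ∈ closure D₀) {t : ℝ} (ht0 : 0 < t) (ht1 : t ≤ 1) :
    c + (1 - t) • (x - c) ∈ D₀ := by
  obtain ⟨x', hx', hd⟩ := Metric.mem_closure_iff.1 hx (r * t) (by positivity)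
  rw [dist_eq_norm] at hd
  have hv : ((1 - t) / t) • (x - x') ∈ V := by
    refine V.smul_mem _ ?_
    have := V.sub_mem (h1 x hx) (h1 x' (subset_closure hx'))
    simpa using this
  have hn : ‖((1 - t) / t) • (x - x')‖ ≤ r := by
    rw [norm_smul, Real.norm_eq_abs, abs_of_nonneg (div_nonneg (sub_nonneg.2 ht1) ht0.le),
      div_mul_eq_mul_div, div_le_iff₀ ht0]
    nlinarith [norm_nonneg (x - x')]
  have := hD hx' (h2 _ hv hn) (sub_nonneg.2 ht1) ht0.le (sub_add_cancel 1 t)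
  convert this using 1
  rw [smul_add, smul_smul, mul_div_cancel₀ _ ht0.ne']
  module

theorem exists_normal [CompleteSpace E] {D₀ : Set E} (hD : Convex ℝ D₀) {c : E} {r : ℝ}
    {V : Submodule ℝ E} (hr : 0 < r)
    (h1 : ∀ x ∈ closure D₀, x - c ∈ V) (h2 : ∀ v ∈ V, ‖v‖ ≤ r → c + v ∈ D₀)
    {x : E} (hx : x ∈ closure D₀)
    (hb : ¬ ∃ x' ∈ closure D₀, ∃ t : ℝ, 0 < t ∧ t ≤ 1 ∧ x = c + (1 - t) • (x' - c))
    {ε : ℝ} (hε : 0 < ε) :
    ∃ n : E, ‖n‖ ≤ 1 / r ∧ (∀ y ∈ closure D₀, ⟪n, y - c⟫ ≤ 1) ∧ 1 - ε ≤ ⟪n, x - c⟫ := by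
  set xe := c + (1 + ε) • (x - c) with hxe
  have hnot : xe ∉ closure D₀ := by
    intro h
    refine hb ⟨xe, h, ε / (1 + ε), by positivity, ?_, ?_⟩
    · rw [div_le_one (by positivity)]
      linarith
    · have : (1 - ε / (1 + ε)) * (1 + ε) = 1 := by field_simp; ring
      rw [hxe, add_sub_cancel_left, smul_smul, this, one_smul, add_sub_cancel]
  obtain ⟨p, hp, hmin⟩ := exists_norm_eq_iInf_of_complete_convex ⟨x, hx⟩
    isClosed_closure.isComplete hD.closure xe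
  have hin := (norm_eq_iInf_iff_real_inner_le_zero hD.closure hp).1 hmin
  set n₀ := xe - p with hn₀
  have hn0 : n₀ ≠ 0 := fun h => hnot (by rw [sub_eq_zero.1 h]; exact hp)
  have hnpos : 0 < ‖n₀‖ := norm_pos_iff.2 hn0
  have hnV : n₀ ∈ V := by
    have := V.sub_mem (V.smul_mem (1 + ε) (h1 x hx)) (h1 p hp)
    convert this using 1
    rw [hn₀, hxe]
    abel
  set σ := ⟪n₀, p - c⟫ with hσ
  have hσ1 : ∀ y ∈ closure D₀, ⟪n₀, y - c⟫ ≤ σ := by
    intro y hy
    have h3 := hin y hy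
    have e : y - c = (y - p) + (p - c) := by abel
    rw [e, inner_add_right]
    linarith
  have hσ2 : r * ‖n₀‖ ≤ σ := by
    have h3 := hσ1 _ (subset_closure (h2 ((r / ‖n₀‖) • n₀) (V.smul_mem _ hnV) (by
      rw [norm_smul, Real.norm_eq_abs, abs_of_nonneg (by positivity),
        div_mul_cancel₀ _ hnpos.ne'])))
    rw [add_sub_cancel_left, inner_smul_right, real_inner_self_eq_norm_sq] at h3
    have e : r / ‖n₀‖ * ‖n₀‖ ^ 2 = r * ‖n₀‖ := by field_simp
    linarith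
  have hσpos : 0 < σ := lt_of_lt_of_le (by positivity) hσ2
  refine ⟨σ⁻¹ • n₀, ?_, ?_, ?_⟩
  · rw [norm_smul, Real.norm_eq_abs, abs_of_nonneg (by positivity), inv_mul_le_iff₀ hσpos,
      mul_one_div, le_div_iff₀ hr]
    linarith
  · intro y hy
    rw [inner_smul_left, RCLike.conj_to_real, inv_mul_le_iff₀ hσpos]
    linarith [hσ1 y hy]
  · rw [inner_smul_left, RCLike.conj_to_real, le_inv_mul_iff₀ hσpos]
    have h3 : (1 + ε) * ⟪n₀, x - c⟫ = σ + ‖n₀‖ ^ 2 := by
      rw [← inner_smul_right, ← real_inner_self_eq_norm_sq, hσ, ← inner_add_right]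
      congr 1
      rw [hn₀, hxe]
      abel
    have h4 : σ ≤ (1 + ε) * ⟪n₀, x - c⟫ := by nlinarith
    have h5 := hσ1 x hx
    nlinarith

theorem aff_eq (k : ℝ) (z n c y : E) :
    ⟪(2 : ℝ) • z + k • n, y⟫ + (-‖z‖ ^ 2 - k * (⟪n, c⟫ + 1)) =
      ‖y‖ ^ 2 - ‖y - z‖ ^ 2 - k * (1 - ⟪n, y - c⟫) := by
  rw [norm_sub_sq_real, inner_add_left, inner_smul_left, inner_smul_left, inner_sub_right,
    real_inner_comm z y]
  simp only [RCLike.conj_to_real]
  ring

/-- every nonempty nearly convex `F_σ` set is the domain of a subdifferential -/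
theorem exists_dom [FiniteDimensional ℝ E] {C : Set E} (hne : C.Nonempty) (hC : NearlyConvex C)
    (hF : IsFsigma C) : ∃ f : E → EReal, ProperLscConvex f ∧ dom (subdiff f) = C := by
  have : ProperSpace E := FiniteDimensional.proper_real E
  obtain ⟨D₀, hD, hDC, hCD⟩ := hC
  obtain ⟨F, hFc, hFC⟩ := hF
  have hD0 : D₀.Nonempty := closure_nonempty_iff.1 (hne.mono hCD)
  obtain ⟨c, r, V, hr, h1, h2⟩ := exists_core hD hD0
  let K : ℕ → Set E := fun k => (⋃ i ∈ Finset.range (k + 1), F i) ∩ closedBall 0 k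
  have hKc : ∀ k, IsClosed (K k) := fun k =>
    (isClosed_biUnion_finset fun i _ => hFc i).inter isClosed_closedBall
  have hKC : ∀ k, K k ⊆ C := by
    intro k z hz
    obtain ⟨i, -, hi⟩ := mem_iUnion₂.1 hz.1
    rw [hFC]
    exact mem_iUnion.2 ⟨i, hi⟩
  have hKn : ∀ k, ∀ z ∈ K k, ‖z‖ ≤ k := fun k z hz => by simpa using hz.2
  have hKm : ∀ k m, k ≤ m → K k ⊆ K m := by
    intro k m hkm z hz
    obtain ⟨i, hi, hi'⟩ := mem_iUnion₂.1 hz.1
    refine ⟨mem_iUnion₂.2 ⟨i, Finset.mem_range.2 ((Finset.mem_range.1 hi).trans_le (by omega)),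
      hi'⟩, closedBall_subset_closedBall (by exact_mod_cast hkm) hz.2⟩
  have hCK : ∀ z ∈ C, ∃ k, z ∈ K k := by
    intro z hz
    rw [hFC] at hz
    obtain ⟨i, hi⟩ := mem_iUnion.1 hz
    obtain ⟨m, hm⟩ := exists_nat_ge ‖z‖
    refine ⟨max i m, mem_iUnion₂.2 ⟨i, Finset.mem_range.2 (by omega), hi⟩, ?_⟩
    rw [mem_closedBall, dist_zero_right]
    exact hm.trans (by exact_mod_cast le_max_right i m)
  let J : Type := {q : ℕ × E × E // q.2.1 ∈ K q.1 ∧ ‖q.2.2‖ ≤ 1 / r ∧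
    ∀ y ∈ closure D₀, ⟪q.2.2, y - c⟫ ≤ 1}
  let g : J → E := fun j => (2 : ℝ) • j.1.2.1 + (j.1.1 : ℝ) • j.1.2.2
  let b : J → ℝ := fun j => -‖j.1.2.1‖ ^ 2 - (j.1.1 : ℝ) * (⟪j.1.2.2, c⟫ + 1)
  have hgb : ∀ j y, ⟪g j, y⟫ + b j =
      ‖y‖ ^ 2 - ‖y - j.1.2.1‖ ^ 2 - (j.1.1 : ℝ) * (1 - ⟪j.1.2.2, y - c⟫) :=
    fun j y => aff_eq _ _ _ _ _
  have hgn : ∀ j, ‖g j‖ ≤ j.1.1 * (2 + 1 / r) := by
    intro j
    refine (norm_add_le _ _).trans ?_
    rw [norm_smul, norm_smul, Real.norm_eq_abs, Real.norm_eq_abs, abs_of_nonneg (by norm_num),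
      abs_of_nonneg (Nat.cast_nonneg _)]
    have a1 := hKn _ _ j.2.1
    have a2 := mul_le_mul_of_nonneg_left j.2.2.1 (Nat.cast_nonneg (α := ℝ) j.1.1)
    linarith
  have hcD : c ∈ D₀ := by simpa using h2 0 V.zero_mem (by simpa using hr.le)
  have hJ : Nonempty J := by
    obtain ⟨k, hk⟩ := hCK c (hDC hcD)
    exact ⟨⟨(k, c, 0), hk, by simpa using hr.le, by simp⟩⟩
  -- upper bound along segments
  have hup : ∀ j : J, ∀ x ∈ closure D₀, ∀ t : ℝ, t ≤ 1 →
      ⟪g j, c + (1 - t) • (x - c)⟫ + b j ≤ ‖c + (1 - t) • (x - c)‖ ^ 2 -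
        ‖c + (1 - t) • (x - c) - j.1.2.1‖ ^ 2 - (j.1.1 : ℝ) * t := by
    intro j x hx t ht
    rw [hgb, add_sub_cancel_left, inner_smul_right]
    have a1 := mul_le_mul_of_nonneg_left (j.2.2.2 x hx) (sub_nonneg.2 ht)
    have a2 : t ≤ 1 - (1 - t) * ⟪j.1.2.2, x - c⟫ := by linarith
    have a3 := mul_le_mul_of_nonneg_left a2 (Nat.cast_nonneg (α := ℝ) j.1.1)
    linarith
  have hle : ∀ x ∈ closure D₀, supF (closure D₀) g b x ≤ ((‖x‖ ^ 2 : ℝ) : EReal) := by
    intro x hx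
    refine supF_le_iff.2 ⟨hx, fun j => ?_⟩
    have := hup j x hx 0 zero_le_one
    simp only [sub_zero, one_smul, add_sub_cancel, mul_zero] at this
    nlinarith [sq_nonneg ‖x - j.1.2.1‖]
  have hf : ProperLscConvex (supF (closure D₀) g b) :=
    supF_plc isClosed_closure hD.closure (hle c (subset_closure hcD))
  refine ⟨_, hf, Subset.antisymm ?_ ?_⟩
  · -- no subgradient outside `C`
    rintro x ⟨u, hu⟩
    by_contra hxC
    obtain ⟨φ, hφ⟩ := hf.real_of_subdiff hu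
    have hx : x ∈ closure D₀ := (supF_le_iff.1 hφ.le).1
    have hφ' := (supF_le_iff.1 hφ.le).2
    have hb : ¬ ∃ x' ∈ closure D₀, ∃ t : ℝ, 0 < t ∧ t ≤ 1 ∧ x = c + (1 - t) • (x' - c) := by
      rintro ⟨x', hx', t, ht0, ht1, rfl⟩
      exact hxC (hDC (seg_mem hD hr h1 h2 hx' ht0 ht1))
    have hval : ‖x‖ ^ 2 ≤ φ := by
      have key : ∀ s : ℝ, 0 < s → s ≤ 1 → ‖x‖ ^ 2 ≤ φ + s * ‖x - c‖ ^ 2 := by
        intro s hs0 hs1
        obtain ⟨k, hk⟩ := hCK _ (hDC (seg_mem hD hr h1 h2 hx hs0 hs1))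
        refine le_of_forall_pos_le_add fun ε hε => ?_
        obtain ⟨n, n1, n2, n3⟩ := exists_normal hD hr h1 h2 hx hb
          (ε := ε / (k + 1)) (by positivity)
        have a1 := hφ' ⟨(k, _, n), hk, n1, n2⟩
        rw [hgb] at a1
        simp only at a1
        have e : x - (c + (1 - s) • (x - c)) = s • (x - c) := by module
        rw [e, norm_smul, mul_pow, Real.norm_eq_abs, sq_abs] at a1
        have a2 : (k : ℝ) * (1 - ⟪n, x - c⟫) ≤ k * (ε / (k + 1)) :=
          mul_le_mul_of_nonneg_left (by linarith) (Nat.cast_nonneg k)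
        have a3 : (k : ℝ) * (ε / (k + 1)) ≤ ε := by
          rw [← mul_div_assoc, div_le_iff₀ (by positivity)]
          nlinarith
        have a4 : s ^ 2 * ‖x - c‖ ^ 2 ≤ s * ‖x - c‖ ^ 2 :=
          mul_le_mul_of_nonneg_right (by nlinarith) (sq_nonneg _)
        linarith
      refine le_of_forall_pos_le_add fun ε hε => ?_
      have hB : 0 ≤ ‖x - c‖ ^ 2 := sq_nonneg _
      have a1 := key (min 1 (ε / (‖x - c‖ ^ 2 + 1))) (by positivity) (min_le_left _ _)
      have a2 : min 1 (ε / (‖x - c‖ ^ 2 + 1)) * ‖x - c‖ ^ 2 ≤ ε := by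
        refine (mul_le_mul_of_nonneg_right (min_le_right _ _) hB).trans ?_
        rw [div_mul_eq_mul_div, div_le_iff₀ (by positivity)]
        nlinarith
      linarith
    obtain ⟨M, hM⟩ := exists_nat_gt (2 * ⟪x, c - x⟫ + ‖c - x‖ ^ 2 - ⟪u, c - x⟫)
    obtain ⟨d, hd, hdK⟩ : ∃ d > 0, ∀ z ∈ K M, d ≤ ‖x - z‖ := by
      obtain ⟨d, hd, hball⟩ := Metric.isOpen_iff.1 (hKc M).isOpen_compl x fun h => hxC (hKC M h)
      refine ⟨d, hd, fun z hz => ?_⟩
      by_contra hcon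
      refine hball (show z ∈ ball x d from ?_) hz
      rw [mem_ball, dist_comm, dist_eq_norm]
      exact not_le.1 hcon
    let t : ℝ := min 1 (min (d / 2 / (‖c - x‖ + 1)) (d ^ 2 / 4 / (M + 1)))
    have ht0 : 0 < t := by positivity
    have ht1 : t ≤ 1 := min_le_left _ _
    have ht2 : t * ‖c - x‖ ≤ d / 2 := by
      have : t ≤ d / 2 / (‖c - x‖ + 1) := (min_le_right _ _).trans (min_le_left _ _)
      rw [le_div_iff₀ (by positivity)] at this
      nlinarith
    have ht3 : M * t ≤ d ^ 2 / 4 := by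
      have : t ≤ d ^ 2 / 4 / (M + 1) := (min_le_right _ _).trans (min_le_right _ _)
      rw [le_div_iff₀ (by positivity)] at this
      nlinarith
    have ey : c + (1 - t) • (x - c) = x + t • (c - x) := by module
    have hy : supF (closure D₀) g b (x + t • (c - x)) ≤
        ((‖x + t • (c - x)‖ ^ 2 - M * t : ℝ) : EReal) := by
      refine supF_le_iff.2 ⟨?_, fun j => ?_⟩
      · rw [← ey]
        exact subset_closure (seg_mem hD hr h1 h2 hx ht0 ht1)
      · have a1 := hup j x hx t ht1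
        rw [ey] at a1
        rcases le_total M j.1.1 with hMk | hkM
        · have a2 : (M : ℝ) * t ≤ j.1.1 * t :=
            mul_le_mul_of_nonneg_right (by exact_mod_cast hMk) ht0.le
          nlinarith [sq_nonneg ‖x + t • (c - x) - j.1.2.1‖]
        · have a2 := hdK _ (hKm _ _ hkM j.2.1)
          have a3 : ‖x - j.1.2.1‖ ≤ ‖x + t • (c - x) - j.1.2.1‖ + ‖t • (c - x)‖ := by
            have e : x - j.1.2.1 = (x + t • (c - x) - j.1.2.1) - t • (c - x) := by abel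
            rw [e]
            refine (norm_sub_le _ _).trans (le_of_eq ?_)
            congr 2
          rw [norm_smul, Real.norm_eq_abs, abs_of_pos ht0] at a3
          have a4 : d / 2 ≤ ‖x + t • (c - x) - j.1.2.1‖ := by linarith
          have a5 : (d / 2) ^ 2 ≤ ‖x + t • (c - x) - j.1.2.1‖ ^ 2 :=
            pow_le_pow_left₀ (by positivity) a4 2
          have a6 : 0 ≤ (j.1.1 : ℝ) * t := by positivity
          nlinarith
    have a1 := (mem_subdiff_iff hf.ne_bot).1 hu _ _ hy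
    rw [hφ, EReal.coe_le_coe_iff, add_sub_cancel_left, norm_add_sq_real, inner_smul_right,
      inner_smul_right, norm_smul, mul_pow, Real.norm_eq_abs, sq_abs] at a1
    have a2 : t ^ 2 * ‖c - x‖ ^ 2 ≤ t * ‖c - x‖ ^ 2 :=
      mul_le_mul_of_nonneg_right (by nlinarith) (sq_nonneg _)
    have a3 := mul_lt_mul_of_pos_left hM ht0
    nlinarith
  · -- subgradients on `C`
    intro x hxC
    have hx : x ∈ closure D₀ := hCD hxC
    by_cases hb : ∃ x' ∈ closure D₀, ∃ t : ℝ, 0 < t ∧ t ≤ 1 ∧ x = c + (1 - t) • (x' - c)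
    · obtain ⟨x', hx', t, ht0, ht1, hxe⟩ := hb
      obtain ⟨φ, hφ⟩ := exists_real (hf.ne_bot x) (hle x hx)
      refine subdiff_of_bounded (φ := φ) (R := (‖x‖ ^ 2 - φ + 1) / t * (2 + 1 / r)) hφ.le ?_
      intro ε hε
      have hex : ∃ j, φ - min ε 1 < ⟪g j, x⟫ + b j := by
        by_contra hcon
        push Not at hcon
        have := supF_le_iff.2 ⟨hx, hcon⟩
        rw [hφ, EReal.coe_le_coe_iff] at this
        have : 0 < min ε 1 := by positivity
        linarith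
      obtain ⟨j, hj⟩ := hex
      refine ⟨j, (hgn j).trans (mul_le_mul_of_nonneg_right ?_ (by positivity)),
        by linarith [min_le_left ε 1]⟩
      have a1 := hup j x' hx' t ht1
      rw [← hxe] at a1
      rw [le_div_iff₀ ht0]
      nlinarith [min_le_right ε 1, sq_nonneg ‖x - j.1.2.1‖]
    · obtain ⟨k, hk⟩ := hCK x hxC
      refine subdiff_of_bounded (R := k * (2 + 1 / r)) (hle x hx) ?_
      intro ε hε
      obtain ⟨n, n1, n2, n3⟩ := exists_normal hD hr h1 h2 hx hb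
        (ε := ε / (k + 1)) (by positivity)
      refine ⟨⟨(k, x, n), hk, n1, n2⟩, hgn _, ?_⟩
      rw [hgb]
      simp only [sub_self, norm_zero]
      have a2 : (k : ℝ) * (1 - ⟪n, x - c⟫) ≤ k * (ε / (k + 1)) :=
        mul_le_mul_of_nonneg_left (by linarith) (Nat.cast_nonneg k)
      have a3 : (k : ℝ) * (ε / (k + 1)) ≤ ε := by
        rw [← mul_div_assoc, div_le_iff₀ (by positivity)]
        nlinarith
      nlinarith

theorem tfae [FiniteDimensional ℝ E] {C : Set E} (hne : C.Nonempty) (hC : NearlyConvex C) :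
    List.TFAE [∃ f : E → EReal, ProperLscConvex f ∧ dom (subdiff f) = C,
      ∃ f : E → EReal, ProperLscConvex f ∧ ran (subdiff f) = C,
      ∃ A : E → Set E, MaxMonotoneOp A ∧ dom A = C,
      ∃ A : E → Set E, MaxMonotoneOp A ∧ ran A = C,
      IsFsigma C] := by
  have : ProperSpace E := FiniteDimensional.proper_real E
  tfae_have 1 → 2 := by
    rintro ⟨f, hf, h⟩
    obtain ⟨x, hx⟩ := hne
    rw [← h] at hx
    obtain ⟨u, hu⟩ := hx
    obtain ⟨g, hg, hg'⟩ := hf.exists_conj hu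
    exact ⟨g, hg, hg'.trans h⟩
  tfae_have 2 → 4 := by
    rintro ⟨f, hf, h⟩
    obtain ⟨u, hu⟩ := hne
    rw [← h] at hu
    obtain ⟨x, hx⟩ := mem_iUnion.1 hu
    exact ⟨_, hf.maxMonotone hx, h⟩
  tfae_have 4 → 3 := by
    rintro ⟨A, hA, h⟩
    refine ⟨_, hA.inv, ?_⟩
    rw [← h]
    ext u
    simp [dom, ran, Set.Nonempty]
  tfae_have 3 → 5 := by
    rintro ⟨A, hA, rfl⟩
    exact fsigma_dom hA.isClosed_graph
  tfae_have 5 → 1 := exists_dom hne hC
  tfae_finish

/-- a convex set that is not `F_σ` -/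
theorem exists_not_fsigma {n : ℕ} (hn : 2 ≤ n) :
    ∃ C : Set (EuclideanSpace ℝ (Fin n)), C.Nonempty ∧ Convex ℝ C ∧ ¬ IsFsigma C := by
  obtain ⟨m, rfl⟩ : ∃ m, n = m + 2 := ⟨n - 2, by omega⟩
  let e₀ : EuclideanSpace ℝ (Fin (m + 2)) := EuclideanSpace.single 0 1
  let e₁ : EuclideanSpace ℝ (Fin (m + 2)) := EuclideanSpace.single 1 1
  let v : ℝ → EuclideanSpace ℝ (Fin (m + 2)) := fun s => e₀ + s • e₁
  have hv0 : ∀ s, v s 0 = 1 := fun s => by simp [v, e₀, e₁]
  have hv1 : ∀ s, v s 1 = s := fun s => by simp [v, e₀, e₁]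
  have hvne : ∀ s, ‖v s‖ ≠ 0 := fun s h => by
    have := hv0 s
    rw [norm_eq_zero.1 h] at this
    simp at this
  let γ : ℝ → EuclideanSpace ℝ (Fin (m + 2)) := fun s => ‖v s‖⁻¹ • v s
  have hγc : Continuous γ := by
    have hvc : Continuous v := by fun_prop
    exact (hvc.norm.inv₀ hvne).smul hvc
  have hγn : ∀ s, ‖γ s‖ = 1 := fun s => by
    simp only [γ]
    rw [norm_smul, norm_inv, norm_norm, inv_mul_cancel₀ (hvne s)]
  have hγi : Function.Injective γ := by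
    intro s t h
    have a0 : γ s 0 = γ t 0 := by rw [h]
    have a1 : γ s 1 = γ t 1 := by rw [h]
    simp only [γ, PiLp.smul_apply, smul_eq_mul, hv0, hv1, mul_one] at a0 a1
    rw [a0] at a1
    exact mul_left_cancel₀ (inv_ne_zero (hvne t)) a1
  refine ⟨ball 0 1 ∪ γ '' {s | Irrational s}, ⟨0, Or.inl (by simp)⟩, ?_, ?_⟩
  · have hsub : ball 0 1 ∪ γ '' {s | Irrational s} ⊆ closedBall 0 1 := by
      rintro x (hx | ⟨s, -, rfl⟩)
      · exact ball_subset_closedBall hx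
      · simp [hγn s]
    refine convex_iff_pairwise_pos.2 fun x hx y hy hxy a b ha hb hab => Or.inl ?_
    have := strictConvex_closedBall ℝ (0 : EuclideanSpace ℝ (Fin (m + 2))) 1
      (hsub hx) (hsub hy) hxy ha hb hab
    rwa [interior_closedBall _ one_ne_zero] at this
  · rintro ⟨F, hF, hFC⟩
    have hpre : ∀ k, γ ⁻¹' F k ⊆ {s | Irrational s} := by
      intro k s hs
      have : γ s ∈ ball 0 1 ∪ γ '' {s | Irrational s} := by
        rw [hFC]
        exact mem_iUnion.2 ⟨k, hs⟩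
      rcases this with h | ⟨t, ht, h⟩
      · simp [hγn s] at h
      · rwa [← hγi h]
    let G : ℕ ⊕ ℚ → Set ℝ :=
      Sum.elim (fun k => γ ⁻¹' F k) (fun q : ℚ => ({(q : ℝ)} : Set ℝ))
    have hGc : ∀ i, IsClosed (G i) := by
      rintro (k | q)
      · exact (hF k).preimage hγc
      · exact isClosed_singleton
    have hGu : ⋃ i, G i = univ := by
      refine eq_univ_of_forall fun s => ?_
      by_cases hs : Irrational s
      · have : γ s ∈ ⋃ k, F k := by
          rw [← hFC]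
          exact Or.inr ⟨s, hs, rfl⟩
        obtain ⟨k, hk⟩ := mem_iUnion.1 this
        exact mem_iUnion.2 ⟨Sum.inl k, hk⟩
      · unfold Irrational at hs
        push Not at hs
        obtain ⟨q, rfl⟩ := hs
        exact mem_iUnion.2 ⟨Sum.inr q, rfl⟩
    obtain ⟨i, hi⟩ := nonempty_interior_of_iUnion_of_closed hGc hGu
    rcases i with k | q
    · obtain ⟨q, hq⟩ := Rat.denseRange_cast.exists_mem_open isOpen_interior hi
      exact (hpre k (interior_subset hq)) ⟨q, rfl⟩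
    · rw [show G (Sum.inr q) = {(q : ℝ)} from rfl, interior_singleton] at hi
      exact not_nonempty_empty hi

theorem exists_convex_not_dom {n : ℕ} (hn : 2 ≤ n) :
    ∃ C : Set (EuclideanSpace ℝ (Fin n)), C.Nonempty ∧ Convex ℝ C ∧
      (∀ f : EuclideanSpace ℝ (Fin n) → EReal, ProperLscConvex f →
        dom (subdiff f) ≠ C ∧ ran (subdiff f) ≠ C) ∧
      (∀ A : EuclideanSpace ℝ (Fin n) → Set (EuclideanSpace ℝ (Fin n)), MaxMonotoneOp A →
        dom A ≠ C ∧ ran A ≠ C) := by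
  obtain ⟨C, hne, hC, hF⟩ := exists_not_fsigma hn
  have h := tfae hne (C := C) ⟨C, hC, subset_rfl, subset_closure⟩
  refine ⟨C, hne, hC, fun f hf => ⟨fun e => hF ?_, fun e => hF ?_⟩,
    fun A hA => ⟨fun e => hF ?_, fun e => hF ?_⟩⟩
  · exact (h.out 0 4).1 (Exists.intro f (And.intro hf e))
  · exact (h.out 1 4).1 (Exists.intro f (And.intro hf e))
  · exact (h.out 2 4).1 (Exists.intro A (And.intro hA e))
  · exact (h.out 3 4).1 (Exists.intro A (And.intro hA e))

theorem exists_nearlyConvex_not_dom {n : ℕ} (hn : 2 ≤ n) :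
    ∃ C : Set (EuclideanSpace ℝ (Fin n)), C.Nonempty ∧ NearlyConvex C ∧
      (∀ f : EuclideanSpace ℝ (Fin n) → EReal, ProperLscConvex f →
        dom (subdiff f) ≠ C ∧ ran (subdiff f) ≠ C) ∧
      (∀ A : EuclideanSpace ℝ (Fin n) → Set (EuclideanSpace ℝ (Fin n)), MaxMonotoneOp A →
        dom A ≠ C ∧ ran A ≠ C) := by
  obtain ⟨C, hne, hC, h⟩ := exists_convex_not_dom hn
  exact ⟨C, hne, ⟨C, hC, subset_rfl, subset_closure⟩, h⟩

end Pool.Agent.H129Z.Sub
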