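import Mathlib

/-!
In a separable completely metrizable complex topological vector space, given countably many
`F_σ` subspaces of infinite codimension, there is a dense Baire subspace meeting each of them
only in `0`.
-/

set_option autoImplicit false

namespace Pool.Agent.H129Z.Val

open Set Filter Topology Cardinal
open scoped Uniformity

/-- the Cantor space -/
abbrev T := ℕ → Bool

/-- restriction to the first `L` coordinates -/
def res (L : ℕ) : C(T, Fin L → Bool) := ⟨fun t i => t i, by fun_prop⟩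

/-- extension by `false` -/
def ex (L : ℕ) (s : Fin L → Bool) : T := fun n => if h : n < L then s ⟨n, h⟩ else false

section
variable {X : Type} [TopologicalSpace X]

/-- the locally constant map given by a table -/
def tab (L : ℕ) (φ : (Fin L → Bool) → X) : C(T, X) :=
  (⟨φ, continuous_of_discreteTopology⟩ : C(Fin L → Bool, X)).comp (res L)

theorem tab_apply (L : ℕ) (φ : (Fin L → Bool) → X) (t : T) : tab L φ t = φ (res L t) := rfl

theorem continuous_tab (L : ℕ) : Continuous (tab (X := X) L) := by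
  refine ContinuousMap.continuous_of_continuous_uncurry _ ?_
  have h1 : Continuous fun p : ((Fin L → Bool) → X) × (Fin L → Bool) => p.1 p.2 :=
    continuous_prod_of_discrete_right.2 fun s => continuous_apply s
  exact h1.comp (continuous_fst.prodMk ((res L).continuous.comp continuous_snd))

theorem tendsto_tab (g : C(T, X)) : Tendsto (fun L => tab L (fun s => g (ex L s))) atTop (𝓝 g) := by
  have h1 : Tendsto (fun L => tab L (ex L)) atTop (𝓝 (ContinuousMap.id T)) := by
    refine ContinuousMap.tendsto_of_tendstoLocallyUniformly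
      (TendstoUniformly.tendstoLocallyUniformly ?_)
    intro U hU
    have key : Tendsto (fun p : ℕ × T => (p.2, tab p.1 (ex p.1) p.2)) (atTop ×ˢ ⊤) (𝓤 T) := by
      rw [Pi.uniformity, tendsto_iInf]
      intro n
      rw [tendsto_comap_iff]
      refine Tendsto.mono_right ?_ refl_le_uniformity
      rw [tendsto_principal]
      filter_upwards [prod_mem_prod (eventually_gt_atTop n) univ_mem] with p hp
      have : n < p.1 := hp.1
      simp [tab_apply, ex, res, this]
    have := key hU
    rw [mem_map, mem_prod_top] at this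
    filter_upwards [this] with L hL x
    exact hL x
  have h2 := ((ContinuousMap.continuous_postcomp (X := T) g).tendsto _).comp h1
  rw [ContinuousMap.comp_id] at h2
  exact h2

theorem exists_tab {V : Set C(T, X)} (hV : IsOpen V) (hne : V.Nonempty) :
    ∃ L φ, tab L φ ∈ V := by
  obtain ⟨g, hg⟩ := hne
  obtain ⟨L, hL⟩ := ((tendsto_tab g).eventually (hV.mem_nhds hg)).exists
  exact ⟨L, _, hL⟩

end

variable {X : Type} [AddCommGroup X] [Module ℂ X]

theorem exists_indep {Y : Submodule ℂ X} (hY : ¬ Module.Finite ℂ (X ⧸ Y)) {R : Set X}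
    (hR : R.Finite) (S : Type) [Fintype S] :
    ∃ v : S → X, LinearIndependent ℂ (fun s => (Y ⊔ Submodule.span ℂ R).mkQ (v s)) := by
  set F := Y ⊔ Submodule.span ℂ R with hF
  have hinf : ¬ Module.Finite ℂ (X ⧸ F) := by
    intro hfin
    apply hY
    obtain ⟨s, hs⟩ := hfin.fg_top
    choose l hl using F.mkQ_surjective
    refine ⟨Submodule.fg_def.2 ⟨Y.mkQ '' (R ∪ l '' s), ((hR.union (s.finite_toSet.image l))).image _,
      ?_⟩⟩
    rw [← Submodule.map_span, Submodule.map_mkQ_eq_top, Submodule.span_union, ← sup_assoc, ← hF,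
      ← Submodule.map_mkQ_eq_top, Submodule.map_span, image_image]
    simp only [hl, image_id']
    exact hs
  have hrank : ((Fintype.card S : ℕ) : Cardinal) ≤ Module.rank ℂ (X ⧸ F) := by
    rw [← Module.rank_lt_aleph0_iff, not_lt] at hinf
    exact (natCast_lt_aleph0).le.trans hinf
  obtain ⟨f, hf⟩ := exists_linearIndependent_of_le_rank hrank
  choose l hl using F.mkQ_surjective
  refine ⟨fun s => l (f (Fintype.equivFin S s)), ?_⟩
  simp only [hl]
  exact hf.comp _ (Fintype.equivFin S).injective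

variable [UniformSpace X] [CompleteSpace X] [IsCountablyGenerated (𝓤 X)] [ContinuousAdd X]
  [ContinuousSMul ℂ X]

/-- the bad set -/
def Bad (k L : ℕ) (Z : Set X) : Set C(T, X) :=
  {g | ∃ t : Fin k → T, Function.Injective (fun i => res L (t i)) ∧
    ∃ c : Fin k → ℂ, ‖c‖ = 1 ∧ ∑ i, c i • g (t i) ∈ Z}

omit [CompleteSpace X] [IsCountablyGenerated (𝓤 X)] in
theorem isClosed_bad (k L : ℕ) {Z : Set X} (hZ : IsClosed Z) : IsClosed (Bad k L Z) := by
  let S : Set (C(T, X) × ((Fin k → T) × Metric.sphere (0 : Fin k → ℂ) 1)) :=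
    {p | Function.Injective (fun i => res L (p.2.1 i)) ∧ ∑ i, p.2.2.1 i • p.1 (p.2.1 i) ∈ Z}
  have hS : IsClosed S := by
    refine IsClosed.inter ?_ ?_
    · have h1 : Continuous fun p : C(T, X) × ((Fin k → T) × Metric.sphere (0 : Fin k → ℂ) 1) =>
          fun i => res L (p.2.1 i) := by fun_prop
      exact (isClosed_discrete {u : Fin k → Fin L → Bool | Function.Injective u}).preimage h1
    · have h1 : Continuous fun p : C(T, X) × ((Fin k → T) × Metric.sphere (0 : Fin k → ℂ) 1) =>
          ∑ i, p.2.2.1 i • p.1 (p.2.1 i) := by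
        refine continuous_finsetSum _ fun i _ => Continuous.smul ((continuous_apply i).comp
          (continuous_subtype_val.comp (continuous_snd.comp continuous_snd))) ?_
        exact continuous_eval.comp (continuous_fst.prodMk (by fun_prop))
      exact hZ.preimage h1
  have := isClosedMap_fst_of_compactSpace S hS
  convert this using 1
  ext g
  constructor
  · rintro ⟨t, ht, c, hc, h⟩
    exact ⟨(g, t, ⟨c, by simpa using hc⟩), ⟨ht, h⟩, rfl⟩
  · rintro ⟨⟨g', t, c⟩, ⟨ht, h⟩, rfl⟩
    exact ⟨t, ht, c.1, by simpa using c.2, h⟩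

omit [CompleteSpace X] [IsCountablyGenerated (𝓤 X)] in
theorem dense_compl_bad (k L : ℕ) {Y : Submodule ℂ X} (hY : ¬ Module.Finite ℂ (X ⧸ Y))
    {Z : Set X} (hZ : Z ⊆ Y) : Dense (Bad k L Z)ᶜ := by
  rw [dense_iff_inter_open]
  intro V hV hne
  obtain ⟨L', φ, hφ⟩ := exists_tab hV hne
  obtain ⟨v, hv⟩ := exists_indep hY (finite_range φ) (Fin L → Bool)
  have hc : Continuous fun ε : ℂ => tab L' φ + ε • tab L v := by fun_prop
  have h1 : ∀ᶠ ε in 𝓝[≠] (0 : ℂ), tab L' φ + ε • tab L v ∈ V := by
    refine mem_nhdsWithin_of_mem_nhds (hc.continuousAt.preimage_mem_nhds (hV.mem_nhds ?_))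
    simpa using hφ
  obtain ⟨ε, hε, hε0⟩ := (h1.and self_mem_nhdsWithin).exists
  refine ⟨_, hε, ?_⟩
  rintro ⟨t, ht, c, hc1, hmem⟩
  set F := Y ⊔ Submodule.span ℂ (range φ) with hF
  have hli := Fintype.linearIndependent_iff.1 (hv.comp _ ht) (fun i => c i * ε) (by
    have e1 : ∑ i, (c i * ε) • v (res L (t i)) =
        ∑ i, c i • (tab L' φ + ε • tab L v) (t i) - ∑ i, c i • φ (res L' (t i)) := by
      rw [← Finset.sum_sub_distrib]
      refine Finset.sum_congr rfl fun i _ => ?_
      simp only [ContinuousMap.add_apply, ContinuousMap.smul_apply, tab_apply, smul_add, mul_smul]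
      abel
    have e2 : ∑ i, (c i * ε) • v (res L (t i)) ∈ F := by
      rw [e1]
      refine F.sub_mem (Submodule.mem_sup_left (hZ hmem)) (Submodule.mem_sup_right ?_)
      exact Submodule.sum_mem _ fun i _ =>
        Submodule.smul_mem _ _ (Submodule.subset_span (mem_range_self _))
    have e3 := (Submodule.Quotient.mk_eq_zero F).2 e2
    rw [← Submodule.mkQ_apply, map_sum] at e3
    simpa using e3)
  have : c = 0 := funext fun i => (mul_eq_zero.1 (hli i)).resolve_right hε0
  rw [this] at hc1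
  simp at hc1

theorem exists_cantor {J : Type} [Countable J] (Y : J → Submodule ℂ X) (Z : J → ℕ → Set X)
    (hZc : ∀ j m, IsClosed (Z j m)) (hZ : ∀ j, (Y j : Set X) = ⋃ m, Z j m)
    (hY : ∀ j, ¬ Module.Finite ℂ (X ⧸ Y j)) {O : Set X} (hO : IsOpen O) (hOne : O.Nonempty)
    (W : ℕ → Set X) (hW : ∀ n, IsOpen (W n)) (hWd : ∀ n, Dense (W n)) :
    ∃ g : T → X, (∀ t, g t ∈ O ∧ ∀ n, g t ∈ W n) ∧
      ∀ j, LinearIndependent ℂ (fun t => (Y j).mkQ (g t)) := by
  let D : ℕ ⊕ (ℕ × ℕ × J × ℕ) → Set C(T, X) :=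
    Sum.elim (fun n => {g | range g ⊆ W n}) (fun q => (Bad q.1 q.2.1 (Z q.2.2.1 q.2.2.2))ᶜ)
  have hDo : ∀ i, IsOpen (D i) := by
    rintro (n | q)
    · exact ContinuousMap.isOpen_setOfPred_range_subset (hW n)
    · exact (isClosed_bad _ _ (hZc _ _)).isOpen_compl
  have hDd : ∀ i, Dense (D i) := by
    rintro (n | q)
    · rw [dense_iff_inter_open]
      intro V hV hne
      obtain ⟨L, φ, hφ⟩ := exists_tab hV hne
      have hd : Dense (Set.pi univ fun _ : Fin L → Bool => W n) := dense_pi _ fun _ _ => hWd n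
      obtain ⟨ψ, h1, h2⟩ := hd.inter_open_nonempty _ (hV.preimage (continuous_tab L)) ⟨φ, hφ⟩
      refine ⟨_, h1, ?_⟩
      rintro _ ⟨t, rfl⟩
      exact h2 _ trivial
    · refine dense_compl_bad _ _ (hY q.2.2.1) ?_
      rw [hZ]
      exact subset_iUnion _ _
  have hdense := dense_iInter_of_isOpen hDo hDd
  obtain ⟨x, hx⟩ := hOne
  obtain ⟨g, hg1, hg2⟩ := hdense.inter_open_nonempty _
    (ContinuousMap.isOpen_setOfPred_range_subset (X := T) hO)
    ⟨ContinuousMap.const T x, by rintro _ ⟨t, rfl⟩; exact hx⟩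
  rw [mem_iInter] at hg2
  refine ⟨g, fun t => ⟨hg1 (mem_range_self t), fun n => hg2 (Sum.inl n) (mem_range_self t)⟩,
    fun j => ?_⟩
  rw [linearIndependent_iff_finset_linearIndependent]
  intro s
  rw [← linearIndependent_equiv s.equivFin.symm, Fintype.linearIndependent_iff]
  intro c hc
  by_contra hne
  have hc0 : c ≠ 0 := fun h => hne fun i => by rw [h]; rfl
  let t : Fin s.card → T := fun i => (s.equivFin.symm i : T)
  have ht : Function.Injective t := Subtype.val_injective.comp s.equivFin.symm.injective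
  have hL : ∃ L, Function.Injective fun i => res L (t i) := by
    have : ∀ᶠ L in atTop, ∀ i i', i ≠ i' → res L (t i) ≠ res L (t i') := by
      simp only [eventually_all]
      intro i i' hii
      obtain ⟨n, hn⟩ := Function.ne_iff.1 (ht.ne hii)
      filter_upwards [eventually_gt_atTop n] with L hL h
      exact hn (congrFun h ⟨n, hL⟩)
    obtain ⟨L, hL⟩ := this.exists
    exact ⟨L, fun i i' h => by_contra fun hii => hL i i' hii h⟩
  obtain ⟨L, hL⟩ := hL
  have hmem : ∑ i, c i • g (t i) ∈ Y j := by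
    rw [← Submodule.Quotient.mk_eq_zero, ← Submodule.mkQ_apply, map_sum]
    simpa using hc
  have hn : ‖c‖ ≠ 0 := norm_ne_zero_iff.2 hc0
  have hmem2 : ∑ i, (((‖c‖⁻¹ : ℝ) : ℂ) • c) i • g (t i) ∈ (Y j : Set X) := by
    have := (Y j).smul_mem ((‖c‖⁻¹ : ℝ) : ℂ) hmem
    rw [Finset.smul_sum] at this
    simpa [mul_smul] using this
  rw [hZ] at hmem2
  obtain ⟨m, hm⟩ := mem_iUnion.1 hmem2
  refine hg2 (Sum.inr (s.card, L, j, m)) ⟨t, hL, _, ?_, hm⟩
  rw [norm_smul]
  simp [hn]

omit [UniformSpace X] [CompleteSpace X] [(𝓤 X).IsCountablyGenerated] [ContinuousAdd X]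
  [ContinuousSMul ℂ X] in
theorem exists_avoid {J : Type} [Countable J] (Y : J → Submodule ℂ X) (g : T → X)
    (hg : ∀ j, LinearIndependent ℂ (fun t => (Y j).mkQ (g t))) {A : Set X} (hA : #A < 𝔠) :
    ∃ t, ∀ j, g t ∉ Submodule.span ℂ A ⊔ Y j := by
  by_contra hcon
  push Not at hcon
  have h1 : ∀ j, #{t | g t ∈ Submodule.span ℂ A ⊔ Y j} ≤ #A := by
    intro j
    have hmem : ∀ t : {t | g t ∈ Submodule.span ℂ A ⊔ Y j},
        (Y j).mkQ (g t) ∈ Submodule.span ℂ ((Y j).mkQ '' A) := by
      rintro ⟨t, ht⟩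
      obtain ⟨a, ha, y, hy, e⟩ := Submodule.mem_sup.1 ht
      simp only
      rw [← e, map_add, Submodule.mkQ_apply _ y, (Submodule.Quotient.mk_eq_zero _).2 hy, add_zero,
        ← Submodule.map_span]
      exact Submodule.mem_map_of_mem ha
    have hli : LinearIndependent ℂ (fun t : {t | g t ∈ Submodule.span ℂ A ⊔ Y j} =>
        (⟨_, hmem t⟩ : Submodule.span ℂ ((Y j).mkQ '' A))) :=
      LinearIndependent.of_comp (Submodule.subtype _) ((hg j).comp _ Subtype.val_injective)
    exact hli.cardinal_le_rank.trans ((rank_span_le _).trans mk_image_le)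
  have h2 : (univ : Set T) = ⋃ j, {t | g t ∈ Submodule.span ℂ A ⊔ Y j} :=
    (eq_univ_of_forall fun t => mem_iUnion.2 (hcon t)).symm
  have h3 : #(univ : Set T) ≤ ℵ₀ * #A := by
    rw [h2]
    refine (mk_iUnion_le _).trans (mul_le_mul' mk_le_aleph0 (ciSup_le' h1))
  have h4 : #(univ : Set T) = 𝔠 := by simp
  exact absurd (h4 ▸ h3) (not_le.2 (mul_lt_of_lt aleph0_le_continuum aleph0_lt_continuum hA))

theorem exists_baire [SecondCountableTopology X] {J : Type} [Countable J]
    (Y : J → Submodule ℂ X) (Z : J → ℕ → Set X)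
    (hZc : ∀ j m, IsClosed (Z j m)) (hZ : ∀ j, (Y j : Set X) = ⋃ m, Z j m)
    (hY : ∀ j, ¬ Module.Finite ℂ (X ⧸ Y j)) :
    ∃ E : Submodule ℂ X, Dense (E : Set X) ∧ BaireSpace E ∧ ∀ j, ∀ x ∈ E, x ∈ Y j → x = 0 := by
  classical
  let P := {p : ℕ → Set X // (∀ n, IsOpen (p n)) ∧ (p 0).Nonempty ∧ ∀ n, Dense (p (n + 1))}
  have hP : #P ≤ 𝔠 := by
    let B := TopologicalSpace.countableBasis X
    have hB : Countable B := (TopologicalSpace.countable_countableBasis X).to_subtype
    let Φ : P → ℕ → Set B := fun p n => {b | b.1 ⊆ p.1 n}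
    have hΦ : Function.Injective Φ := by
      intro p q h
      refine Subtype.ext (funext fun n => ?_)
      have hb := TopologicalSpace.isBasis_countableBasis X
      rw [hb.open_eq_sUnion' (p.2.1 n), hb.open_eq_sUnion' (q.2.1 n)]
      congr 1
      ext b
      constructor
      · rintro ⟨h1, h2⟩
        exact ⟨h1, (Set.ext_iff.1 (congrFun h n) ⟨b, h1⟩).1 h2⟩
      · rintro ⟨h1, h2⟩
        exact ⟨h1, (Set.ext_iff.1 (congrFun h n) ⟨b, h1⟩).2 h2⟩
    refine (mk_le_of_injective hΦ).trans ?_
    have h1 : #(Set B) ≤ 𝔠 := by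
      rw [mk_set, ← two_power_aleph0]
      exact power_le_power_left two_ne_zero mk_le_aleph0
    rw [← power_def, mk_nat, ← continuum_power_aleph0]
    exact power_le_power_right h1
  have hPne : Nonempty P := ⟨⟨fun _ => univ, fun _ => isOpen_univ, univ_nonempty, fun _ => dense_univ⟩⟩
  let ι := (continuum.{0}).ord.ToType
  have hι : #ι = 𝔠 := mk_ord_toType _
  obtain ⟨e⟩ : Nonempty (P ↪ ι) := by rw [← Cardinal.le_def, hι]; exact hP
  let π : ι → P := Function.invFun e
  have hπ : Function.Surjective π := Function.invFun_surjective e.injective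
  have hsm : ∀ a : ι, #(Iio a) < 𝔠 := fun a => mk_Iio_toType_ord_lt a
  let F : ∀ a : ι, (∀ b, b < a → X) → X := fun a prev =>
    Classical.epsilon (fun x => (∀ n, x ∈ (π a).1 n) ∧
      ∀ j, x ∉ Submodule.span ℂ (range fun b : Iio a => prev b b.2) ⊔ Y j)
  let u : ι → X := (wellFounded_lt (α := ι)).fix F
  have hu : ∀ a, u a = F a (fun b _ => u b) := fun a => (wellFounded_lt (α := ι)).fix_eq F a
  have key : ∀ a, (∀ n, u a ∈ (π a).1 n) ∧
      ∀ j, u a ∉ Submodule.span ℂ (range fun b : Iio a => u b) ⊔ Y j := by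
    intro a
    rw [hu a]
    refine Classical.epsilon_spec (p := fun x => (∀ n, x ∈ (π a).1 n) ∧
      ∀ j, x ∉ Submodule.span ℂ (range fun b : Iio a => u b) ⊔ Y j) ?_
    obtain ⟨g, hg1, hg2⟩ := exists_cantor Y Z hZc hZ hY ((π a).2.1 0) (π a).2.2.1
      (fun n => (π a).1 (n + 1)) (fun n => (π a).2.1 _) (π a).2.2.2
    obtain ⟨t, ht⟩ := exists_avoid Y g hg2 (A := range fun b : Iio a => u b)
      (mk_range_le.trans_lt (hsm a))
    refine ⟨g t, fun n => ?_, ht⟩
    cases n with
    | zero => exact (hg1 t).1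
    | succ n => exact (hg1 t).2 n
  let E := Submodule.span ℂ (range u)
  have hmeet : ∀ p : P, ∃ x ∈ E, ∀ n, x ∈ p.1 n := by
    intro p
    obtain ⟨a, rfl⟩ := hπ p
    exact ⟨u a, Submodule.subset_span (mem_range_self a), (key a).1⟩
  have hdense : Dense (E : Set X) := by
    rw [dense_iff_inter_open]
    intro O hO hne
    obtain ⟨x, hx, h⟩ := hmeet ⟨fun n => Nat.casesOn n O fun _ => univ,
      fun n => by cases n; exacts [hO, isOpen_univ], hne, fun _ => dense_univ⟩
    exact ⟨x, h 0, hx⟩
  refine ⟨E, hdense, ⟨fun V hVo hVd => ?_⟩, fun j x hx hxY => ?_⟩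
  · rw [dense_iff_inter_open]
    intro O hO hne
    obtain ⟨O', hO', rfl⟩ := isOpen_induced_iff.1 hO
    choose W hW hWV using fun n => isOpen_induced_iff.1 (hVo n)
    have hWd : ∀ n, Dense (W n) := by
      intro n
      have h1 : Dense ((Subtype.val : E → X) '' V n) :=
        hdense.denseRange_val.dense_image continuous_subtype_val (hVd n)
      refine h1.mono ?_
      rw [← hWV n]
      exact image_preimage_subset _ _
    obtain ⟨y, hy⟩ := hne
    obtain ⟨x, hx, h⟩ := hmeet ⟨fun n => Nat.casesOn n O' W,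
      fun n => by cases n; exacts [hO', hW _], ⟨y, hy⟩, hWd⟩
    refine ⟨⟨x, hx⟩, h 0, mem_iInter.2 fun n => ?_⟩
    rw [← hWV n]
    exact h (n + 1)
  · have hli : LinearIndependent ℂ (fun a => (Y j).mkQ (u a)) := by
      rw [linearIndependent_iff_finset_linearIndependent]
      intro s
      induction s using Finset.induction_on_max with
      | empty => exact linearIndependent_empty_type
      | insert a s hs ih =>
        have ha : a ∉ s := fun h => lt_irrefl _ (hs a h)
        have ih' : LinearIndepOn ℂ (fun a => (Y j).mkQ (u a)) (s : Set ι) := ih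
        have : LinearIndepOn ℂ (fun a => (Y j).mkQ (u a)) (insert a (s : Set ι)) := by
          refine ih'.insert fun hmem => (key a).2 j ?_
          have e1 : (fun a => (Y j).mkQ (u a)) '' (s : Set ι) = (Y j).mkQ '' (u '' s) := by
            rw [image_image]
          rw [e1, ← Submodule.map_span] at hmem
          obtain ⟨z, hz, hz'⟩ := hmem
          have e2 : u a = z + (u a - z) := by abel
          rw [e2]
          refine Submodule.add_mem_sup (Submodule.span_mono ?_ hz) ?_
          · rintro _ ⟨b, hb, rfl⟩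
            exact ⟨⟨b, hs b hb⟩, rfl⟩
          · exact (Submodule.Quotient.eq _).1 hz'.symm
        rw [← Finset.coe_insert] at this
        exact this
    obtain ⟨c, rfl⟩ := Finsupp.mem_span_range_iff_exists_finsupp.1 hx
    have h0 : Finsupp.linearCombination ℂ (fun a => (Y j).mkQ (u a)) c = 0 := by
      have := (Submodule.Quotient.mk_eq_zero _).2 hxY
      rw [← Submodule.mkQ_apply, map_finsuppSum] at this
      simpa [Finsupp.linearCombination_apply] using this
    rw [linearIndependent_iff.1 hli c h0]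
    simp

end Pool.Agent.H129Z.Val
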