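import Mathlib

set_option autoImplicit false

namespace Pool.Agent.H129Z.Val

/-- `A^∞(G)`: functions holomorphic on `G` all of whose derivatives extend continuously to the
closure of `G`.  A function on `G` is represented by its extension by `0` to the whole plane. -/
def AInf (G : Set ℂ) : Set (ℂ → ℂ) :=
  {f | DifferentiableOn ℂ f G ∧ (∀ z, z ∉ G → f z = 0) ∧
    ∀ j : ℕ, ∃ F : ℂ → ℂ, ContinuousOn F (closure G) ∧ Set.EqOn F (iteratedDeriv j f) G}

/-- the sets `K ∩ G` with `K` a compact subset of the closure of `G` -/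
def testSets (G : Set ℂ) : Set (Set ℂ) :=
  {S | ∃ K : Set ℂ, IsCompact K ∧ K ⊆ closure G ∧ S = K ∩ G}

/-- The topology of `A^∞(G)`: uniform convergence of every derivative on every set `K ∩ G`,
`K` a compact subset of the closure of `G`. -/
@[reducible] noncomputable def topA (G : Set ℂ) : TopologicalSpace (ℂ → ℂ) :=
  ⨅ j : ℕ, TopologicalSpace.induced
    (fun f : ℂ → ℂ => UniformOnFun.ofFun (testSets G) (iteratedDeriv j f))
    (UniformOnFun.topologicalSpace ℂ ℂ (testSets G))

/-- `f` has no holomorphic extension to a domain strictly containing `G` -/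
def NonExt (G : Set ℂ) (f : ℂ → ℂ) : Prop :=
  ¬ ∃ (Ω : Set ℂ) (F : ℂ → ℂ), IsOpen Ω ∧ IsConnected Ω ∧ G ⊂ Ω ∧ DifferentiableOn ℂ F Ω ∧
    Set.EqOn F f G

end Pool.Agent.H129Z.Val
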