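import Mathlib
import Pool.Agent.H129Z.ValDefs
import Pool.Agent.H129Z.ValAbs

/-!
A dense Baire subspace of `A^∞(G)` consisting of non-extendable functions.
-/

set_option autoImplicit false

namespace Pool.Agent.H129Z.Val

open Set Filter Topology Metric
open scoped Uniformity

theorem bdd_vanish {ι : Type} (ρ : ι → ℂ) (s : Finset ι) (hinj : InjOn ρ s)
    (h1 : ∀ i ∈ s, 1 < ‖ρ i‖) :
    ∀ (d : ι → ℂ) (M : ℝ), (∀ n : ℕ, ‖∑ i ∈ s, d i * ρ i ^ n‖ ≤ M) → ∀ i ∈ s, d i = 0 := by
  classical
  induction s using Finset.induction_on with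
  | empty => intro d M _ i hi; simp at hi
  | insert a s ha ih =>
    intro d M hM
    have hs : ∀ i ∈ s, d i = 0 := by
      have := ih (hinj.mono (by simp)) (fun i hi => h1 i (by simp [hi]))
        (fun i => d i * (ρ i - ρ a)) (M + ‖ρ a‖ * M) (fun n => by
          have e : ∑ i ∈ s, d i * (ρ i - ρ a) * ρ i ^ n =
              ∑ i ∈ insert a s, d i * ρ i ^ (n + 1) - ρ a * ∑ i ∈ insert a s, d i * ρ i ^ n := by
            rw [Finset.mul_sum, ← Finset.sum_sub_distrib, Finset.sum_insert ha]
            have : d a * ρ a ^ (n + 1) - ρ a * (d a * ρ a ^ n) = 0 := by ring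
            rw [this, zero_add]
            exact Finset.sum_congr rfl fun i _ => by ring
          rw [e]
          refine (norm_sub_le _ _).trans (add_le_add (hM _) ?_)
          rw [norm_mul]
          exact mul_le_mul_of_nonneg_left (hM _) (norm_nonneg _))
      intro i hi
      refine (mul_eq_zero.1 (this i hi)).resolve_right (sub_ne_zero.2 fun h => ha ?_)
      have := hinj (by simp [hi]) (by simp) h
      exact this ▸ hi
    have hda : d a = 0 := by
      by_contra hne
      have hpos : 0 < ‖d a‖ := norm_pos_iff.2 hne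
      have ht := (tendsto_pow_atTop_atTop_of_one_lt (h1 a (by simp))).const_mul_atTop hpos
      obtain ⟨n, hn⟩ := (ht.eventually_gt_atTop M).exists
      have := hM n
      rw [Finset.sum_insert ha, Finset.sum_eq_zero (fun i hi => by rw [hs i hi, zero_mul]),
        add_zero, norm_mul, norm_pow] at this
      linarith
    intro i hi
    rcases Finset.mem_insert.1 hi with rfl | hi
    exacts [hda, hs i hi]

open Classical in
/-- restriction to `G`, extended by zero -/
noncomputable def ext (G : Set ℂ) : C(closure G, ℂ) →ₗ[ℂ] (ℂ → ℂ) where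
  toFun φ := fun z => if h : z ∈ G then φ ⟨z, subset_closure h⟩ else 0
  map_add' φ ψ := by
    funext z
    by_cases h : z ∈ G <;> simp [h]
  map_smul' c φ := by
    funext z
    by_cases h : z ∈ G <;> simp [h]

variable {G : Set ℂ}

theorem ext_mem (φ : C(closure G, ℂ)) {z : ℂ} (h : z ∈ G) :
    ext G φ z = φ ⟨z, subset_closure h⟩ := by simp [ext, h]

theorem ext_not_mem (φ : C(closure G, ℂ)) {z : ℂ} (h : z ∉ G) : ext G φ z = 0 := by
  simp [ext, h]

theorem tu_ext {ι : Type} {l : Filter ι} {φ : ι → C(closure G, ℂ)} {ψ : C(closure G, ℂ)}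
    (h : Tendsto φ l (𝓝 ψ)) {K : Set ℂ} (hK : IsCompact K) :
    TendstoUniformlyOn (fun n => ext G (φ n)) (ext G ψ) l (K ∩ G) := by
  have h1 := ContinuousMap.tendsto_iff_forall_isCompact_tendstoUniformlyOn.1 h _
    (isClosed_closure.isClosedEmbedding_subtypeVal.isCompact_preimage hK)
  rw [Metric.tendstoUniformlyOn_iff] at h1 ⊢
  intro ε hε
  filter_upwards [h1 ε hε] with n hn z hz
  rw [ext_mem _ hz.2, ext_mem _ hz.2]
  exact hn _ hz.1

theorem tu_ext_rev {ι : Type} {l : Filter ι} {φ : ι → C(closure G, ℂ)} {ψ : C(closure G, ℂ)}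
    (h : ∀ K : Set ℂ, IsCompact K → K ⊆ closure G →
      TendstoUniformlyOn (fun n => ext G (φ n)) (ext G ψ) l (K ∩ G)) :
    Tendsto φ l (𝓝 ψ) := by
  rw [ContinuousMap.tendsto_iff_forall_isCompact_tendstoUniformlyOn]
  intro K hK
  obtain ⟨R, hR⟩ := (hK.image continuous_subtype_val).isBounded.subset_ball 0
  have h1 := h (closedBall 0 R ∩ closure G)
    ((isCompact_closedBall 0 R).inter_right isClosed_closure) inter_subset_right
  rw [Metric.tendstoUniformlyOn_iff] at h1 ⊢
  intro ε hε
  filter_upwards [h1 (ε / 2) (by positivity)] with n hn y hy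
  have hcl : IsClosed {y : closure G | dist (ψ y) (φ n y) ≤ ε / 2} :=
    isClosed_le (by fun_prop) continuous_const
  have hsub : (Subtype.val ⁻¹' (ball 0 R ∩ G) : Set (closure G)) ⊆
      {y : closure G | dist (ψ y) (φ n y) ≤ ε / 2} := by
    intro z hz
    have := hn z.1 ⟨⟨ball_subset_closedBall hz.1, z.2⟩, hz.2⟩
    rw [ext_mem _ hz.2, ext_mem _ hz.2] at this
    exact this.le
  have hy' : y ∈ closure (Subtype.val ⁻¹' (ball 0 R ∩ G) : Set (closure G)) := by
    rw [closure_subtype, Subtype.image_preimage_coe,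
      inter_eq_right.2 (inter_subset_right.trans subset_closure)]
    exact isOpen_ball.inter_closure ⟨hR ⟨y, hy, rfl⟩, y.2⟩
  have : dist (ψ y) (φ n y) ≤ ε / 2 := closure_minimal hsub hcl hy'
  linarith

/-- the model of `A^∞(G)` by sequences of continuous functions on the closure -/
def Mod (G : Set ℂ) : Submodule ℂ (ℕ → C(closure G, ℂ)) where
  carrier := {F | ∀ j, ∀ z ∈ G, HasDerivAt (ext G (F j)) (ext G (F (j + 1)) z) z}
  add_mem' := by
    intro F F' h h' j z hz
    simp only [Pi.add_apply, map_add]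
    exact (h j z hz).add (h' j z hz)
  zero_mem' := by
    intro j z hz
    simp only [Pi.zero_apply, map_zero]
    exact hasDerivAt_const z 0
  smul_mem' := by
    intro c F h j z hz
    simp only [Pi.smul_apply, map_smul]
    exact (h j z hz).const_smul c

theorem isClosed_mod (hG : IsOpen G) : IsClosed (Mod G : Set (ℕ → C(closure G, ℂ))) := by
  refine isClosed_of_closure_subset fun F hF j z hz => ?_
  have : NeBot (𝓝[(Mod G : Set (ℕ → C(closure G, ℂ)))] F) := mem_closure_iff_nhdsWithin_neBot.1 hF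
  have ht : ∀ i, TendstoLocallyUniformlyOn (fun n : ℕ → C(closure G, ℂ) => ext G (n i))
      (ext G (F i)) (𝓝[(Mod G : Set (ℕ → C(closure G, ℂ)))] F) G := by
    intro i
    rw [tendstoLocallyUniformlyOn_iff_forall_isCompact hG]
    intro K hKG hK
    have := tu_ext (G := G) (((continuous_apply i).tendsto F).mono_left
      (nhdsWithin_le_nhds (s := (Mod G : Set (ℕ → C(closure G, ℂ)))))) hK
    rwa [inter_eq_left.2 hKG] at this
  refine hasDerivAt_of_tendstoLocallyUniformlyOn hG (ht (j + 1)) ?_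
    (fun x hx => (ht j).tendsto_at hx) hz
  filter_upwards [self_mem_nhdsWithin] with n hn
  exact hn j

theorem iter_eq (hG : IsOpen G) {F : ℕ → C(closure G, ℂ)} (hF : F ∈ Mod G) (j : ℕ) :
    EqOn (iteratedDeriv j (ext G (F 0))) (ext G (F j)) G := by
  induction j with
  | zero => intro z _; simp
  | succ j ih =>
    intro z hz
    rw [iteratedDeriv_succ, (ih.eventuallyEq_of_mem (hG.mem_nhds hz)).deriv_eq]
    exact (hF j z hz).deriv

/-- the model as a type -/
def Sp (G : Set ℂ) : Type := Mod G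

noncomputable instance : AddCommGroup (Sp G) := inferInstanceAs (AddCommGroup (Mod G))
noncomputable instance : Module ℂ (Sp G) := inferInstanceAs (Module ℂ (Mod G))
noncomputable instance : UniformSpace (Sp G) := inferInstanceAs (UniformSpace (Mod G))
instance : ContinuousAdd (Sp G) :=
  haveI : LocallyCompactSpace (closure G) := isClosed_closure.locallyCompactSpace
  (Mod G).toAddSubmonoid.continuousAdd
instance : ContinuousSMul ℂ (Sp G) := inferInstanceAs (ContinuousSMul ℂ (Mod G))
instance : T0Space (Sp G) := inferInstanceAs (T0Space (Mod G))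
instance : IsCountablyGenerated (𝓤 (Sp G)) := by
  have : LocallyCompactSpace (closure G) := isClosed_closure.locallyCompactSpace
  change IsCountablyGenerated (𝓤 (Mod G))
  rw [uniformity_subtype]
  infer_instance
instance : SecondCountableTopology (Sp G) :=
  haveI : LocallyCompactSpace (closure G) := isClosed_closure.locallyCompactSpace
  TopologicalSpace.Subtype.secondCountableTopology _

/-- the `j`-th component -/
noncomputable def comp (G : Set ℂ) (j : ℕ) : Sp G →ₗ[ℂ] C(closure G, ℂ) where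
  toFun F := F.1 j
  map_add' _ _ := rfl
  map_smul' _ _ := rfl

/-- the map to functions -/
noncomputable def Psi (G : Set ℂ) : Sp G →ₗ[ℂ] (ℂ → ℂ) := (ext G).comp (comp G 0)

theorem Psi_apply (F : Sp G) : Psi G F = ext G (F.1 0) := rfl

theorem Psi_mem (hG : IsOpen G) (F : Sp G) : Psi G F ∈ AInf G := by
  classical
  refine ⟨fun z hz => (F.2 0 z hz).differentiableAt.differentiableWithinAt,
    fun z hz => ext_not_mem _ hz, fun j => ?_⟩
  refine ⟨fun z => if h : z ∈ closure G then F.1 j ⟨z, h⟩ else 0, ?_, fun z hz => ?_⟩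
  · rw [continuousOn_iff_continuous_domRestrict]
    convert (F.1 j).continuous using 1
    funext z
    simp
  · rw [Psi_apply, iter_eq hG F.2 j hz, ext_mem _ hz]
    simp [subset_closure hz]

theorem exists_Psi (hG : IsOpen G) {f : ℂ → ℂ} (hf : f ∈ AInf G) : ∃ F, Psi G F = f := by
  obtain ⟨h1, h2, h3⟩ := hf
  choose A hA hA' using h3
  let F : ℕ → C(closure G, ℂ) := fun j =>
    ⟨_, continuousOn_iff_continuous_domRestrict.1 (hA j)⟩
  have hF : ∀ j, EqOn (ext G (F j)) (iteratedDeriv j f) G := fun j z hz => by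
    rw [ext_mem _ hz]
    exact hA' j hz
  refine ⟨⟨F, fun j z hz => ?_⟩, ?_⟩
  · have hd : DifferentiableAt ℂ (iteratedDeriv j f) z := by
      rw [iteratedDeriv_eq_iterate]
      exact (((h1.analyticOnNhd hG).iterated_deriv j) z hz).differentiableAt
    rw [hF (j + 1) hz, iteratedDeriv_succ]
    exact hd.hasDerivAt.congr_of_eventuallyEq ((hF j).eventuallyEq_of_mem (hG.mem_nhds hz))
  · funext z
    by_cases hz : z ∈ G
    · rw [Psi_apply, hF 0 hz]
      simp
    · rw [Psi_apply, ext_not_mem _ hz, h2 z hz]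

theorem inducing_Psi (hG : IsOpen G) : @IsInducing (Sp G) (ℂ → ℂ) _ (topA G) (Psi G) := by
  rw [@isInducing_iff_nhds _ _ _ (topA G)]
  intro F
  refine eq_of_forall_le_iff fun l => ?_
  rw [← map_le_iff_le_comap]
  have h0 : l ≤ 𝓝 F ↔ Tendsto (fun n : Sp G => n.1) l (𝓝 F.1) :=
    tendsto_subtype_rng (f := fun n : Sp G => (n : Mod G))
  change _ ↔ Tendsto (Psi G) l (@nhds _ (topA G) (Psi G F))
  rw [h0, tendsto_pi_nhds, topA, nhds_iInf, tendsto_iInf]
  refine forall_congr' fun j => ?_
  rw [@nhds_induced, tendsto_comap_iff, UniformOnFun.tendsto_iff_tendstoUniformlyOn]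
  have key : ∀ K : Set ℂ, TendstoUniformlyOn (fun n : Sp G => ext G (n.1 j)) (ext G (F.1 j)) l
      (K ∩ G) ↔ TendstoUniformlyOn (fun n : Sp G => iteratedDeriv j (Psi G n))
        (iteratedDeriv j (Psi G F)) l (K ∩ G) := by
    intro K
    simp only [Metric.tendstoUniformlyOn_iff]
    refine forall₂_congr fun ε _ => eventually_congr (Eventually.of_forall fun n => ?_)
    refine forall₂_congr fun z hz => ?_
    rw [Psi_apply, Psi_apply, iter_eq hG F.2 j hz.2, iter_eq hG n.2 j hz.2]
  constructor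
  · rintro h S ⟨K, hK, -, rfl⟩
    exact (key K).1 (tu_ext h hK)
  · intro h
    exact tu_ext_rev fun K hK hKG => (key K).2 (h _ ⟨K, hK, hKG, rfl⟩)

/-- functions whose Taylor series at `w` has bounded terms at radius `r` -/
def Ysub (G : Set ℂ) (w : closure G) (r : ℝ) (hr : 0 < r) : Submodule ℂ (Sp G) where
  carrier := {F | ∃ M : ℕ, ∀ n, ‖F.1 n w‖ * r ^ n ≤ M * n.factorial}
  add_mem' := by
    rintro F F' ⟨M, h⟩ ⟨M', h'⟩
    refine ⟨M + M', fun n => ?_⟩
    have h1 : ‖(F + F').1 n w‖ ≤ ‖F.1 n w‖ + ‖F'.1 n w‖ := norm_add_le _ _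
    have h2 := mul_le_mul_of_nonneg_right h1 (pow_pos hr n).le
    have := h n
    have := h' n
    rw [Nat.cast_add]
    linarith
  zero_mem' := ⟨0, fun n => by
    have : (0 : Sp G).1 n w = 0 := rfl
    rw [this]
    simp⟩
  smul_mem' := by
    rintro c F ⟨M, h⟩
    obtain ⟨N, hN⟩ := exists_nat_ge ‖c‖
    refine ⟨N * M, fun n => ?_⟩
    have h1 : ‖(c • F).1 n w‖ = ‖c‖ * ‖F.1 n w‖ := norm_mul _ _
    rw [h1, mul_assoc]
    push_cast
    rw [mul_assoc]
    exact mul_le_mul hN (h n) (by positivity) (Nat.cast_nonneg N)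

/-- the simple fractions -/
noncomputable def frac (hG : IsOpen G) (a : ℂ) (ha : a ∉ closure G) : Sp G :=
  ⟨fun n => ⟨fun z => (n.factorial : ℂ) * ((a - z.1) ^ (n + 1))⁻¹, by
      refine continuous_const.mul (Continuous.inv₀ (by fun_prop) fun z => ?_)
      exact pow_ne_zero _ (sub_ne_zero.2 fun h => ha (h ▸ z.2))⟩, by
    intro j z hz
    have hne : a - z ≠ 0 := sub_ne_zero.2 fun h => ha (h ▸ subset_closure hz)
    have h1 : HasDerivAt (fun z : ℂ => (j.factorial : ℂ) * ((a - z) ^ (j + 1))⁻¹)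
        (((j + 1).factorial : ℂ) * ((a - z) ^ (j + 1 + 1))⁻¹) z := by
      have := ((((hasDerivAt_id z).const_sub a).pow (j + 1)).inv
        (pow_ne_zero _ hne)).const_mul (j.factorial : ℂ)
      refine HasDerivAt.congr_deriv this ?_
      simp only [id, Nat.factorial_succ, Nat.add_sub_cancel, Pi.pow_apply]
      push_cast
      field_simp
      ring
    rw [ext_mem _ hz]
    refine h1.congr_of_eventuallyEq ?_
    filter_upwards [hG.mem_nhds hz] with y hy
    rw [ext_mem _ hy]
    rfl⟩

theorem not_finite (hG : IsOpen G) (w : closure G) {r : ℝ} (hr : 0 < r)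
    (hb : ¬ ball w.1 r ⊆ closure G) : ¬ Module.Finite ℂ (Sp G ⧸ Ysub G w r hr) := by
  intro hfin
  let V : Set ℂ := ball w.1 r ∩ (closure G)ᶜ
  have hVo : IsOpen V := isOpen_ball.inter isClosed_closure.isOpen_compl
  obtain ⟨a, ha⟩ : V.Nonempty := not_subset.1 hb
  have : Infinite V := (infinite_of_mem_nhds a (hVo.mem_nhds ha)).to_subtype
  refine Module.Finite.not_linearIndependent_of_infinite (R := ℂ)
    (fun a : V => (Ysub G w r hr).mkQ (frac hG a.1 a.2.2)) ?_
  rw [linearIndependent_iff']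
  intro s c hc
  have hmem : ∑ i ∈ s, c i • frac hG i.1 i.2.2 ∈ Ysub G w r hr := by
    rw [← Submodule.Quotient.mk_eq_zero, ← Submodule.mkQ_apply, map_sum]
    simpa using hc
  obtain ⟨M, hM⟩ := hmem
  have hne : ∀ i : V, i.1 - w.1 ≠ 0 := fun i => sub_ne_zero.2 fun h => i.2.2 (h ▸ w.2)
  have := bdd_vanish (fun i : V => (r : ℂ) / (i.1 - w.1)) s (fun i _ i' _ h => by
      have hr' : (r : ℂ) ≠ 0 := by exact_mod_cast hr.ne'
      simp only at h
      rw [div_eq_div_iff (hne i) (hne i')] at h
      exact Subtype.ext (sub_left_injective (mul_left_cancel₀ hr' h)).symm)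
    (fun i _ => by
      rw [norm_div, Complex.norm_real, Real.norm_eq_abs, abs_of_pos hr,
        one_lt_div (norm_pos_iff.2 (hne i))]
      exact mem_ball_iff_norm.1 i.2.1)
    (fun i => c i / (i.1 - w.1)) M (fun n => by
      have h1 := hM n
      have e : (∑ i ∈ s, c i • frac hG i.1 i.2.2).1 n w * (r : ℂ) ^ n =
          (n.factorial : ℂ) * ∑ i ∈ s, c i / (i.1 - w.1) * ((r : ℂ) / (i.1 - w.1)) ^ n := by
        change comp G n (∑ i ∈ s, c i • frac hG i.1 i.2.2) w * (r : ℂ) ^ n = _
        rw [map_sum, ContinuousMap.sum_apply, Finset.sum_mul, Finset.mul_sum]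
        refine Finset.sum_congr rfl fun i _ => ?_
        change c i * ((n.factorial : ℂ) * ((i.1 - w.1) ^ (n + 1))⁻¹) * (r : ℂ) ^ n = _
        have := hne i
        rw [div_pow]
        field_simp
        ring
      have e2 := congrArg norm e
      rw [norm_mul, norm_mul, norm_pow, Complex.norm_real, Real.norm_eq_abs, abs_of_pos hr,
        Complex.norm_natCast] at e2
      rw [e2, mul_comm] at h1
      exact le_of_mul_le_mul_right h1 (by positivity))
  intro i hi
  exact (div_eq_zero_iff.1 (this i hi)).resolve_right (hne i)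

theorem main (hG : IsOpen G) (hne : G.Nonempty) (hreg : interior (closure G) = G) :
    ∃ E : Submodule ℂ (ℂ → ℂ), (E : Set (ℂ → ℂ)) ⊆ AInf G ∧
      AInf G ⊆ @closure _ (topA G) (E : Set (ℂ → ℂ)) ∧
      (∀ f ∈ E, f ≠ 0 → NonExt G f) ∧
      @BaireSpace E (TopologicalSpace.induced Subtype.val (topA G)) := by
  have hcl := isClosed_mod hG
  have : CompleteSpace (Sp G) := hcl.completeSpace_coe
  let d := TopologicalSpace.denseSeq ℂ
  let J := {p : ℕ × ℚ // d p.1 ∈ G ∧ (0 : ℝ) < p.2 ∧ ¬ ball (d p.1) p.2 ⊆ closure G}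
  let Y : J → Submodule ℂ (Sp G) := fun j =>
    Ysub G ⟨d j.1.1, subset_closure j.2.1⟩ j.1.2 j.2.2.1
  let Z : J → ℕ → Set (Sp G) := fun j M =>
    {F | ∀ n, ‖F.1 n ⟨d j.1.1, subset_closure j.2.1⟩‖ * (j.1.2 : ℝ) ^ n ≤ M * n.factorial}
  obtain ⟨E, hE1, hE2, hE3⟩ := exists_baire Y Z (fun j M => by
      simp only [Z, ofPred_forall]
      refine isClosed_iInter fun n => isClosed_le ?_ continuous_const
      refine Continuous.mul (Continuous.norm ?_) continuous_const
      have hv : Continuous fun F : Sp G => F.1 := continuous_subtype_val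
      exact (continuous_eval_const _).comp ((continuous_apply n).comp hv))
    (fun j => by
      ext F
      rw [mem_iUnion]
      rfl)
    (fun j => not_finite hG ⟨d j.1.1, subset_closure j.2.1⟩ j.2.2.1 j.2.2.2)
  have hind := inducing_Psi hG
  refine ⟨E.map (Psi G), ?_, ?_, ?_, ?_⟩
  · rintro _ ⟨F, -, rfl⟩
    exact Psi_mem hG F
  · intro f hf
    obtain ⟨F, rfl⟩ := exists_Psi hG hf
    let := topA G
    exact image_closure_subset_closure_image hind.continuous ⟨F, hE1 F, rfl⟩
  · rintro _ ⟨F, hF, rfl⟩ hf0 ⟨Ω, H, hΩ, hΩc, hGΩ, hH, hHf⟩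
    obtain ⟨ζ, hζΩ, hζc, hζG⟩ : ∃ ζ ∈ Ω, ζ ∈ closure G ∧ ζ ∉ G := by
      by_contra hcon
      push Not at hcon
      have := hΩc.isPreconnected.subset_of_closure_inter_subset hG
        (by rwa [inter_eq_right.2 hGΩ.1]) (fun z hz => hcon z hz.2 hz.1)
      exact hGΩ.2 this
    obtain ⟨ε, hε, hball⟩ := Metric.isOpen_iff.1 hΩ ζ hζΩ
    obtain ⟨q, hq0, hq⟩ := exists_rat_btwn (half_pos hε)
    have hq0' : (0 : ℝ) < q := hq0
    obtain ⟨i, hi⟩ := (TopologicalSpace.denseRange_denseSeq ℂ).exists_mem_open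
      (isOpen_ball.inter hG) (mem_closure_iff.1 hζc _ isOpen_ball (mem_ball_self hq0'))
    have hnot : ¬ ball (d i) q ⊆ closure G := by
      intro h
      apply hζG
      rw [← hreg]
      exact interior_maximal h isOpen_ball (mem_ball_comm.1 hi.1)
    have hcb : closedBall (d i) q ⊆ Ω := by
      refine Subset.trans (closedBall_subset_ball' ?_) hball
      have : dist (d i) ζ < q := hi.1
      linarith
    obtain ⟨C, hC⟩ := (isCompact_closedBall (d i) q).exists_bound_of_continuousOn
      (hH.continuousOn.mono hcb)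
    obtain ⟨M, hM⟩ := exists_nat_ge C
    apply hf0
    rw [hE3 ⟨(i, q), hi.2, hq0', hnot⟩ F hF ⟨M, fun n => ?_⟩, map_zero]
    have h1 := Complex.norm_iteratedDeriv_le_of_forall_mem_sphere_norm_le n hq0'
      (hH.diffContOnCl_ball hcb) (fun z hz => (hC z (sphere_subset_closedBall hz)).trans hM)
    rw [(hHf.eventuallyEq_of_mem (hG.mem_nhds hi.2)).iteratedDeriv_eq n, Psi_apply,
      iter_eq hG F.2 n hi.2, ext_mem _ hi.2, le_div_iff₀ (pow_pos hq0' n), mul_comm _ (M : ℝ)] at h1
    exact h1
  · let := topA G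
    let φ : E → E.map (Psi G) := fun x => ⟨Psi G x, x.1, x.2, rfl⟩
    have h1 : IsInducing φ := by
      refine IsInducing.of_comp ?_ continuous_subtype_val (hind.comp IsInducing.subtypeVal)
      exact (hind.continuous.comp continuous_subtype_val).subtype_mk _
    have h2 : Function.Surjective φ := by
      rintro ⟨_, F, hF, rfl⟩
      exact ⟨⟨F, hF⟩, rfl⟩
    exact (h1.isEmbedding.toHomeomorphOfSurjective h2).baireSpace

end Pool.Agent.H129Z.Val
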