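import Mathlib

/-!
An abstract version of the definition of the real elements in a ring of integers of CM type.
-/

set_option autoImplicit false

namespace Pool.Agent.H129Z.AbInt

open scoped ComplexConjugate

variable {O : Type} [CommRing O]

/-- the ring defined with units -/
def D (y : O) : Prop :=
  ∀ e e' : O, e * e' = 1 → ∃ g g' w : O, g * g' = 1 ∧ g - 1 = y * (e - 1) + w * (e - 1) ^ 2

/-- the defining property of real elements -/
def R (x : O) : Prop :=
  ∃ t t' c d : O, t * t' = 1 ∧ t = 1 + 3 * c ∧ d ≠ 0 ∧ D d ∧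
    ∀ n : O, D n → ∃ a w : O, D a ∧ d * x - a = w * (t - n)

/-- `D` is a subring -/
def Dsub (O : Type) [CommRing O] : Subring O where
  carrier := {y | D y}
  zero_mem' := fun e e' _ => ⟨1, 1, 0, by ring, by ring⟩
  one_mem' := fun e e' h => ⟨e, e', 0, h, by ring⟩
  add_mem' := by
    intro x y hx hy e e' h
    obtain ⟨g, g', w, h1, h2⟩ := hx e e' h
    obtain ⟨k, k', v, h3, h4⟩ := hy e e' h
    refine ⟨g * k, g' * k', w + v + (x + w * (e - 1)) * (y + v * (e - 1)), ?_, ?_⟩
    · linear_combination (k * k') * h1 + h3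
    · linear_combination k * h2 + (1 + x * (e - 1) + w * (e - 1) ^ 2) * h4
  neg_mem' := by
    intro x hx e e' h
    obtain ⟨g, g', w, h1, h2⟩ := hx e e' h
    refine ⟨g', g, g' * (x + w * (e - 1)) ^ 2 - w, by linear_combination h1, ?_⟩
    have hg : g = 1 + x * (e - 1) + w * (e - 1) ^ 2 := by linear_combination h2
    subst hg
    linear_combination (1 - x * (e - 1) - w * (e - 1) ^ 2) * h1
  mul_mem' := by
    intro x y hx hy e e' h
    obtain ⟨g, g', w, h1, h2⟩ := hy e e' h
    obtain ⟨k, k', v, h3, h4⟩ := hx g g' h1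
    refine ⟨k, k', x * w + v * (y + w * (e - 1)) ^ 2, h3, ?_⟩
    rw [h4, h2]
    ring

theorem exists_pow_sub_one (u u' : O) (h : u * u' = 1) (hu : IsIntegral ℤ u) (M : ℕ) (hM : 0 < M) :
    ∃ k, 0 < k ∧ (M : O) ∣ u ^ k - 1 := by
  let A := Algebra.adjoin ℤ {u}
  have : Module.Finite ℤ A := Module.Finite.of_fg hu.fg_adjoin_singleton
  let I : Ideal A := Ideal.span {(M : A)}
  have hfin : Finite (A ⧸ I) := by
    refine Module.finite_of_fg_torsion _ fun x => ⟨⟨M, mem_nonZeroDivisors_of_ne_zero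
      (by exact_mod_cast hM.ne')⟩, ?_⟩
    obtain ⟨y, rfl⟩ := Ideal.Quotient.mk_surjective x
    change (M : ℤ) • Ideal.Quotient.mk I y = 0
    rw [← map_zsmul, Ideal.Quotient.eq_zero_iff_mem, zsmul_eq_mul, Int.cast_natCast]
    exact Ideal.mul_mem_right _ _ (Ideal.mem_span_singleton_self _)
  let a : A := ⟨u, Algebra.self_mem_adjoin_singleton ℤ u⟩
  have key : ∀ i j : ℕ, i < j → Ideal.Quotient.mk I (a ^ i) = Ideal.Quotient.mk I (a ^ j) →
      ∃ k, 0 < k ∧ (M : O) ∣ u ^ k - 1 := by
    intro i j hij hq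
    obtain ⟨k, rfl⟩ := Nat.exists_eq_add_of_lt hij
    obtain ⟨c, hc⟩ := Ideal.mem_span_singleton.1 (Ideal.Quotient.eq.1 hq.symm)
    have hc' : u ^ (i + k + 1) - u ^ i = (M : O) * c.1 := by
      simpa [a] using congrArg Subtype.val hc
    refine ⟨k + 1, by omega, c.1 * u' ^ i, ?_⟩
    have h1 : u ^ i * u' ^ i = 1 := by rw [← mul_pow, h, one_pow]
    calc u ^ (k + 1) - 1 = (u ^ (k + 1) - 1) * (u ^ i * u' ^ i) := by rw [h1, mul_one]
      _ = (u ^ (i + k + 1) - u ^ i) * u' ^ i := by ring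
      _ = _ := by rw [hc']; ring
  obtain ⟨i, j, hij, hq⟩ := Finite.exists_ne_map_eq_of_infinite
    (fun n : ℕ => Ideal.Quotient.mk I (a ^ n))
  rcases lt_or_gt_of_ne hij with h' | h'
  · exact key i j h' hq
  · exact key j i h' hq.symm

/-- the data of a ring of integers of CM type -/
structure CM (O : Type) [CommRing O] where
  cj : O →+* O
  ι : Type
  emb : ι → O →+* ℂ
  emb_cj : ∀ i x, emb i (cj x) = conj (emb i x)
  big : ∀ x, x ≠ 0 → ∃ i, 1 ≤ ‖emb i x‖
  bdd : ∀ x, ∃ B : ℝ, ∀ i, ‖emb i x‖ ≤ B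
  int : ∀ x : O, IsIntegral ℤ x
  inf : ∃ u u' : O, u * u' = 1 ∧ ∀ k, 0 < k → u ^ k ≠ 1
  gen : ∀ x, cj x = x → ∃ u u' : O, u * u' = 1 ∧ ∀ k, 0 < k →
    ∃ d : ℤ, d ≠ 0 ∧ d • x ∈ Algebra.adjoin ℤ {u ^ k}

variable (C : CM O)

theorem CM.eq_zero (y : O) (h : ∀ N : ℕ, ∃ t w : O, y = w * t ∧ ∀ i, (N : ℝ) ≤ ‖C.emb i t‖) :
    y = 0 := by
  by_contra hy
  obtain ⟨B, hB⟩ := C.bdd y
  obtain ⟨N, hN⟩ := exists_nat_gt B
  obtain ⟨t, w, h1, h2⟩ := h N
  have hw : w ≠ 0 := by
    rintro rfl
    exact hy (by rw [h1, zero_mul])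
  obtain ⟨i, hi⟩ := C.big w hw
  have := hB i
  rw [h1, map_mul, norm_mul] at this
  have h3 := h2 i
  have : (1 : ℝ) * N ≤ ‖C.emb i w‖ * ‖C.emb i t‖ := mul_le_mul hi h3 (by positivity) (by positivity)
  linarith

theorem CM.unit_real {u u' c : O} (h : u * u' = 1) (hc : u = 1 + 3 * c) : C.cj u = u := by
  have h' : C.cj u * C.cj u' = 1 := by rw [← map_mul, h, map_one]
  have hcu : C.cj u = 1 + 3 * C.cj c := by rw [hc, map_add, map_mul, map_one, map_ofNat]
  have hz : (c - C.cj c) * C.cj u' = 0 := by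
    by_contra hz
    obtain ⟨i, hi⟩ := C.big _ hz
    have e : 3 * ((c - C.cj c) * C.cj u') = u * C.cj u' - 1 := by
      linear_combination C.cj u' * hcu - h' - C.cj u' * hc
    have e2 := congrArg (fun z => ‖C.emb i z‖) e
    simp only [map_mul, map_ofNat, norm_mul, Complex.norm_ofNat] at e2
    have e3 : ‖C.emb i (u * C.cj u' - 1)‖ ≤ 2 := by
      rw [map_sub, map_one]
      refine (norm_sub_le _ _).trans ?_
      rw [map_mul, C.emb_cj, norm_mul, Complex.norm_conj, ← norm_mul, ← map_mul, h, map_one,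
        norm_one]
      norm_num
    rw [map_mul, norm_mul] at hi
    linarith
  have : c - C.cj c = 0 := by
    calc c - C.cj c = (c - C.cj c) * C.cj u' * C.cj u := by rw [mul_assoc, mul_comm (C.cj u'), h', mul_one]
      _ = 0 := by rw [hz, zero_mul]
  rw [hcu, hc, ← sub_eq_zero.1 this]

theorem CM.D_real [IsDomain O] {x : O} (hx : D x) : C.cj x = x := by
  obtain ⟨u, u', h, hu⟩ := C.inf
  refine (sub_eq_zero.1 (C.eq_zero _ fun N => ?_)).symm
  obtain ⟨k, hk, c, hc⟩ := exists_pow_sub_one u u' h (C.int u) (3 * (N + 1)) (by omega)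
  have he : u ^ k * u' ^ k = 1 := by rw [← mul_pow, h, one_pow]
  obtain ⟨g, g', w, h1, h2⟩ := hx _ _ he
  push_cast at hc
  have r1 : C.cj (u ^ k) = u ^ k := C.unit_real he (c := (N + 1) * c) (by linear_combination hc)
  have r2 : C.cj g = g := C.unit_real h1 (c := (N + 1) * c * (x + w * (u ^ k - 1)))
    (by linear_combination h2 + (x + w * (u ^ k - 1)) * hc)
  have h3 := congrArg C.cj h2
  simp only [map_sub, map_add, map_mul, map_pow _ _ 2, map_one, r1, r2] at h3
  have hne : u ^ k - 1 ≠ 0 := sub_ne_zero.2 (hu k hk)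
  have h4 : x - C.cj x = (C.cj w - w) * (u ^ k - 1) :=
    mul_right_cancel₀ hne (by linear_combination h3 - h2)
  refine ⟨((N + 1 : ℕ) : O), (C.cj w - w) * 3 * c, by rw [h4, hc]; push_cast; ring, fun i => ?_⟩
  rw [map_natCast, Complex.norm_natCast]
  exact_mod_cast Nat.le_succ N

theorem CM.R_iff [IsDomain O] [CharZero O] (x : O) : R x ↔ C.cj x = x := by
  constructor
  · rintro ⟨t, t', c, d, h1, h2, hd, hD, h⟩
    have rt := C.unit_real h1 h2
    have rd := C.D_real hD
    have : d * (x - C.cj x) = 0 := by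
      refine C.eq_zero _ fun N => ?_
      obtain ⟨B, hB⟩ := C.bdd t
      obtain ⟨M, hM⟩ := exists_nat_ge B
      obtain ⟨a, w, ha, hw⟩ := h ((N + M : ℕ) : O) (natCast_mem (Dsub O) _)
      have h3 := congrArg C.cj hw
      simp only [map_sub, map_mul, map_natCast, rt, rd, C.D_real ha] at h3
      refine ⟨t - ((N + M : ℕ) : O), w - C.cj w, by linear_combination hw - h3, fun i => ?_⟩
      rw [map_sub, map_natCast, norm_sub_rev]
      refine le_trans ?_ (norm_sub_norm_le _ _)
      rw [Complex.norm_natCast]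
      have := hB i
      push_cast
      linarith
    exact (sub_eq_zero.1 ((mul_eq_zero.1 this).resolve_left hd)).symm
  · intro hx
    obtain ⟨u, u', h, hu⟩ := C.gen x hx
    obtain ⟨k, hk, c, hc⟩ := exists_pow_sub_one u u' h (C.int u) 3 (by omega)
    obtain ⟨d, hd, hmem⟩ := hu k hk
    rw [Algebra.adjoin_singleton_eq_range_aeval] at hmem
    obtain ⟨P, hP⟩ := hmem
    refine ⟨u ^ k, u' ^ k, c, d, by rw [← mul_pow, h, one_pow], by
      push_cast at hc; linear_combination hc, by exact_mod_cast hd,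
      intCast_mem (Dsub O) d, fun n hn => ?_⟩
    obtain ⟨w, hw⟩ := Polynomial.sub_dvd_eval_sub (u ^ k) n (P.map (algebraMap ℤ O))
    rw [Polynomial.eval_map_algebraMap, Polynomial.eval_map_algebraMap] at hw
    refine ⟨Polynomial.aeval n P, w, ?_, ?_⟩
    · have : Algebra.adjoin ℤ {n} ≤ subalgebraOfSubring (Dsub O) :=
        Algebra.adjoin_le (Set.singleton_subset_iff.2 hn)
      exact this (Polynomial.aeval_mem_adjoin_singleton ℤ n)
    · rw [← zsmul_eq_mul, ← hP, mul_comm, ← hw]
      rfl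

open FirstOrder FirstOrder.Language FirstOrder.Ring

/-- the formula for `D` -/
noncomputable def DF {α : Type} (y : α) : Language.ring.Formula α :=
  Formula.iAlls (Fin 2)
    ((Term.equal (Term.var (Sum.inr 0) * Term.var (Sum.inr 1)) 1).imp
      (Formula.iExs (Fin 3)
        (Term.equal (Term.var (Sum.inr 0) * Term.var (Sum.inr 1)) 1 ⊓
          Term.equal (Term.var (Sum.inr 0) + -1)
            (Term.var (Sum.inl (Sum.inl y)) * (Term.var (Sum.inl (Sum.inr 0)) + -1) +
              Term.var (Sum.inr 2) * ((Term.var (Sum.inl (Sum.inr 0)) + -1) *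
                (Term.var (Sum.inl (Sum.inr 0)) + -1))))))

/-- the formula for `R` -/
noncomputable def RF : Language.ring.Formula (Fin 1) :=
  Formula.iExs (Fin 4)
    (Term.equal (Term.var (Sum.inr 0) * Term.var (Sum.inr 1)) 1 ⊓
      (Term.equal (Term.var (Sum.inr 0)) (1 + (1 + 1 + 1) * Term.var (Sum.inr 2)) ⊓
        ((Term.equal (Term.var (Sum.inr 3)) 0).not ⊓
          (DF (Sum.inr 3) ⊓
            Formula.iAlls (Fin 1) ((DF (Sum.inr 0)).imp
              (Formula.iExs (Fin 2) (DF (Sum.inr 0) ⊓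
                Term.equal (Term.var (Sum.inl (Sum.inl (Sum.inr 3))) *
                    Term.var (Sum.inl (Sum.inl (Sum.inl 0))) + -Term.var (Sum.inr 0))
                  (Term.var (Sum.inr 1) * (Term.var (Sum.inl (Sum.inl (Sum.inr 0))) +
                    -Term.var (Sum.inl (Sum.inr 0)))))))))))

variable [CompatibleRing O]

theorem realize_DF {α : Type} (y : α) (v : α → O) : (DF y).Realize v ↔ D (v y) := by
  simp only [DF, Formula.realize_iAlls, Formula.realize_imp, Formula.realize_iExs,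
    Formula.realize_inf, Formula.realize_equal, realize_mul, realize_add, realize_neg, realize_one,
    Term.realize_var, Sum.elim_inr, Sum.elim_inl]
  constructor
  · intro h e e' he
    obtain ⟨g, h1, h2⟩ := h ![e, e'] he
    refine ⟨g 0, g 1, g 2, h1, ?_⟩
    simp only [Matrix.cons_val_zero] at h2
    linear_combination h2
  · intro h e he
    obtain ⟨g, g', w, h1, h2⟩ := h (e 0) (e 1) he
    refine ⟨![g, g', w], h1, ?_⟩
    simp only [Matrix.cons_val_zero, Matrix.cons_val]
    linear_combination h2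

theorem realize_RF (v : Fin 1 → O) : RF.Realize v ↔ R (v 0) := by
  simp only [RF, Formula.realize_iAlls, Formula.realize_imp, Formula.realize_iExs,
    Formula.realize_inf, Formula.realize_equal, realize_mul, realize_add, realize_neg, realize_one,
    realize_zero, Term.realize_var, Sum.elim_inr, Sum.elim_inl, realize_DF, Formula.realize_not]
  constructor
  · rintro ⟨g, h1, h2, h3, h4, h5⟩
    refine ⟨g 0, g 1, g 2, g 3, h1, by linear_combination h2, h3, h4, fun n hn => ?_⟩
    obtain ⟨a, ha, hw⟩ := h5 ![n] hn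
    refine ⟨a 0, a 1, ha, ?_⟩
    simp only [Matrix.cons_val_zero] at hw
    linear_combination hw
  · rintro ⟨t, t', c, d, h1, h2, h3, h4, h5⟩
    refine ⟨![t, t', c, d], h1, ?_, h3, h4, fun n hn => ?_⟩
    · simp only [Matrix.cons_val_zero, Matrix.cons_val]
      linear_combination h2
    · obtain ⟨a, w, ha, hw⟩ := h5 (n 0) hn
      refine ⟨![a, w], ha, ?_⟩
      simp only [Matrix.cons_val_zero, Matrix.cons_val]
      linear_combination hw

theorem CM.definable [IsDomain O] [CharZero O] :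
    (∅ : Set O).Definable₁ Language.ring {x | C.cj x = x} := by
  refine Set.empty_definable_iff.2 ⟨RF, ?_⟩
  ext v
  exact ((realize_RF v).trans (C.R_iff _)).symm

end Pool.Agent.H129Z.AbInt
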