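import Mathlib

set_option autoImplicit false

namespace Pool.Agent.H129Z.AbInt

/-- `ℚ^{ab}`: the subfield of `ℂ` generated over `ℚ` by all roots of unity -/
noncomputable def Qab : IntermediateField ℚ ℂ :=
  IntermediateField.adjoin ℚ {z : ℂ | ∃ n : ℕ, 0 < n ∧ z ^ n = 1}

/-- `ℤ^{ab}`: the ring of algebraic integers lying in `ℚ^{ab}` -/
noncomputable def Zab : Subring ℂ := (integralClosure ℤ ℂ).toSubring ⊓ Qab.toSubfield.toSubring

end Pool.Agent.H129Z.AbInt
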