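import Mathlib
import Pool.Agent.H129Z.ZabDefs
import Pool.Agent.H129Z.ZabAbs

set_option autoImplicit false

namespace Pool.Agent.H129Z.AbInt

open scoped ComplexConjugate IntermediateField NumberField
open NumberField

theorem root_int {z : ℂ} (hz : z ∈ {z : ℂ | ∃ n : ℕ, 0 < n ∧ z ^ n = 1}) : IsIntegral ℤ z := by
  obtain ⟨n, hn, h⟩ := hz
  exact IsIntegral.of_pow hn (h ▸ isIntegral_one)

instance : Algebra.IsAlgebraic ℚ Qab :=
  IntermediateField.isAlgebraic_adjoin fun _ hz => (root_int hz).tower_top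

theorem conj_root {z : ℂ} {n : ℕ} (hn : 0 < n) (h : z ^ n = 1) : conj z = z⁻¹ :=
  (Complex.inv_eq_conj (Complex.norm_eq_one_of_pow_eq_one h hn.ne')).symm

theorem conj_mem {x : ℂ} (hx : x ∈ Qab) : conj x ∈ Qab := by
  induction hx using IntermediateField.adjoin_induction with
  | mem x hx =>
    obtain ⟨n, hn, h⟩ := hx
    exact IntermediateField.subset_adjoin _ _ ⟨n, hn, by rw [← map_pow, h, map_one]⟩
  | algebraMap x => simp
  | add x y _ _ h1 h2 => rw [map_add]; exact add_mem h1 h2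
  | inv x _ h => rw [map_inv₀]; exact inv_mem h
  | mul x y _ _ h1 h2 => rw [map_mul]; exact mul_mem h1 h2

/-- conjugation on `ℚ^{ab}` -/
noncomputable def cjK : Qab →+* Qab :=
  ((starRingEnd ℂ).comp Qab.subtype).codRestrict Qab fun x => conj_mem x.2

theorem emb_cjK (φ : Qab →+* ℂ) (x : Qab) : φ (cjK x) = conj (φ x) := by
  have : (φ.comp cjK).toRatAlgHom = ((starRingEnd ℂ).comp φ).toRatAlgHom := by
    refine IntermediateField.adjoin_algHom_ext ℚ fun z hz => ?_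
    obtain ⟨n, hn, h⟩ := hz
    let a : Qab := ⟨z, IntermediateField.subset_adjoin _ _ ⟨n, hn, h⟩⟩
    change φ (cjK a) = conj (φ a)
    have h1 : cjK a = a⁻¹ := Subtype.ext (conj_root hn h)
    have h2 : a ^ n = 1 := Subtype.ext h
    rw [h1, map_inv₀, conj_root hn (by rw [← map_pow, h2, map_one])]
  exact DFunLike.congr_fun this x

/-- the inclusion of `ℤ^{ab}` in `ℚ^{ab}` -/
noncomputable def toK : Zab →+* Qab := Zab.subtype.codRestrict Qab fun x => x.2.2

/-- conjugation on `ℤ^{ab}` -/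
noncomputable def cjO : Zab →+* Zab :=
  ((starRingEnd ℂ).comp Zab.subtype).codRestrict Zab fun x =>
    ⟨(show IsIntegral ℤ (x : ℂ) from x.2.1).map (starRingEnd ℂ).toIntAlgHom, conj_mem x.2.2⟩

theorem int_O (x : Zab) : IsIntegral ℤ x :=
  (isIntegral_algHom_iff Zab.subtype.toIntAlgHom Subtype.val_injective).1 x.2.1

theorem big (x : Zab) (hx : x ≠ 0) : ∃ φ : Qab →+* ℂ, 1 ≤ ‖φ (toK x)‖ := by
  have hi : IsIntegral ℤ (toK x) := (int_O x).map toK.toIntAlgHom
  let F := ℚ⟮toK x⟯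
  have : FiniteDimensional ℚ F := IntermediateField.adjoin.finiteDimensional hi.tower_top
  have : NumberField F := ⟨⟩
  let a : F := IntermediateField.AdjoinSimple.gen ℚ (toK x)
  have ha : IsIntegral ℤ a :=
    (isIntegral_algHom_iff (algebraMap F Qab).toIntAlgHom (algebraMap F Qab).injective).1 hi
  obtain ⟨σ, hσ⟩ := NumberField.exists_conjugate_one_le_norm (K := F) (α := ⟨a, ha⟩) (by
    intro h
    apply hx
    have h1 : toK x = 0 := congrArg (fun z : 𝓞 F => ((z : F) : Qab)) h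
    exact Subtype.ext (congrArg (fun z : Qab => (z : ℂ)) h1))
  obtain ⟨φ, hφ⟩ := IsAlgClosed.surjective_domRestrict_of_isAlgebraic (K := ℚ) (L := F) (M := ℂ)
    (E := Qab) σ.toRatAlgHom
  refine ⟨φ.toRingHom, ?_⟩
  have := DFunLike.congr_fun hφ a
  exact hσ.trans_eq (congrArg norm this.symm)

theorem bdd (y : Qab) : ∃ B : ℝ, ∀ φ : Qab →+* ℂ, ‖φ y‖ ≤ B := by
  have hi : IsIntegral ℚ y := Algebra.IsIntegral.isIntegral y
  obtain ⟨B, hB⟩ := (((minpoly ℚ y).rootSet_finite ℂ).image norm).bddAbove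
  refine ⟨B, fun φ => hB ⟨φ y, ?_, rfl⟩⟩
  rw [Polynomial.mem_rootSet]
  refine ⟨minpoly.ne_zero hi, ?_⟩
  have := Polynomial.aeval_algHom_apply φ.toRatAlgHom y (minpoly ℚ y)
  rw [minpoly.aeval, map_zero] at this
  exact this

theorem inf : ∃ u u' : Zab, u * u' = 1 ∧ ∀ k, 0 < k → u ^ k ≠ 1 := by
  obtain ⟨z, hz⟩ := IsAlgClosed.exists_pow_nat_eq (-1 : ℂ) (n := 4) (by norm_num)
  have h8 : z ∈ {z : ℂ | ∃ n : ℕ, 0 < n ∧ z ^ n = 1} :=
    ⟨8, by norm_num, by linear_combination (z ^ 4 - 1) * hz⟩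
  let ζ : Zab := ⟨z, root_int h8, IntermediateField.subset_adjoin _ _ h8⟩
  have hζ : ζ ^ 4 = -1 := Subtype.ext hz
  let s : Zab := ζ - ζ ^ 3
  have hs : s ^ 2 = 2 := by
    simp only [s]
    linear_combination (ζ ^ 2 - 2) * hζ
  refine ⟨s + 1, s - 1, by linear_combination hs, fun k hk h => ?_⟩
  have hs' : (s : ℂ) ^ 2 = 2 := congrArg Subtype.val hs
  have h1 : ‖(s : ℂ) + 1‖ = 1 :=
    Complex.norm_eq_one_of_pow_eq_one (congrArg Subtype.val h) hk.ne'
  have h2 : ‖(s : ℂ) - 1‖ = 1 := by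
    have : ((s : ℂ) + 1) * ((s : ℂ) - 1) = 1 := by linear_combination hs'
    have := congrArg norm this
    rwa [norm_mul, h1, one_mul, norm_one] at this
  have h3 : ‖(s : ℂ)‖ ^ 2 = 2 := by
    rw [← norm_pow, hs']
    simp
  have := parallelogram_law_with_norm ℂ (s : ℂ) 1
  rw [h1, h2, norm_one] at this
  nlinarith

theorem gen (x : Zab) (hx : cjO x = x) : ∃ u u' : Zab, u * u' = 1 ∧ ∀ k, 0 < k →
    ∃ d : ℤ, d ≠ 0 ∧ d • x ∈ Algebra.adjoin ℤ {u ^ k} := by
  have hi : IsIntegral ℤ (x : ℂ) := x.2.1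
  let F := ℚ⟮(x : ℂ)⟯
  have : FiniteDimensional ℚ F := IntermediateField.adjoin.finiteDimensional hi.tower_top
  have : NumberField F := ⟨⟩
  have hFK : F ≤ Qab := IntermediateField.adjoin_simple_le_iff.2 x.2.2
  let j : F →+* ℂ := F.subtype
  have hreal : ComplexEmbedding.IsReal j := by
    rw [ComplexEmbedding.isReal_iff]
    have : (ComplexEmbedding.conjugate j).toRatAlgHom = j.toRatAlgHom := by
      refine IntermediateField.adjoin_algHom_ext ℚ fun z hz => ?_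
      obtain rfl : z = (x : ℂ) := hz
      exact congrArg Subtype.val hx
    exact RingHom.ext fun a => DFunLike.congr_fun this a
  let w₁ := InfinitePlace.mk j
  obtain ⟨u, hu⟩ := Units.dirichletUnitTheorem.exists_unit F w₁
  let ι : 𝓞 F →+* Zab := (j.comp (algebraMap (𝓞 F) F)).codRestrict Zab fun a =>
    ⟨(RingOfIntegers.isIntegral_coe a).map j.toIntAlgHom, hFK (a : F).2⟩
  refine ⟨ι u, ι (u⁻¹ : (𝓞 F)ˣ), by rw [← map_mul, Units.mul_inv, map_one], fun k hk => ?_⟩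
  have hprim : ℚ⟮(((u : 𝓞 F) ^ k : 𝓞 F) : F)⟯ = ⊤ := by
    refine NumberField.is_primitive_element_of_infinitePlace_lt (w := w₁)
      (pow_ne_zero _ u.ne_zero) (fun w hw => ?_) (Or.inl (InfinitePlace.isReal_mk_iff.2 hreal))
    have h0 : 0 < w u := Units.pos_at_place u w
    have h1 : w u < 1 := (Real.log_neg_iff h0).1 (hu w hw)
    have : w (((u : 𝓞 F) ^ k : 𝓞 F) : F) = (w u) ^ k := by
      push_cast
      rw [map_pow]
    rw [this]
    exact pow_lt_one₀ h0.le h1 hk.ne'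
  let a : F := IntermediateField.AdjoinSimple.gen ℚ (x : ℂ)
  have hmem : a ∈ Algebra.adjoin ℚ {(((u : 𝓞 F) ^ k : 𝓞 F) : F)} := by
    rw [← IntermediateField.adjoin_simple_toSubalgebra_of_isAlgebraic
      (Algebra.IsAlgebraic.isAlgebraic _), hprim]
    trivial
  obtain ⟨d, hd⟩ := multiple_mem_adjoin_of_mem_localization_adjoin (nonZeroDivisors ℤ) ℚ _ _ hmem
  refine ⟨d, nonZeroDivisors.coe_ne_zero d, ?_⟩
  rw [Algebra.adjoin_singleton_eq_range_aeval] at hd ⊢
  obtain ⟨P, hP⟩ := hd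
  refine ⟨P, Subtype.ext ?_⟩
  have e1 := Polynomial.aeval_algHom_apply Zab.subtype.toIntAlgHom (ι u ^ k) P
  have e2 := Polynomial.aeval_algHom_apply j.toIntAlgHom (((u : 𝓞 F) ^ k : 𝓞 F) : F) P
  have e3 : Zab.subtype.toIntAlgHom (ι u ^ k) = j.toIntAlgHom (((u : 𝓞 F) ^ k : 𝓞 F) : F) := by
    rw [← map_pow]
    rfl
  rw [e3, e2] at e1
  have hP' : Polynomial.aeval (((u : 𝓞 F) ^ k : 𝓞 F) : F) P = (d : ℤ) • a := hP
  rw [hP', map_zsmul] at e1
  exact e1.symm

/-- the CM structure on `ℤ^{ab}` -/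
noncomputable def cm : CM Zab where
  cj := cjO
  ι := Qab →+* ℂ
  emb φ := φ.comp toK
  emb_cj φ x := emb_cjK φ (toK x)
  big := big
  bdd x := bdd (toK x)
  int := int_O
  inf := inf
  gen := gen

theorem main : @Set.Definable₁ Zab ∅ FirstOrder.Language.ring
    (FirstOrder.Ring.compatibleRingOfRing Zab).toStructure {x : Zab | (x : ℂ).im = 0} := by
  let _ := FirstOrder.Ring.compatibleRingOfRing Zab
  have h := cm.definable
  have e : {x : Zab | (x : ℂ).im = 0} = {x | cm.cj x = x} := by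
    ext x
    exact (Complex.conj_eq_iff_im.symm).trans (Subtype.ext_iff (a1 := cjO x) (a2 := x)).symm
  rw [e]
  exact h

end Pool.Agent.H129Z.AbInt
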